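import Pool.Agent.Lib.MP_befe0b_co.BC.Defs

/-! Counting extensions. -/

open Finset
open scoped Classical

noncomputable section

namespace Pool.Agent.Lib.MP_befe0b_co.BC

variable {V : Type} [Fintype V] {G : SimpleGraph V}

theorem Count_biUnion {α γ : Type} [DecidableEq γ] (S : Finset α) (F : α → Finset γ) (ρ : γ → α)
    {a : ℝ} (hρ : ∀ x ∈ S, ∀ y ∈ F x, ρ y = x) (ha : ∀ x ∈ S, a ≤ (F x).card) :
    a * S.card ≤ (S.biUnion F).card := by
  rw [card_biUnion fun x hx y hy hxy => disjoint_left.2 fun z hz hz' =>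
    hxy ((hρ x hx z hz).symm.trans (hρ y hy z hz')), Nat.cast_sum]
  calc a * S.card = ∑ _x ∈ S, a := by rw [sum_const, nsmul_eq_mul, mul_comm]
    _ ≤ _ := sum_le_sum ha

theorem Count_image_le {α β γ : Type} [DecidableEq β] [DecidableEq γ] (S : Finset α) (f : α → γ)
    (g : α → β) (h : ∀ x ∈ S, ∀ y ∈ S, g x = g y → f x = f y) :
    (S.image f).card ≤ (S.image g).card := by
  have h1 : ∀ c : S.image f, ∃ x ∈ S, f x = c := fun c => mem_image.1 c.2
  choose s hs using h1
  rw [← Fintype.card_coe, ← Fintype.card_coe]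
  exact Fintype.card_le_of_injective (fun c => ⟨g (s c), mem_image_of_mem _ (hs c).1⟩)
    fun c c' e => Subtype.ext (by
      rw [← (hs c).2, ← (hs c').2]
      exact h _ (hs c).1 _ (hs c').1 (congrArg Subtype.val e))

theorem Count_step {α β γ δ : Type} [DecidableEq γ] [DecidableEq δ] (S : Finset α) (f : α → γ)
    (f' : α → δ) (g : α → β) {b : ℝ}
    (h : ∀ x ∈ S, ∀ y ∈ S, f' x = f' y → g x = g y → f x = f y)
    (hb : ∀ x ∈ S, ∃ T : Finset β, (T.card : ℝ) ≤ b ∧ ∀ y ∈ S, f' y = f' x → g y ∈ T) :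
    ((S.image f).card : ℝ) ≤ b * (S.image f').card := by
  have h1 : S.image f ⊆ (S.image f').biUnion fun c => (S.filter fun y => f' y = c).image f :=
    fun c hc => by
      obtain ⟨x, hx, rfl⟩ := mem_image.1 hc
      exact mem_biUnion.2 ⟨f' x, mem_image_of_mem _ hx,
        mem_image_of_mem _ (mem_filter.2 ⟨hx, rfl⟩)⟩
  have h2 := (card_le_card h1).trans card_biUnion_le
  calc ((S.image f).card : ℝ)
      ≤ ∑ c ∈ S.image f', ((((S.filter fun y => f' y = c).image f).card : ℕ) : ℝ) := by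
        exact_mod_cast h2
    _ ≤ ∑ _c ∈ S.image f', b := by
        refine sum_le_sum fun c hc => ?_
        obtain ⟨x, hx, rfl⟩ := mem_image.1 hc
        obtain ⟨T, hT, hT'⟩ := hb x hx
        have h3 := Count_image_le (S.filter fun y => f' y = f' x) f g fun y hy z hz e =>
          h y (mem_filter.1 hy).1 z (mem_filter.1 hz).1
            ((mem_filter.1 hy).2.trans (mem_filter.1 hz).2.symm) e
        have h4 : ((S.filter fun y => f' y = f' x).image g).card ≤ T.card :=
          card_le_card fun v hv => by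
            obtain ⟨y, hy, rfl⟩ := mem_image.1 hv
            exact hT' y (mem_filter.1 hy).1 (mem_filter.1 hy).2
        exact le_trans (by exact_mod_cast h3.trans h4) hT
    _ = b * (S.image f').card := by rw [sum_const, nsmul_eq_mul, mul_comm]

theorem card_le_mul_image {α γ : Type} (F : Finset α) (f : α → γ) {b : ℝ}
    (h : ∀ x ∈ F, ((F.filter fun y => f y = f x).card : ℝ) ≤ b) :
    (F.card : ℝ) ≤ b * (F.image f).card := by
  rw [card_eq_sum_card_image f F, Nat.cast_sum]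
  calc ∑ c ∈ F.image f, (((F.filter fun y => f y = c).card : ℕ) : ℝ) ≤ ∑ _c ∈ F.image f, b := by
        refine sum_le_sum fun c hc => ?_
        obtain ⟨x, hx, rfl⟩ := mem_image.1 hc
        exact h x hx
    _ = b * (F.image f).card := by rw [sum_const, nsmul_eq_mul, mul_comm]

theorem exists_fibre {α γ : Type} (F : Finset α) (f : α → γ) (hF : F.Nonempty) :
    ∃ x ∈ F, F.card ≤ (F.image f).card * (F.filter fun y => f y = f x).card := by
  obtain ⟨x, hx, hmax⟩ := exists_max_image F (fun x => (F.filter fun y => f y = f x).card) hF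
  refine ⟨x, hx, ?_⟩
  have h := card_le_mul_image F f (b := ((F.filter fun y => f y = f x).card : ℝ))
    fun y hy => by exact_mod_cast hmax y hy
  rw [mul_comm] at h
  exact_mod_cast h

omit [Fintype V] in
theorem ext_image {ι γ : Type} (Y : Finset ι) (par : ι → ι) (rk : ι → ℕ)
    (hrk : ∀ y ∈ Y, par y ∈ Y → rk (par y) < rk y) (O : ι → V → Finset V) (b : ι → ℝ)
    (hb0 : ∀ y ∈ Y, 0 ≤ b y) (hb : ∀ y ∈ Y, ∀ v, ((O y v).card : ℝ) ≤ b y)
    (F : Finset (ι → V)) (hO : ∀ φ ∈ F, ∀ y ∈ Y, φ y ∈ O y (φ (par y)))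
    (hpar : ∀ y ∈ Y, par y ∉ Y → ∀ φ ∈ F, ∀ ψ ∈ F, O y (φ (par y)) = O y (ψ (par y)))
    (f : (ι → V) → γ) (hf : ∀ φ ∈ F, ∀ ψ ∈ F, (∀ y ∈ Y, φ y = ψ y) → f φ = f ψ) :
    ((F.image f).card : ℝ) ≤ ∏ y ∈ Y, b y := by
  induction hn : Y.card generalizing Y γ with
  | zero =>
    obtain rfl : Y = ∅ := card_eq_zero.1 hn
    rw [prod_empty]
    have : (F.image f).card ≤ 1 := card_le_one.2 fun c hc c' hc' => by
      obtain ⟨φ, hφ, rfl⟩ := mem_image.1 hc
      obtain ⟨ψ, hψ, rfl⟩ := mem_image.1 hc'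
      exact hf φ hφ ψ hψ fun y hy => absurd hy (notMem_empty y)
    exact_mod_cast this
  | succ n ih =>
    have hY : Y.Nonempty := card_pos.1 (by omega)
    obtain ⟨y₀, hy₀, hmax⟩ := exists_max_image Y rk hY
    have hne : ∀ y ∈ Y, par y ≠ y₀ := fun y hy e => by
      have h1 := hrk y hy (e ▸ hy₀)
      have h2 := hmax y hy
      rw [e] at h1
      omega
    let f' : (ι → V) → ι → Option V := fun φ x => if x ∈ Y.erase y₀ then some (φ x) else none
    have hf' : ∀ φ ψ, f' φ = f' ψ → ∀ y ∈ Y.erase y₀, φ y = ψ y := fun φ ψ e y hy => by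
      have := congrFun e y
      simpa only [f', hy, if_true, Option.some.injEq] using this
    have h1 := ih (Y.erase y₀)
      (fun y hy hp => hrk y (mem_of_mem_erase hy) (mem_of_mem_erase hp))
      (fun y hy => hb0 y (mem_of_mem_erase hy)) (fun y hy => hb y (mem_of_mem_erase hy))
      (fun φ hφ y hy => hO φ hφ y (mem_of_mem_erase hy))
      (fun y hy hp => hpar y (mem_of_mem_erase hy) fun hq =>
        hp (mem_erase.2 ⟨hne y (mem_of_mem_erase hy), hq⟩))
      f' (fun φ _ ψ _ e => funext fun x => by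
        by_cases hx : x ∈ Y.erase y₀
        · simp only [f', hx, if_true, e x hx]
        · simp only [f', hx, if_false])
      (by rw [card_erase_of_mem hy₀, hn]; rfl)
    have h2 := Count_step F f f' (fun φ => φ y₀) (b := b y₀)
      (fun φ hφ ψ hψ e e' => hf φ hφ ψ hψ fun y hy => by
        by_cases hyy : y = y₀
        · rw [hyy]; exact e'
        · exact hf' φ ψ e y (mem_erase.2 ⟨hyy, hy⟩))
      (fun φ hφ => ⟨O y₀ (φ (par y₀)), hb y₀ hy₀ _, fun ψ hψ e => by
        have h3 : O y₀ (ψ (par y₀)) = O y₀ (φ (par y₀)) := by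
          by_cases hp : par y₀ ∈ Y
          · rw [hf' ψ φ e _ (mem_erase.2 ⟨hne y₀ hy₀, hp⟩)]
          · exact hpar y₀ hy₀ hp ψ hψ φ hφ
        rw [← h3]
        exact hO ψ hψ y₀ hy₀⟩)
    rw [← mul_prod_erase Y b hy₀]
    refine h2.trans (mul_le_mul_of_nonneg_left ?_ (hb0 y₀ hy₀))
    convert h1

omit [Fintype V] in
theorem ext_upper {ι : Type} (Y : Finset ι) (par : ι → ι) (rk : ι → ℕ)
    (hrk : ∀ y ∈ Y, par y ∈ Y → rk (par y) < rk y) (O : ι → V → Finset V) (b : ι → ℝ)
    (hb0 : ∀ y ∈ Y, 0 ≤ b y) (hb : ∀ y ∈ Y, ∀ v, ((O y v).card : ℝ) ≤ b y)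
    (F : Finset (ι → V)) (hO : ∀ φ ∈ F, ∀ y ∈ Y, φ y ∈ O y (φ (par y)))
    (hag : ∀ φ ∈ F, ∀ ψ ∈ F, ∀ x, x ∉ Y → φ x = ψ x) :
    (F.card : ℝ) ≤ ∏ y ∈ Y, b y := by
  have h := ext_image Y par rk hrk O b hb0 hb F hO
    (fun y _ hp φ hφ ψ hψ => by rw [hag φ hφ ψ hψ _ hp]) id
    (fun φ hφ ψ hψ e => funext fun x => by
      by_cases hx : x ∈ Y
      · exact e x hx
      · exact hag φ hφ ψ hψ x hx)
  rwa [image_id] at h

omit [Fintype V] in
theorem ext_lower {ι : Type} (Y : Finset ι) (par : ι → ι) (rk : ι → ℕ)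
    (hrk : ∀ y ∈ Y, par y ∈ Y → rk (par y) < rk y) (O : ι → V → Finset V) (a : ι → ℝ)
    (ha0 : ∀ y ∈ Y, 0 ≤ a y) (φ₀ : ι → V) (Z : Finset V)
    (ha : ∀ y ∈ Y, ∀ v, (par y ∉ Y → v = φ₀ (par y)) → a y + Y.card + Z.card ≤ (O y v).card) :
    ∃ F : Finset (ι → V), ∏ y ∈ Y, a y ≤ F.card ∧ ∀ φ ∈ F, (∀ x, x ∉ Y → φ x = φ₀ x) ∧
      (∀ y ∈ Y, φ y ∈ O y (φ (par y)) ∧ φ y ∉ Z) ∧ Set.InjOn φ Y := by
  induction hn : Y.card generalizing Y with
  | zero =>
    obtain rfl : Y = ∅ := card_eq_zero.1 hn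
    refine ⟨{φ₀}, by simp, fun φ hφ => ?_⟩
    rw [mem_singleton.1 hφ]
    simp
  | succ n ih =>
    have hY : Y.Nonempty := card_pos.1 (by omega)
    obtain ⟨y₀, hy₀, hmax⟩ := exists_max_image Y rk hY
    have hne : ∀ y ∈ Y, par y ≠ y₀ := fun y hy e => by
      have h1 := hrk y hy (e ▸ hy₀)
      have h2 := hmax y hy
      rw [e] at h1
      omega
    have hcard : (Y.erase y₀).card ≤ Y.card := card_erase_le
    have hcard' : ((Y.erase y₀).card : ℝ) ≤ Y.card := by exact_mod_cast hcard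
    obtain ⟨F, hF, hF'⟩ := ih (Y.erase y₀)
      (fun y hy hp => hrk y (mem_of_mem_erase hy) (mem_of_mem_erase hp))
      (fun y hy => ha0 y (mem_of_mem_erase hy))
      (fun y hy v hv => le_trans (by linarith)
        (ha y (mem_of_mem_erase hy) v fun hp => hv fun hq => hp (mem_of_mem_erase hq)))
      (by rw [card_erase_of_mem hy₀, hn]; rfl)
    let T : (ι → V) → Finset V := fun φ =>
      O y₀ (φ (par y₀)) \ (Z ∪ (Y.erase y₀).image φ)
    have hT : ∀ φ ∈ F, a y₀ ≤ (T φ).card := fun φ hφ => by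
      have h1 := ha y₀ hy₀ (φ (par y₀)) fun hp =>
        (hF' φ hφ).1 _ fun hq => hp (mem_of_mem_erase hq)
      have h2 : (O y₀ (φ (par y₀))).card ≤ (T φ).card + (Z ∪ (Y.erase y₀).image φ).card :=
        card_le_card_sdiff_add_card
      have h3 : (Z ∪ (Y.erase y₀).image φ).card ≤ Z.card + Y.card :=
        (card_union_le _ _).trans (Nat.add_le_add_left (card_image_le.trans hcard) _)
      have h4 : ((O y₀ (φ (par y₀))).card : ℝ) ≤ (T φ).card + (Z.card + Y.card) := by
        exact_mod_cast h2.trans (Nat.add_le_add_left h3 _)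
      linarith
    refine ⟨F.biUnion fun φ => (T φ).image (Function.update φ y₀), ?_, ?_⟩
    · have h1 := Count_biUnion F (fun φ => (T φ).image (Function.update φ y₀))
        (fun ψ => Function.update ψ y₀ (φ₀ y₀)) (a := a y₀)
        (fun φ hφ ψ hψ => by
          obtain ⟨v, _, rfl⟩ := mem_image.1 hψ
          rw [Function.update_idem, ← (hF' φ hφ).1 y₀ (notMem_erase y₀ Y), Function.update_eq_self])
        (fun φ hφ => by
          rw [card_image_of_injective _ (Function.update_injective φ y₀)]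
          exact hT φ hφ)
      rw [← mul_prod_erase Y a hy₀]
      exact (mul_le_mul_of_nonneg_left hF (ha0 y₀ hy₀)).trans h1
    · intro ψ hψ
      obtain ⟨φ, hφ, hψ⟩ := mem_biUnion.1 hψ
      obtain ⟨v, hv, rfl⟩ := mem_image.1 hψ
      obtain ⟨h1, h2, h3⟩ := hF' φ hφ
      obtain ⟨hv1, hv2⟩ := mem_sdiff.1 hv
      rw [mem_union, not_or] at hv2
      refine ⟨fun x hx => ?_, fun y hy => ?_, fun y hy y' hy' e => ?_⟩
      · rw [Function.update_of_ne (fun e : x = y₀ => hx (e.symm ▸ hy₀))]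
        exact h1 x fun hq => hx (mem_of_mem_erase hq)
      · rw [Function.update_of_ne (hne y hy)]
        by_cases hyy : y = y₀
        · rw [hyy, Function.update_self]
          exact ⟨hv1, hv2.1⟩
        · rw [Function.update_of_ne hyy]
          exact h2 y (mem_erase.2 ⟨hyy, hy⟩)
      · by_cases hyy : y = y₀ <;> by_cases hyy' : y' = y₀
        · rw [hyy, hyy']
        · rw [hyy, Function.update_self, Function.update_of_ne hyy'] at e
          exact absurd (mem_image.2 ⟨y', mem_erase.2 ⟨hyy', hy'⟩, e.symm⟩) hv2.2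
        · rw [hyy', Function.update_self, Function.update_of_ne hyy] at e
          exact absurd (mem_image.2 ⟨y, mem_erase.2 ⟨hyy, hy⟩, e⟩) hv2.2
        · rw [Function.update_of_ne hyy, Function.update_of_ne hyy'] at e
          exact h3 (mem_coe.2 (mem_erase.2 ⟨hyy, hy⟩)) (mem_coe.2 (mem_erase.2 ⟨hyy', hy'⟩)) e

omit [Fintype V] in
theorem bad_tuples (q : ℕ) (A Z : Finset V) {D : ℝ} (hA : (A.card : ℝ) ≤ D) :
    (((Fintype.piFinset fun _ : Fin q => A).filter fun τ =>
      ¬ (Function.Injective τ ∧ ∀ i, τ i ∉ Z)).card : ℝ) * D ≤ q * (q + Z.card) * D ^ q := by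
  have hD : 0 ≤ D := (Nat.cast_nonneg _).trans hA
  rcases q with _ | n
  · rw [filter_false_of_mem fun τ _ h => h ⟨fun i => i.elim0, fun i => i.elim0⟩]
    simp
  let S : Fin (n + 1) → Finset (Fin (n + 1) → V) := fun i =>
    (Fintype.piFinset fun _ : Fin (n + 1) => A).filter fun τ =>
      τ i ∈ Z ∪ univ.image (i.removeNth τ)
  have hS : ∀ i, (S i).card ≤ (n + 1 + Z.card) * A.card ^ n := fun i => by
    have h1 := card_le_mul_card_image_of_maps_to (s := S i)
      (t := Fintype.piFinset fun _ : Fin n => A) (f := fun τ => i.removeNth τ)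
      (fun τ hτ => Fintype.mem_piFinset.2 fun j =>
        Fintype.mem_piFinset.1 (mem_filter.1 hτ).1 _) (n + 1 + Z.card)
      (fun σ _ => by
        refine (card_le_card_of_injOn (t := Z ∪ univ.image σ) (fun τ => τ i) ?_ ?_).trans ?_
        · intro τ hτ
          obtain ⟨h1, h2⟩ := mem_filter.1 (mem_coe.1 hτ)
          rw [← h2]
          exact mem_coe.2 (mem_filter.1 h1).2
        · intro τ hτ τ' hτ' e
          have h1 := (mem_filter.1 (mem_coe.1 hτ)).2
          have h2 := (mem_filter.1 (mem_coe.1 hτ')).2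
          have e' : τ i = τ' i := e
          rw [← Fin.insertNth_self_removeNth i τ, ← Fin.insertNth_self_removeNth i τ', h1, h2, e']
        · refine (card_union_le _ _).trans ?_
          have : (univ.image σ).card ≤ n := card_image_le.trans (by simp)
          omega)
    simpa using h1
  have hsub : ((Fintype.piFinset fun _ : Fin (n + 1) => A).filter fun τ =>
      ¬ (Function.Injective τ ∧ ∀ i, τ i ∉ Z)) ⊆ univ.biUnion S := fun τ hτ => by
    obtain ⟨h1, h2⟩ := mem_filter.1 hτ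
    by_contra hc
    refine h2 ⟨fun i j e => ?_, fun i hi => hc (mem_biUnion.2 ⟨i, mem_univ _,
      mem_filter.2 ⟨h1, mem_union_left _ hi⟩⟩)⟩
    by_contra hij
    obtain ⟨l, hl⟩ := Fin.exists_succAbove_eq (Ne.symm hij)
    exact hc (mem_biUnion.2 ⟨i, mem_univ _, mem_filter.2 ⟨h1, mem_union_right _
      (mem_image.2 ⟨l, mem_univ _, by rw [e, ← hl]; rfl⟩)⟩⟩)
  have h1 := (card_le_card hsub).trans (card_biUnion_le.trans (sum_le_sum fun i _ => hS i))
  rw [sum_const, card_univ, Fintype.card_fin, smul_eq_mul] at h1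
  have h2 : (A.card : ℝ) ^ n ≤ D ^ n := pow_le_pow_left₀ (Nat.cast_nonneg _) hA n
  calc _ ≤ (((n + 1) * ((n + 1 + Z.card) * A.card ^ n) : ℕ) : ℝ) * D :=
        mul_le_mul_of_nonneg_right (by exact_mod_cast h1) hD
    _ = ((n + 1 : ℕ) : ℝ) * (((n + 1 : ℕ) : ℝ) + Z.card) * ((A.card : ℝ) ^ n * D) := by
        push_cast; ring
    _ ≤ _ := by
        rw [pow_succ]
        gcongr

theorem card_biUnion_ge {α γ : Type} (S : Finset α) (F : α → Finset γ) (ρ : γ → α) {a : ℝ}
    (hρ : ∀ x ∈ S, ∀ y ∈ F x, ρ y = x) (ha : ∀ x ∈ S, a ≤ (F x).card) :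
    a * S.card ≤ (S.biUnion F).card := by
  exact Count_biUnion S F ρ hρ ha

end Pool.Agent.Lib.MP_befe0b_co.BC
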