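import Pool.Agent.Lib.MP_befe0b_co.Basic

/-! Powers of caterpillars: definitions. -/

open Finset
open scoped Classical

noncomputable section

namespace Pool.Agent.Lib.MP_befe0b_co.BC

variable {V : Type} [Fintype V] (G : SimpleGraph V)

/-- The neighbourhood. -/
def nb (x : V) : Finset V := univ.filter (G.Adj x)

/-- The common neighbourhood. -/
def cn (S : Finset V) : Finset V := univ.filter fun z => ∀ v ∈ S, G.Adj v z

/-- All degrees lie between `d` and `D`. -/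
structure Host (d D : ℝ) : Prop where
  ne : Nonempty V
  lo : ∀ v, d ≤ (nb G v).card
  hi : ∀ v, ((nb G v).card : ℝ) ≤ D

/-- `c` is a spine with `k` vertices for the roots `w`; position `s` has `κ s` legs. -/
structure Sp (k : ℕ) (κ : ℕ → ℕ) (Ok : (ℕ → V) → Prop) (w : ℕ → ℕ → V) (c : ℕ → V) : Prop where
  path : ∀ s, s + 1 < k → G.Adj (c s) (c (s + 1))
  leg : ∀ s < k, ∀ l < κ s, G.Adj (c s) (w s l)
  inj : ∀ s < k, ∀ s' < k, c s = c s' → s = s'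
  ok : Ok c

/-- The roots are distinct. -/
def LegInj (k : ℕ) (κ : ℕ → ℕ) (w : ℕ → ℕ → V) : Prop :=
  ∀ s < k, ∀ l < κ s, ∀ s' < k, ∀ l' < κ s', w s l = w s' l' → s = s' ∧ l = l'

/-- Distinct roots outside `Z` whose spines cannot be hit by `m` vertices. -/
def Goal (k : ℕ) (κ : ℕ → ℕ) (Ok : (ℕ → V) → Prop) (m : ℕ) (Z : Finset V) : Prop :=
  ∃ w : ℕ → ℕ → V, LegInj k κ w ∧ (∀ s < k, ∀ l < κ s, w s l ∉ Z) ∧
    ∀ Q : Finset V, Q.card ≤ m → ∃ c, Sp G k κ Ok w c ∧ ∀ s < k, c s ∉ Q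

/-- The vertices of the caterpillar: `(s, 0)` is on the spine, `(s, l + 1)` is a root. -/
def Tv (k : ℕ) (κ : ℕ → ℕ) : Finset (ℕ × ℕ) :=
  (range k).biUnion fun s => (range (κ s + 1)).image fun l => (s, l)

/-- The images of the neighbours of the spine vertex `s + 1`. -/
def star (κ : ℕ → ℕ) (φ : ℕ × ℕ → V) (s : ℕ) : Finset V :=
  insert (φ (s, 0)) (insert (φ (s + 2, 0)) ((range (κ (s + 1))).image fun l => φ (s + 1, l + 1)))

/-- Light copies of the caterpillar. -/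
structure Mem (k : ℕ) (κ : ℕ → ℕ) (Ok : (ℕ → V) → Prop) (m : ℕ) (Z : Finset V)
    (φ : ℕ × ℕ → V) : Prop where
  sp : Sp G k κ Ok (fun s l => φ (s, l + 1)) fun s => φ (s, 0)
  inj : Set.InjOn φ (Tv k κ)
  av : ∀ x ∈ Tv k κ, φ x ∉ Z
  light : ∀ s, s + 2 < k → (cn G (star κ φ s)).card ≤ m

/-- The number of folded legs at position `s` of the interval from `i` to `j`. -/
def jk (k i j s : ℕ) : ℕ :=
  (if s = i ∧ 0 < i then 1 else 0) + if s = j ∧ j + 1 < k then 1 else 0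

/-- The constant of the peeling lemma. -/
def Cp (k m : ℕ) : ℝ := 2 ^ ((k + 1) * (k + 1)) * ((m * k + 1 : ℕ) : ℝ) ^ k

/-- The number of heavy `q`-tuples in `A`. -/
def hx (q M : ℕ) (A : Finset V) : ℕ :=
  ((Fintype.piFinset fun _ : Fin q => A).filter fun τ => M ≤ (cn G (univ.image τ)).card).card

/-- The number of heavy stars with `q` leaves. -/
def hs (q M : ℕ) : ℕ := ∑ x, hx G q M (nb G x)

/-- `s` together with `τ` has at least `M` common neighbours. -/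
def Hv (M : ℕ) {h : ℕ} (s : V) (τ : Fin h → V) : Prop :=
  M ≤ (cn G (insert s (univ.image τ))).card

/-- The link of `s` in `Lk`. -/
def lk (M : ℕ) {h : ℕ} (Lk : Finset (Fin h → V)) (s : V) : Finset (Fin h → V) :=
  Lk.filter (Hv G M s)

/-- Many vertices with large degree into `A`. -/
def FS (L : ℕ) (D μ : ℝ) (A : Finset V) : Prop :=
  ∃ B : Finset V, (∀ z ∈ B, μ * D ^ L ≤ (dg G A z : ℝ) ^ (L + 1)) ∧
    μ * D ≤ ∑ z ∈ B, (dg G A z : ℝ)

/-- A dense set of tuples with many heavy extensions. -/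
structure Base (M : ℕ) (D β : ℝ) (A : Finset V) {h : ℕ} (Lk : Finset (Fin h → V)) : Prop where
  pos : 0 < β
  le : β ≤ 1
  card : (A.card : ℝ) ≤ D
  sub : ∀ τ ∈ Lk, ∀ i, τ i ∈ A
  big : β * D ^ h ≤ Lk.card
  ext : ∀ τ ∈ Lk, β * D ≤ (A.filter fun s => Hv G M s τ).card

/-- Every large set of vertices with large links has the property `FS`. -/
structure Rob (L M : ℕ) (D μ β γ : ℝ) (A : Finset V) {h : ℕ} (Lk : Finset (Fin h → V)) : Prop
    extends Base G M D β A Lk where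
  fs : ∀ A' ⊆ A, ∀ a b : ℝ, 0 ≤ a → 0 ≤ b → γ ≤ a * b → a * D ≤ A'.card →
    (∀ s ∈ A', b * D ^ h ≤ (lk G M Lk s).card) → FS G L D μ A'

/-- The links of `a` and `a'` meet `Lk` in at least `b` tuples. -/
def Lg (M : ℕ) (b : ℝ) (A : Finset V) {h : ℕ} (Lk : Finset (Fin h → V)) (a a' : V) : Prop :=
  a ∈ A ∧ a' ∈ A ∧ b ≤ (lk G M (lk G M Lk a) a').card

/-- The length of a gadget. -/
def gl (b : Bool) : ℕ := if b then 3 else 1

/-- The numbers of legs of a gadget. -/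
def gk (L : ℕ) (b : Bool) (j : ℕ) : ℕ := if b then (if j = 1 then L + 1 else L) else L + 1

/-- Gadgets of type `b` exist for every dense part of `Lk`. -/
def Supply (L M m : ℕ) (D β γ₀ : ℝ) (A : Finset V) {h : ℕ} (Lk : Finset (Fin h → V))
    (b : Bool) : Prop :=
  ∀ Lk' ⊆ Lk, ∀ γ : ℝ, γ₀ ≤ γ → γ * D ^ h ≤ Lk'.card → ∀ Z : Finset V, Z.card ≤ m →
    Goal G (gl b) (gk L b) (fun c => Lg G M (β ^ 2 * γ / 4 * D ^ h) A Lk' (c 0) (c (gl b - 1))) m Z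

/-- `W` has large degrees into the small set `B`. -/
structure Fr (D μ τ : ℝ) (W B : Finset V) (D₀ : ℕ) : Prop where
  ne : W.Nonempty
  big : μ / 2 ≤ D₀
  deg : ∀ w ∈ W, D₀ ≤ dg G B w
  le₁ : (B.card : ℝ) ≤ 2 * τ * D₀
  le₂ : (B.card : ℝ) * D ≤ 2 * (1 + Real.log (Fintype.card V)) * τ * W.card * D₀

/-- Many light stars contain `w` and `w'`. -/
def Gd (L M : ℕ) (d θ : ℝ) (w w' : V) : Prop :=
  θ * d ^ 2 / Fintype.card V ≤ ((cn G {w, w'}).filter fun c => d ^ (L + 1) / 2 ≤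
    ((Fintype.piFinset fun _ : Fin (L + 1) => nb G c).filter fun R =>
      (cn G (insert w (insert w' (univ.image R)))).card < M).card).card

/-- The number of pairs in `A` that are not good. -/
def bad (L M : ℕ) (d θ : ℝ) (A : Finset V) : ℕ :=
  ((A ×ˢ A).filter fun x => ¬ Gd G L M d θ x.1 x.2).card

/-- The numerical inequalities. -/
structure Big (L : ℕ) (n d τ C : ℝ) : Prop where
  b0 : C ≤ d
  b1 : C * n ≤ d ^ 2
  b2 : C * n ^ L ≤ d ^ (L + 1)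
  b3 : C * (1 + Real.log n) * n ≤ τ ^ 2 * d
  b4 : C * (1 + Real.log n) * n ^ (L + 1) ≤ τ * d ^ (L + 2)
  b5 : C * (1 + Real.log n) ^ 2 * n ^ (L + 2) ≤ τ ^ 2 * d ^ (L + 3)

/-- Letters `L` and `L + 1`, the large ones at distance at least five. -/
structure Word (L k : ℕ) (κ : ℕ → ℕ) : Prop where
  two : 2 ≤ L
  val : ∀ s < k, κ s = L ∨ κ s = L + 1
  gap : ∀ s s', s < s' → s' < k → κ s = L + 1 → κ s' = L + 1 → s + 5 ≤ s'

/-- Indices of a block: `(s, l)` with `l < κ s` is a root, `(s, o + t)` lies in column `t`. -/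
def Ix (k : ℕ) (κ : ℕ → ℕ) (o P : ℕ) : Finset (ℕ × ℕ) :=
  (range k ×ˢ range (o + P)).filter fun x => x.2 < κ x.1 ∨ o ≤ x.2

/-- `P` disjoint spines on common roots, outside `Z`. -/
structure Blk (k : ℕ) (κ : ℕ → ℕ) (Ok : (ℕ → V) → Prop) (o P : ℕ) (Z : Finset V)
    (φ : ℕ × ℕ → V) : Prop where
  inj : Set.InjOn φ (Ix k κ o P)
  av : ∀ x ∈ Ix k κ o P, φ x ∉ Z
  sp : ∀ t < P, Sp G k κ Ok (fun s l => φ (s, l)) fun s => φ (s, o + t)

/-- Different blocks are disjoint. -/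
def Cross {V : Type} (I : ℕ → Finset (ℕ × ℕ)) (φ : ℕ → ℕ × ℕ → V) (N : ℕ) : Prop :=
  ∀ g < N, ∀ g' < N, ∀ x ∈ I g, ∀ x' ∈ I g', φ g x = φ g' x' → g = g'

/-- The power of the caterpillar. -/
def pw (k p : ℕ) (κ : ℕ → ℕ) : SimpleGraph ((Fin p × Fin k) ⊕ (Σ s : Fin k, Fin (κ s))) :=
  SimpleGraph.fromRel fun x y =>
    (∃ t s s', x = .inl (t, s) ∧ y = .inl (t, s') ∧ s.val + 1 = s'.val) ∨
      ∃ t s l, x = .inl (t, s) ∧ y = .inr ⟨s, l⟩

variable {G}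

theorem mem_nb {x y : V} : y ∈ nb G x ↔ G.Adj x y := by simp [nb]

theorem mem_cn {S : Finset V} {z : V} : z ∈ cn G S ↔ ∀ v ∈ S, G.Adj v z := by simp [cn]

theorem cn_anti {S T : Finset V} (h : S ⊆ T) : cn G T ⊆ cn G S :=
  fun _ hz => mem_cn.2 fun v hv => mem_cn.1 hz v (h hv)

theorem mem_Tv {k : ℕ} {κ : ℕ → ℕ} {x : ℕ × ℕ} : x ∈ Tv k κ ↔ x.1 < k ∧ x.2 ≤ κ x.1 := by
  obtain ⟨s, l⟩ := x
  simp only [Tv, mem_biUnion, mem_range, mem_image, Prod.mk.injEq]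
  constructor
  · rintro ⟨a, ha, b, hb, rfl, rfl⟩
    exact ⟨ha, by omega⟩
  · rintro ⟨h1, h2⟩
    exact ⟨s, h1, l, by omega, rfl, rfl⟩

theorem mem_lk {M h : ℕ} {Lk : Finset (Fin h → V)} {s : V} {τ : Fin h → V} :
    τ ∈ lk G M Lk s ↔ τ ∈ Lk ∧ Hv G M s τ := mem_filter

theorem Goal.mono {k m m' : ℕ} {κ : ℕ → ℕ} {Ok Ok' : (ℕ → V) → Prop} {Z : Finset V}
    (h : Goal G k κ Ok m Z) (hm : m' ≤ m) (hO : ∀ c, Ok c → Ok' c) : Goal G k κ Ok' m' Z := by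
  obtain ⟨w, h1, h2, h3⟩ := h
  refine ⟨w, h1, h2, fun Q hQ => ?_⟩
  obtain ⟨c, hc, hq⟩ := h3 Q (hQ.trans hm)
  exact ⟨c, ⟨hc.path, hc.leg, hc.inj, hO c hc.ok⟩, hq⟩

theorem Goal.restrict {k k' m : ℕ} {κ κ' : ℕ → ℕ} {Z : Finset V}
    (h : Goal G k' κ' (fun _ => True) m Z) (hk : k ≤ k') (hκ : ∀ s < k, κ s = κ' s) :
    Goal G k κ (fun _ => True) m Z := by
  obtain ⟨w, h1, h2, h3⟩ := h
  refine ⟨w, fun s hs l hl s' hs' l' hl' => h1 s (by omega) l (hκ s hs ▸ hl) s' (by omega) l'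
    (hκ s' hs' ▸ hl'), fun s hs l hl => h2 s (by omega) l (hκ s hs ▸ hl), fun Q hQ => ?_⟩
  obtain ⟨c, hc, hq⟩ := h3 Q hQ
  exact ⟨c, ⟨fun s hs => hc.path s (by omega), fun s hs l hl => hc.leg s (by omega) l
    (hκ s hs ▸ hl), fun s hs s' hs' => hc.inj s (by omega) s' (by omega), trivial⟩,
    fun s hs => hq s (by omega)⟩

theorem Big.mono {L : ℕ} {n d τ C C' : ℝ} (h : Big L n d τ C) (hC : C' ≤ C) (hn : 1 ≤ n) :
    Big L n d τ C' := by
  have h0 : 0 ≤ 1 + Real.log n := by have := Real.log_nonneg hn; linarith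
  have hn0 : 0 ≤ n := by linarith
  exact ⟨hC.trans h.b0, le_trans (by gcongr) h.b1, le_trans (by gcongr) h.b2,
    le_trans (by gcongr) h.b3, le_trans (by gcongr) h.b4, le_trans (by gcongr) h.b5⟩

theorem mem_Ix {k o P : ℕ} {κ : ℕ → ℕ} {x : ℕ × ℕ} :
    x ∈ Ix k κ o P ↔ x.1 < k ∧ x.2 < o + P ∧ (x.2 < κ x.1 ∨ o ≤ x.2) := by
  simp [Ix, and_assoc]

theorem card_Ix_le (k o P : ℕ) (κ : ℕ → ℕ) : (Ix k κ o P).card ≤ k * (o + P) :=
  (card_filter_le _ _).trans (by simp)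

theorem Blk.mono {k o P : ℕ} {κ : ℕ → ℕ} {Ok Ok' : (ℕ → V) → Prop} {Z Z' : Finset V}
    {φ : ℕ × ℕ → V} (h : Blk G k κ Ok o P Z φ) (hZ : Z' ⊆ Z)
    (hO : ∀ t < P, Ok (fun s => φ (s, o + t)) → Ok' fun s => φ (s, o + t)) :
    Blk G k κ Ok' o P Z' φ :=
  ⟨h.inj, fun x hx hz => h.av x hx (hZ hz), fun t ht =>
    ⟨(h.sp t ht).path, (h.sp t ht).leg, (h.sp t ht).inj, hO t ht (h.sp t ht).ok⟩⟩

theorem Mem.mono {k m m' : ℕ} {κ : ℕ → ℕ} {Ok : (ℕ → V) → Prop} {Z : Finset V} {φ : ℕ × ℕ → V}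
    (h : Mem G k κ Ok m Z φ) (hm : m ≤ m') : Mem G k κ Ok m' Z φ :=
  ⟨h.sp, h.inj, h.av, fun s hs => (h.light s hs).trans hm⟩

theorem Host.le {d D : ℝ} (h : Host G d D) : d ≤ D := by
  obtain ⟨v⟩ := h.ne
  exact (h.lo v).trans (h.hi v)

theorem Host.le_card {d D : ℝ} (h : Host G d D) : d ≤ Fintype.card V := by
  obtain ⟨v⟩ := h.ne
  exact (h.lo v).trans (by exact_mod_cast card_le_univ _)

theorem Host.one_le {d D : ℝ} (h : Host G d D) : (1 : ℝ) ≤ Fintype.card V := by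
  have := h.ne
  exact_mod_cast Fintype.card_pos

theorem dg_le_nb (A : Finset V) (z : V) : dg G A z ≤ (nb G z).card :=
  card_le_card (filter_subset_filter _ (subset_univ _))

theorem hx_le (q M : ℕ) (A : Finset V) : hx G q M A ≤ A.card ^ q :=
  (card_filter_le _ _).trans (by simp)

theorem Base.card_le {M h : ℕ} {D β : ℝ} {A : Finset V} {Lk Lk' : Finset (Fin h → V)}
    (H : Base G M D β A Lk) (hs : Lk' ⊆ Lk) : (Lk'.card : ℝ) ≤ D ^ h := by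
  have h1 : Lk' ⊆ Fintype.piFinset fun _ : Fin h => A := fun τ hτ =>
    Fintype.mem_piFinset.2 (H.sub τ (hs hτ))
  have h2 : Lk'.card ≤ A.card ^ h := (card_le_card h1).trans (by simp)
  calc (Lk'.card : ℝ) ≤ (A.card : ℝ) ^ h := by exact_mod_cast h2
    _ ≤ D ^ h := pow_le_pow_left₀ (Nat.cast_nonneg _) H.card h

end Pool.Agent.Lib.MP_befe0b_co.BC
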