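import Pool.Agent.Lib.MP_befe0b_co.BC.Defs

/-! Selection lemmas. -/

open Finset
open scoped Classical

noncomputable section

namespace Pool.Agent.Lib.MP_befe0b_co.BC

variable {V : Type} [Fintype V] {G : SimpleGraph V}

theorem dense_part {α γ : Type} (A : Finset α) (T : Finset γ) (r : α → γ → Prop) {β c D N : ℝ}
    (hβ : 0 ≤ β) (hc : 0 ≤ c) (hN : 0 < N) (hA : (A.card : ℝ) ≤ D) (hT : (T.card : ℝ) ≤ N)
    (hT' : c * N ≤ T.card) (h : ∀ τ ∈ T, β * D ≤ (A.filter fun s => r s τ).card) :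
    β * c / 2 * D ≤ (A.filter fun s => β * c / 2 * N ≤ (T.filter (r s)).card).card := by
  have hD : 0 ≤ D := (Nat.cast_nonneg _).trans hA
  have e : ∑ s ∈ A, ((T.filter (r s)).card : ℝ) =
      ∑ τ ∈ T, ((A.filter fun s => r s τ).card : ℝ) := by
    simp only [card_filter]
    push_cast
    exact sum_comm
  have h1 : c * N * (β * D) ≤ ∑ τ ∈ T, ((A.filter fun s => r s τ).card : ℝ) := by
    have := card_nsmul_le_sum T _ _ h
    rw [nsmul_eq_mul] at this
    exact le_trans (by gcongr) this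
  have h2 : ∑ s ∈ A, ((T.filter (r s)).card : ℝ) ≤ ∑ s ∈ A, (β * c / 2 * N +
      if β * c / 2 * N ≤ (T.filter (r s)).card then N else 0) := by
    refine sum_le_sum fun s _ => ?_
    split_ifs with h3
    · have h4 : ((T.filter (r s)).card : ℝ) ≤ T.card := by exact_mod_cast card_filter_le _ _
      have : 0 ≤ β * c / 2 * N := by positivity
      linarith
    · linarith [not_le.1 h3]
  rw [sum_add_distrib, ← sum_filter, sum_const, sum_const, nsmul_eq_mul, nsmul_eq_mul] at h2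
  have h3 : (A.card : ℝ) * (β * c / 2 * N) ≤ D * (β * c / 2 * N) := by gcongr
  refine le_of_mul_le_mul_right ?_ hN
  linarith

theorem inter_select {α : Type} (Ω : Finset α) (P p : ℕ) {β N : ℝ} (S : ℕ → Finset α)
    (hβ : 0 < β) (hP0 : 0 < P) (hP : 2 * p ≤ β * P) (hN : 0 < N) (hΩ : (Ω.card : ℝ) ≤ N)
    (hS : ∀ t < P, S t ⊆ Ω ∧ β * N ≤ (S t).card) :
    ∃ e : ℕ → ℕ, (∀ t < p, e t < P) ∧ (∀ t < p, ∀ t' < p, e t = e t' → t = t') ∧
      β / 2 ^ (P + 1) * N ≤ (Ω.filter fun ω => ∀ t < p, ω ∈ S (e t)).card := by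
  have h1 := dense_part Ω (range P) (fun ω t => ω ∈ S t) (c := 1) (N := P) hβ.le zero_le_one
    (by exact_mod_cast hP0) hΩ (by simp) (by simp) fun t ht => by
      obtain ⟨h2, h3⟩ := hS t (mem_range.1 ht)
      refine h3.trans (Nat.cast_le.2 (card_le_card fun ω hω => ?_))
      simp only [mem_filter]
      exact ⟨h2 hω, hω⟩
  obtain ⟨J, hJ, h2⟩ := exists_le_card_fiber_of_nsmul_le_card_of_maps_to
    (t := (range P).powerset) (f := fun ω => (range P).filter fun t => ω ∈ S t)
    (b := β / 2 ^ (P + 1) * N) (fun ω _ => mem_powerset.2 (filter_subset _ _))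
    (powerset_nonempty _) (le_trans (le_of_eq (by
      rw [card_powerset, card_range, nsmul_eq_mul]
      push_cast
      field_simp
      ring)) h1)
  have h3 : 0 < β / 2 ^ (P + 1) * N := by positivity
  obtain ⟨ω₀, h4⟩ := card_pos.1 (Nat.cast_pos.1 (h3.trans_le h2))
  have h5 : p ≤ J.card := by
    obtain ⟨h5, h6⟩ := mem_filter.1 h4
    have h7 := (mem_filter.1 h5).2
    have h8 : (p : ℝ) ≤ β * 1 / 2 * P := by linarith
    rw [← h6]
    convert Nat.cast_le.1 (h8.trans h7)
  have hm : ∀ t < p, (if h : t < J.card then J.orderEmbOfFin rfl ⟨t, h⟩ else 0) ∈ J := by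
    intro t ht
    rw [dif_pos (ht.trans_le h5)]
    exact orderEmbOfFin_mem _ _ _
  refine ⟨fun t => if h : t < J.card then J.orderEmbOfFin rfl ⟨t, h⟩ else 0,
    fun t ht => mem_range.1 (mem_powerset.1 hJ (hm t ht)), fun t ht t' ht' h => ?_,
    h2.trans (Nat.cast_le.2 (card_le_card fun ω hω => ?_))⟩
  · simp only [dif_pos (ht.trans_le h5), dif_pos (ht'.trans_le h5)] at h
    exact congrArg Fin.val ((J.orderEmbOfFin rfl).injective h)
  · obtain ⟨h6, h7⟩ := mem_filter.1 hω
    refine mem_filter.2 ⟨(mem_filter.1 h6).1, fun t ht => ?_⟩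
    exact (mem_filter.1 (h7.symm.subset (hm t ht))).2

theorem core_sub {α : Type} (A : Finset α) (Γ : α → α → Prop) (hΓ : ∀ x y, Γ x y → Γ y x)
    {γ D : ℝ} (hγ : 0 < γ) (hD : 0 < D) (hA : (A.card : ℝ) ≤ D)
    (h : γ * D ^ 2 ≤ ((A ×ˢ A).filter fun y => Γ y.1 y.2).card) :
    ∃ U ⊆ A, U.Nonempty ∧ ∀ u ∈ U, γ / 2 * D ≤ (U.filter (Γ u)).card := by
  let f : Finset α → ℝ := fun U => ((U ×ˢ U).filter fun y => Γ y.1 y.2).card - γ * D * U.card
  have hne : A.Nonempty := by
    obtain ⟨y, hy⟩ := card_pos.1 (Nat.cast_pos.1 ((by positivity : 0 < γ * D ^ 2).trans_le h))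
    exact ⟨y.1, (mem_product.1 (mem_filter.1 hy).1).1⟩
  have hAm : A ∈ A.powerset.filter Finset.Nonempty := mem_filter.2 ⟨mem_powerset_self A, hne⟩
  obtain ⟨U, hU, hmax⟩ := exists_max_image (A.powerset.filter Finset.Nonempty) f ⟨A, hAm⟩
  obtain ⟨h1, h2⟩ := mem_filter.1 hU
  refine ⟨U, mem_powerset.1 h1, h2, fun u hu => ?_⟩
  have h3 : f (U.erase u) ≤ f U := by
    rcases (U.erase u).eq_empty_or_nonempty with h4 | h4
    · have h5 : γ * D * A.card ≤ γ * D * D := by gcongr
      have h6 := hmax A hAm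
      rw [h4]
      simp only [f] at h6 ⊢
      simp only [empty_product, filter_empty, card_empty, Nat.cast_zero]
      linarith
    · exact hmax _ (mem_filter.2
        ⟨mem_powerset.2 ((erase_subset u U).trans (mem_powerset.1 h1)), h4⟩)
  have h4 : ((U ×ˢ U).filter fun y => Γ y.1 y.2) ⊆
      ((U.erase u ×ˢ U.erase u).filter fun y => Γ y.1 y.2) ∪
        ((U.filter (Γ u)).image (fun v => (u, v)) ∪ (U.filter (Γ u)).image fun v => (v, u)) := by
    rintro ⟨a, b⟩ hy
    obtain ⟨h5, h6⟩ := mem_filter.1 hy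
    obtain ⟨h7, h8⟩ := mem_product.1 h5
    by_cases ha : a = u
    · subst ha
      exact mem_union_right _ (mem_union_left _ (mem_image.2 ⟨b, mem_filter.2 ⟨h8, h6⟩, rfl⟩))
    by_cases hb : b = u
    · subst hb
      exact mem_union_right _
        (mem_union_right _ (mem_image.2 ⟨a, mem_filter.2 ⟨h7, hΓ _ _ h6⟩, rfl⟩))
    exact mem_union_left _
      (mem_filter.2 ⟨mem_product.2 ⟨mem_erase.2 ⟨ha, h7⟩, mem_erase.2 ⟨hb, h8⟩⟩, h6⟩)
  have h5 := (card_le_card h4).trans ((card_union_le _ _).trans (Nat.add_le_add_left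
    ((card_union_le _ _).trans (Nat.add_le_add card_image_le card_image_le)) _))
  have h6 : (((U ×ˢ U).filter fun y => Γ y.1 y.2).card : ℝ) ≤
      ((U.erase u ×ˢ U.erase u).filter fun y => Γ y.1 y.2).card +
        ((U.filter (Γ u)).card + (U.filter (Γ u)).card) := by exact_mod_cast h5
  have h7 : (U.card : ℝ) = (U.erase u).card + 1 := by exact_mod_cast (card_erase_add_one hu).symm
  simp only [f, h7] at h3
  linarith

omit [Fintype V] in
theorem chain {σ β : Type} [Nonempty β] (I : ℕ → σ → Prop) (R : ℕ → σ → β → σ → Prop)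
    (us : ℕ → β → Finset V) (b N : ℕ) (Z : Finset V) (hus : ∀ g x, (us g x).card ≤ b)
    (s₀ : σ) (h₀ : I 0 s₀)
    (step : ∀ g < N, ∀ s, I g s → ∀ Q : Finset V, Z ⊆ Q → Q.card ≤ Z.card + N * b →
      ∃ x s', Disjoint (us g x) Q ∧ I (g + 1) s' ∧ R g s x s') :
    ∃ (x : ℕ → β) (s : ℕ → σ), s 0 = s₀ ∧ (∀ g ≤ N, I g (s g)) ∧
      (∀ g < N, R g (s g) (x g) (s (g + 1)) ∧ Disjoint (us g (x g)) Z) ∧
      ∀ g < N, ∀ g' < N, g ≠ g' → Disjoint (us g (x g)) (us g' (x g')) := by
  suffices H : ∀ n ≤ N, ∃ (x : ℕ → β) (s : ℕ → σ), s 0 = s₀ ∧ (∀ g ≤ n, I g (s g)) ∧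
      (∀ g < n, R g (s g) (x g) (s (g + 1)) ∧ Disjoint (us g (x g)) Z) ∧
      ∀ g < n, ∀ g' < g, Disjoint (us g (x g)) (us g' (x g')) by
    obtain ⟨x, s, h1, h2, h3, h4⟩ := H N le_rfl
    refine ⟨x, s, h1, h2, h3, fun g hg g' hg' h => ?_⟩
    rcases lt_or_gt_of_ne h with h5 | h5
    · exact (h4 g' hg' g h5).symm
    · exact h4 g hg g' h5
  intro n
  induction n with
  | zero =>
    exact fun _ => ⟨fun _ => Classical.arbitrary β, fun _ => s₀, rfl,
      fun g hg => Nat.le_zero.1 hg ▸ h₀, fun g hg => absurd hg g.not_lt_zero,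
      fun g hg => absurd hg g.not_lt_zero⟩
  | succ n ih =>
    intro hn
    obtain ⟨x, s, h1, h2, h3, h4⟩ := ih (by omega)
    obtain ⟨y, t, g1, g2, g3⟩ := step n hn (s n) (h2 n le_rfl)
      (Z ∪ (range n).biUnion fun g => us g (x g)) subset_union_left
      ((card_union_le _ _).trans (Nat.add_le_add_left
        ((card_biUnion_le_card_mul _ _ b fun g _ => hus g _).trans
          (Nat.mul_le_mul_right b (by rw [card_range]; omega))) _))
    rw [disjoint_union_right, disjoint_biUnion_right] at g1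
    refine ⟨Function.update x n y, Function.update s (n + 1) t, ?_, fun g hg => ?_,
      fun g hg => ?_, fun g hg g' hg' => ?_⟩
    · rw [Function.update_of_ne (by omega), h1]
    · rcases eq_or_lt_of_le hg with rfl | h5
      · rwa [Function.update_self]
      · rw [Function.update_of_ne h5.ne]
        exact h2 g (by omega)
    · rw [Function.update_of_ne hg.ne]
      rcases eq_or_lt_of_le (Nat.lt_succ_iff.1 hg) with rfl | h5
      · rw [Function.update_self, Function.update_self]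
        exact ⟨g3, g1.1⟩
      · rw [Function.update_of_ne h5.ne, Function.update_of_ne (by omega)]
        exact h3 g h5
    · rw [Function.update_of_ne (show g' ≠ n by omega)]
      rcases eq_or_lt_of_le (Nat.lt_succ_iff.1 hg) with rfl | h5
      · rw [Function.update_self]
        exact g1.2 g' (mem_range.2 hg')
      · rw [Function.update_of_ne h5.ne]
        exact h4 g h5 g' hg'

end Pool.Agent.Lib.MP_befe0b_co.BC
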