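import Pool.Agent.Lib.MP_befe0b_co.BC.Count
import Pool.Agent.Lib.MP_befe0b_co.BC.Select

/-! Complete bipartite pieces and blocks. -/

open Finset
open scoped Classical

noncomputable section

namespace Pool.Agent.Lib.MP_befe0b_co.BC

variable {V : Type} [Fintype V] {G : SimpleGraph V}

theorem Kst_count (A : Finset V) (j : ℕ) :
    (A.card - j) ^ j ≤ ((Fintype.piFinset fun _ : Fin j => A).filter Function.Injective).card := by
  have h1 : (A.card - j) ^ j ≤ (univ : Finset (Fin j ↪ A)).card := by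
    rw [card_univ, Fintype.card_embedding_eq, Fintype.card_coe, Fintype.card_fin]
    exact le_trans (Nat.pow_le_pow_left (by omega) _) (Nat.pow_sub_le_descFactorial _ _)
  refine h1.trans (card_le_card_of_injOn (fun e i => (e i : V)) (fun e _ => ?_) fun e _ e' _ h => ?_)
  · simp only [coe_filter, Fintype.mem_piFinset, Set.mem_ofPred_eq]
    exact ⟨fun i => (e i).2, Subtype.val_injective.comp e.injective⟩
  · exact DFunLike.ext _ _ fun i => Subtype.ext (congrFun h i)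

theorem kst (W B Z : Finset V) (j m : ℕ) (hj : 1 ≤ j) {E : ℝ}
    (hE : E ≤ ∑ s ∈ W, (dg G B s : ℝ)) (h1 : 2 * (Z.card + j) * W.card ≤ E)
    (h2 : m * 2 ^ j * (W.card : ℝ) ^ (j - 1) * (B.card : ℝ) ^ j < E ^ j) (hE0 : 0 < E) :
    Goal G 1 (fun _ => j) (fun c => c 0 ∈ W) m Z := by
  obtain ⟨i, rfl⟩ : ∃ i, j = i + 1 := ⟨j - 1, by omega⟩
  rw [Nat.add_sub_cancel] at h2
  let T := (Fintype.piFinset fun _ : Fin (i + 1) => B \ Z).filter Function.Injective
  have hT : T.card ≤ B.card ^ (i + 1) :=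
    (card_filter_le _ _).trans (by
      rw [Fintype.card_piFinset, prod_const, card_univ, Fintype.card_fin]
      exact Nat.pow_le_pow_left (card_le_card sdiff_subset) _)
  have key : ∃ τ ∈ T, m < (W.filter fun s => ∀ l, G.Adj s (τ l)).card := by
    by_contra hc
    simp only [not_exists, not_and, not_lt] at hc
    let x : V → ℕ := fun s => dg G B s - (Z.card + (i + 1))
    have a1 : ∀ s, x s ^ (i + 1) ≤ (T.filter fun τ => ∀ l, G.Adj s (τ l)).card := by
      intro s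
      have b1 : dg G B s ≤ (B.filter (G.Adj s) \ Z).card + Z.card := card_le_card_sdiff_add_card
      refine le_trans (Nat.pow_le_pow_left (by simp only [x]; omega) _)
        ((Kst_count (B.filter (G.Adj s) \ Z) (i + 1)).trans (card_le_card fun τ hτ => ?_))
      simp only [T, mem_filter, Fintype.mem_piFinset, mem_sdiff] at hτ ⊢
      exact ⟨⟨fun l => ⟨(hτ.1 l).1.1, (hτ.1 l).2⟩, hτ.2⟩, fun l => (hτ.1 l).1.2⟩
    have a2 : ∑ s ∈ W, (T.filter fun τ => ∀ l, G.Adj s (τ l)).card =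
        ∑ τ ∈ T, (W.filter fun s => ∀ l, G.Adj s (τ l)).card := by
      simp only [card_filter]
      exact sum_comm
    have a3 : ∑ s ∈ W, x s ^ (i + 1) ≤ m * B.card ^ (i + 1) := by
      refine (sum_le_sum fun s _ => a1 s).trans (a2.trans_le ?_)
      refine (sum_le_card_nsmul _ _ m hc).trans ?_
      rw [smul_eq_mul, mul_comm]
      exact Nat.mul_le_mul_left m hT
    have a4 : (∑ s ∈ W, x s) ^ (i + 1) ≤ W.card ^ i * (m * B.card ^ (i + 1)) :=
      (pow_sum_le_card_mul_sum_pow (fun s _ => Nat.zero_le (x s)) i).trans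
        (Nat.mul_le_mul_left _ a3)
    have a5 : ∑ s ∈ W, dg G B s ≤ ∑ s ∈ W, x s + (Z.card + (i + 1)) * W.card := by
      rw [mul_comm, ← smul_eq_mul, ← sum_const, ← sum_add_distrib]
      exact sum_le_sum fun s _ => by simp only [x]; omega
    have a6 : (∑ s ∈ W, (dg G B s : ℝ)) ≤
        ((∑ s ∈ W, x s : ℕ) : ℝ) + (Z.card + ((i + 1 : ℕ) : ℝ)) * W.card := by
      exact_mod_cast a5
    have a7 : E ≤ 2 * ((∑ s ∈ W, x s : ℕ) : ℝ) := by linarith
    have a8 : (((∑ s ∈ W, x s : ℕ) : ℝ)) ^ (i + 1) ≤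
        (W.card : ℝ) ^ i * (m * (B.card : ℝ) ^ (i + 1)) := by
      exact_mod_cast a4
    have a9 := pow_le_pow_left₀ hE0.le a7 (i + 1)
    rw [mul_pow] at a9
    have a10 := mul_le_mul_of_nonneg_left a8 (by positivity : (0 : ℝ) ≤ 2 ^ (i + 1))
    linarith
  obtain ⟨τ, hτ, hm⟩ := key
  simp only [T, mem_filter, Fintype.mem_piFinset, mem_sdiff] at hτ
  refine ⟨fun _ l => if h : l < i + 1 then τ ⟨l, h⟩ else τ 0, ?_, ?_, fun Q hQ => ?_⟩
  · intro s hs l hl s' hs' l' hl' e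
    simp only [dif_pos hl, dif_pos hl'] at e
    exact ⟨by omega, congrArg Fin.val (hτ.2 e)⟩
  · intro s _ l hl
    simp only [dif_pos hl]
    exact (hτ.1 _).2
  · obtain ⟨v, hv, hq⟩ := exists_mem_notMem_of_card_lt_card (hQ.trans_lt hm)
    rw [mem_filter] at hv
    refine ⟨fun _ => v, ⟨fun s hs => by omega, fun s _ l hl => ?_,
      fun s hs s' hs' _ => by omega, hv.1⟩, fun _ _ => hq⟩
    simp only [dif_pos hl]
    exact hv.2 _

theorem Goal.blk {k m : ℕ} {κ : ℕ → ℕ} {Ok : (ℕ → V) → Prop} {Z : Finset V}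
    (h : Goal G k κ Ok m Z) (o P : ℕ) (ho : ∀ s < k, κ s ≤ o) (hm : Z.card + k * (o + P) ≤ m) :
    ∃ φ, Blk G k κ Ok o P Z φ := by
  obtain ⟨w, h1, h2, h3⟩ := h
  have : Nonempty (ℕ → V) := ⟨w 0⟩
  let R : Finset V := ((range k ×ˢ range o).filter fun x => x.2 < κ x.1).image fun x => w x.1 x.2
  have hR : R.card ≤ k * o := card_image_le.trans ((card_filter_le _ _).trans (by simp))
  have hR' : ∀ s < k, ∀ l < κ s, w s l ∈ R := fun s hs l hl =>
    mem_image.2 ⟨(s, l), mem_filter.2 ⟨mem_product.2 ⟨mem_range.2 hs,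
      mem_range.2 (hl.trans_le (ho s hs))⟩, hl⟩, rfl⟩
  obtain ⟨col, -, -, -, c1, c2⟩ := chain (σ := Unit) (β := ℕ → V) (fun _ _ => True)
    (fun _ _ x _ => Sp G k κ Ok w x) (fun _ x => (range k).image x) k P (Z ∪ R)
    (fun _ _ => card_image_le.trans (card_range k).le) () trivial (by
      intro g _ _ _ Q _ hQ
      have := card_union_le Z R
      obtain ⟨c, hc, hq⟩ := h3 Q (by nlinarith)
      refine ⟨c, (), disjoint_left.2 fun v hv => ?_, trivial, hc⟩
      obtain ⟨s, hs, rfl⟩ := mem_image.1 hv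
      exact hq s (mem_range.1 hs))
  have mem : ∀ g, ∀ s < k, col g s ∈ (range k).image (col g) := fun g s hs =>
    mem_image_of_mem _ (mem_range.2 hs)
  have av : ∀ g < P, ∀ s < k, col g s ∉ Z ∪ R := fun g hg s hs =>
    disjoint_left.1 (c1 g hg).2 (mem g s hs)
  refine ⟨fun x => if x.2 < o then w x.1 x.2 else col (x.2 - o) x.1, ?_, ?_, fun t ht => ?_⟩
  · rintro ⟨s, l⟩ hx ⟨s', l'⟩ hy e
    obtain ⟨x1, x2, x3⟩ := mem_Ix.1 (mem_coe.1 hx)
    obtain ⟨y1, y2, y3⟩ := mem_Ix.1 (mem_coe.1 hy)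
    simp only at x1 x2 x3 y1 y2 y3 e
    by_cases a : l < o <;> by_cases b : l' < o
    · rw [if_pos a, if_pos b] at e
      obtain ⟨rfl, rfl⟩ := h1 s x1 l (by omega) s' y1 l' (by omega) e
      rfl
    · rw [if_pos a, if_neg b] at e
      exact absurd (mem_union_right Z (e ▸ hR' s x1 l (by omega))) (av _ (by omega) s' y1)
    · rw [if_neg a, if_pos b] at e
      exact absurd (mem_union_right Z (e.symm ▸ hR' s' y1 l' (by omega))) (av _ (by omega) s x1)
    · rw [if_neg a, if_neg b] at e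
      by_cases c : l - o = l' - o
      · rw [← c] at e
        have := (c1 (l - o) (by omega)).1.inj s x1 s' y1 e
        exact Prod.ext this (by simp only; omega)
      · exact absurd (e ▸ mem (l' - o) s' y1)
          (disjoint_left.1 (c2 _ (by omega) _ (by omega) c) (mem (l - o) s x1))
  · rintro ⟨s, l⟩ hx
    obtain ⟨x1, x2, x3⟩ := mem_Ix.1 hx
    simp only at x1 x2 x3 ⊢
    by_cases a : l < o
    · rw [if_pos a]
      exact h2 s x1 l (by omega)
    · rw [if_neg a]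
      exact fun hz => av _ (by omega) s x1 (mem_union_left R hz)
  · have hs := (c1 t ht).1
    simp only [Nat.add_sub_cancel_left, if_neg (Nat.not_lt.2 (Nat.le_add_right o t))]
    refine ⟨hs.path, fun s h l hl => ?_, hs.inj, hs.ok⟩
    rw [if_pos (hl.trans_le (ho s h))]
    exact hs.leg s h l hl

omit [Fintype V] in
theorem Kst_reindex {k o P p : ℕ} {κ : ℕ → ℕ} {Ok : (ℕ → V) → Prop} {Z : Finset V}
    {φ : ℕ × ℕ → V} (h : Blk G k κ Ok o P Z φ) (ho : ∀ s < k, κ s ≤ o) (e : ℕ → ℕ)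
    (e1 : ∀ t < p, e t < P) (e2 : ∀ t < p, ∀ t' < p, e t = e t' → t = t') :
    Blk G k κ Ok o p Z fun x => φ (x.1, if x.2 < o then x.2 else o + e (x.2 - o)) := by
  have mp : ∀ x ∈ Ix k κ o p, (x.1, if x.2 < o then x.2 else o + e (x.2 - o)) ∈ Ix k κ o P := by
    intro x hx
    obtain ⟨x1, x2, x3⟩ := mem_Ix.1 hx
    refine mem_Ix.2 ⟨x1, ?_⟩
    by_cases a : x.2 < o
    · simp only [if_pos a]
      omega
    · have := e1 (x.2 - o) (by omega)
      simp only [if_neg a]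
      omega
  refine ⟨fun x hx y hy q => ?_, fun x hx => h.av _ (mp x hx), fun t ht => ?_⟩
  · have q' := h.inj (mem_coe.2 (mp x hx)) (mem_coe.2 (mp y hy)) q
    obtain ⟨-, x2, -⟩ := mem_Ix.1 (mem_coe.1 hx)
    obtain ⟨-, y2, -⟩ := mem_Ix.1 (mem_coe.1 hy)
    rw [Prod.mk.injEq] at q'
    refine Prod.ext q'.1 ?_
    have q2 := q'.2
    split_ifs at q2 with a b b
    · exact q2
    · omega
    · omega
    · have := e2 (x.2 - o) (by omega) (y.2 - o) (by omega) (by omega)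
      omega
  · have hs := h.sp (e t) (e1 t ht)
    simp only [Nat.add_sub_cancel_left, if_neg (Nat.not_lt.2 (Nat.le_add_right o t))]
    refine ⟨hs.path, fun s h l hl => ?_, hs.inj, hs.ok⟩
    rw [if_pos (hl.trans_le (ho s h))]
    exact hs.leg s h l hl

theorem Goal.step {α : Type} {k m : ℕ} {κ : ℕ → ℕ} {Ok : (ℕ → V) → Prop} {Z : Finset V}
    (h : Goal G k κ Ok m Z) (o P p : ℕ) (ho : ∀ s < k, κ s ≤ o) (hm : Z.card + k * (o + P) ≤ m)
    (Ω : Finset α) {β N : ℝ} (S : (ℕ → V) → Finset α) (hβ : 0 < β) (hP0 : 0 < P)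
    (hP : 2 * p ≤ β * P) (hN : 0 < N) (hΩ : (Ω.card : ℝ) ≤ N)
    (hS : ∀ c, Ok c → S c ⊆ Ω ∧ β * N ≤ (S c).card) :
    ∃ φ, Blk G k κ Ok o p Z φ ∧ β / 2 ^ (P + 1) * N ≤
      (Ω.filter fun ω => ∀ t < p, ω ∈ S fun s => φ (s, o + t)).card := by
  obtain ⟨φ, hφ⟩ := h.blk o P ho hm
  obtain ⟨e, e1, e2, e3⟩ := inter_select Ω P p (fun t => S fun s => φ (s, o + t)) hβ hP0 hP hN hΩ
    fun t ht => hS _ (hφ.sp t ht).ok
  refine ⟨fun x => φ (x.1, if x.2 < o then x.2 else o + e (x.2 - o)),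
    Kst_reindex hφ ho e e1 e2, ?_⟩
  simpa only [Nat.add_sub_cancel_left, Nat.not_lt.2 (Nat.le_add_right o _), if_false] using e3

theorem Blk.contained {k o p : ℕ} {κ : ℕ → ℕ} {Ok : (ℕ → V) → Prop} {Z : Finset V}
    {φ : ℕ × ℕ → V} (h : Blk G k κ Ok o p Z φ) (ho : ∀ s < k, κ s ≤ o) :
    (pw k p κ).IsContained G := by
  let ρ : (Fin p × Fin k) ⊕ (Σ s : Fin k, Fin (κ s)) → ℕ × ℕ :=
    Sum.elim (fun x => (x.2, o + x.1)) fun x => (x.1, x.2)
  have mp : ∀ x, ρ x ∈ Ix k κ o p := by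
    rintro (⟨t, s⟩ | ⟨s, l⟩)
    · exact mem_Ix.2 ⟨s.2, Nat.add_lt_add_left t.2 o, Or.inr (Nat.le_add_right _ _)⟩
    · exact mem_Ix.2 ⟨s.2, (l.2.trans_le (ho s s.2)).trans_le (Nat.le_add_right _ _), Or.inl l.2⟩
  have ij : Function.Injective ρ := by
    rintro (⟨t, s⟩ | ⟨s, l⟩) (⟨t', s'⟩ | ⟨s', l'⟩) e <;>
      simp only [ρ, Sum.elim_inl, Sum.elim_inr, Prod.mk.injEq] at e
    · obtain rfl : s = s' := Fin.ext e.1
      obtain rfl : t = t' := Fin.ext (by omega)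
      rfl
    · have := l'.2
      have := ho s' s'.2
      omega
    · have := l.2
      have := ho s s.2
      omega
    · obtain rfl : s = s' := Fin.ext e.1
      obtain rfl : l = l' := Fin.ext e.2
      rfl
  have ad : ∀ x y : (Fin p × Fin k) ⊕ (Σ s : Fin k, Fin (κ s)),
      ((∃ t s s', x = .inl (t, s) ∧ y = .inl (t, s') ∧ s.val + 1 = s'.val) ∨
        ∃ t s l, x = .inl (t, s) ∧ y = .inr ⟨s, l⟩) → G.Adj (φ (ρ x)) (φ (ρ y)) := by
    rintro x y (⟨t, s, s', rfl, rfl, e⟩ | ⟨t, s, l, rfl, rfl⟩)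
    · have := (h.sp t t.2).path s (e ▸ s'.2)
      rwa [e] at this
    · exact (h.sp t t.2).leg s s.2 l l.2
  refine ⟨⟨⟨fun x => φ (ρ x), fun {x y} hxy => ?_⟩,
    fun x y e => ij (h.inj (mem_coe.2 (mp x)) (mem_coe.2 (mp y)) e)⟩⟩
  obtain ⟨-, a | a⟩ := (SimpleGraph.fromRel_adj _ x y).1 hxy
  · exact ad x y a
  · exact (ad y x a).symm

end Pool.Agent.Lib.MP_befe0b_co.BC
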