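import Pool.Agent.Lib.MP_befe0b_co.BC.LbDefs

/-! A square system has boundedly many nonsingular zeros. -/

open Finset MvPolynomial
open scoped Classical

noncomputable section

namespace Pool.Agent.Lib.MP_befe0b_co.BC

theorem lbBez_rel {F τ κ : Type} [Field F] [Fintype τ] [DecidableEq τ] [Fintype κ]
    (w : κ → MvPolynomial τ F) {m : ℕ} (hw : ∀ k, (w k).totalDegree ≤ m)
    (hc : (m + 1) ^ Fintype.card τ < Fintype.card κ) :
    ∃ a : κ → F, a ≠ 0 ∧ ∑ k, a k • w k = 0 := by
  let L : (κ → F) →ₗ[F] ((τ → Fin (m + 1)) → F) := LinearMap.pi fun β =>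
    (lcoeff F (Finsupp.equivFunOnFinite.symm fun i => (β i : ℕ))).comp
      (Fintype.linearCombination F w)
  obtain ⟨a, ha, h0⟩ := (Submodule.ne_bot_iff _).1
    (LinearMap.ker_ne_bot_of_finrank_lt (f := L) (by simpa using hc))
  refine ⟨a, h0, ?_⟩
  have hd : (∑ k, a k • w k).totalDegree ≤ m :=
    totalDegree_finsetSum_le fun k _ => (totalDegree_smul_le _ _).trans (hw k)
  ext β
  by_contra hβ
  have h1 : ∀ i, β i < m + 1 := fun i => Nat.lt_succ_of_le
    (((monomial_le_degreeOf i (mem_support_iff.2 hβ)).trans (degreeOf_le_totalDegree _ i)).trans hd)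
  have h2 := congrFun (LinearMap.mem_ker.1 ha) fun i => ⟨β i, h1 i⟩
  apply hβ
  simpa [L, Fintype.linearCombination_apply, coeff_sum] using h2

theorem lbBez_jet {F τ : Type} [Field F] [Fintype τ] [DecidableEq τ] (x : τ → F)
    (L : τ → MvPolynomial τ F) (p : MvPolynomial τ F) :
    (eval₂Hom (Polynomial.C.comp C)
        (fun j => Polynomial.C (C (x j)) + Polynomial.C (L j) * Polynomial.X) p).coeff 0 =
      C (eval x p) ∧
    (eval₂Hom (Polynomial.C.comp C)
        (fun j => Polynomial.C (C (x j)) + Polynomial.C (L j) * Polynomial.X) p).coeff 1 =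
      ∑ j, C (eval x (pderiv j p)) * L j := by
  induction p using MvPolynomial.induction_on with
  | C a => simp [Polynomial.coeff_C]
  | add p q hp hq =>
    rw [map_add, Polynomial.coeff_add, Polynomial.coeff_add, hp.1, hp.2, hq.1, hq.2]
    simp [add_mul, sum_add_distrib]
  | mul_X p i hp =>
    rw [map_mul, eval₂Hom_X']
    refine ⟨by rw [Polynomial.mul_coeff_zero, hp.1]; simp, ?_⟩
    rw [mul_add, Polynomial.coeff_add, Polynomial.coeff_mul_C, ← mul_assoc,
      Polynomial.coeff_mul_X, Polynomial.coeff_mul_C, hp.1, hp.2, sum_mul]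
    have h : ∀ j, C (eval x (pderiv j (p * X i))) * L j =
        C (eval x (pderiv j p)) * L j * C (x i) +
          if j = i then C (eval x p) * L i else 0 := by
      intro j
      rw [Derivation.leibniz, pderiv_X]
      by_cases h : j = i
      · subst h
        simp
        ring
      · simp [h]
        ring
    simp only [h, sum_add_distrib, sum_ite_eq', mem_univ, if_true]

theorem lbBez_root {F τ : Type} [Field F] [Fintype τ] [DecidableEq τ] {T : ℕ}
    (g : τ → MvPolynomial τ F) (ψ : (τ → Fin T) → MvPolynomial τ F)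
    (h : ∑ α, ψ α * ∏ i, g i ^ (α i : ℕ) = 0) (α₀ : τ → Fin T)
    (hmin : ∀ α, ∑ i, (α i : ℕ) < ∑ i, (α₀ i : ℕ) → ψ α = 0) (x : τ → F)
    (h0 : ∀ i, eval x (g i) = 0)
    (hJ : (Matrix.of fun i j => eval x (pderiv j (g i))).det ≠ 0) : eval x (ψ α₀) = 0 := by
  set J : Matrix τ τ F := Matrix.of fun i j => eval x (pderiv j (g i)) with hJdef
  let L : τ → MvPolynomial τ F := fun j => ∑ k, C (J⁻¹ j k) * X k
  set φ := eval₂Hom (Polynomial.C.comp (C : F →+* MvPolynomial τ F))
    (fun j => Polynomial.C (C (x j)) + Polynomial.C (L j) * Polynomial.X) with hφ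
  have hg : ∀ i, φ (g i) = Polynomial.X * (φ (g i)).divX := by
    intro i
    have h1 : (φ (g i)).coeff 0 = 0 := by rw [(lbBez_jet x L (g i)).1, h0, C_0]
    have := Polynomial.X_mul_divX_add (φ (g i))
    rw [h1, Polynomial.C_0, add_zero] at this
    exact this.symm
  have hr : ∀ i, (φ (g i)).divX.coeff 0 = X i := by
    intro i
    rw [Polynomial.coeff_divX, zero_add, (lbBez_jet x L (g i)).2]
    have h1 : ∀ k, ∑ j, J i j * J⁻¹ j k = if i = k then 1 else 0 := fun k => by
      rw [← Matrix.mul_apply, Matrix.mul_nonsing_inv _ (Ne.isUnit hJ), Matrix.one_apply]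
    have h2 : ∑ j, C (eval x (pderiv j (g i))) * L j = ∑ k, C (∑ j, J i j * J⁻¹ j k) * X k := by
      simp only [L, mul_sum, map_sum, sum_mul, map_mul]
      rw [sum_comm]
      exact sum_congr rfl fun k _ => sum_congr rfl fun j _ => by rw [mul_assoc]; rfl
    rw [h2]
    simp [h1, apply_ite]
  have h1 := congrArg (fun p => (φ p).coeff (∑ i, (α₀ i : ℕ))) h
  simp only [map_sum, map_zero, Polynomial.coeff_zero, Polynomial.finsetSum_coeff] at h1
  have h2 : ∀ α : τ → Fin T, (φ (ψ α * ∏ i, g i ^ (α i : ℕ))).coeff (∑ i, (α₀ i : ℕ)) =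
      if ∑ i, (α i : ℕ) = ∑ i, (α₀ i : ℕ) then
        monomial (Finsupp.equivFunOnFinite.symm fun i => (α i : ℕ)) (eval x (ψ α)) else 0 := by
    intro α
    have e : φ (ψ α * ∏ i, g i ^ (α i : ℕ)) =
        (φ (ψ α) * ∏ i, (φ (g i)).divX ^ (α i : ℕ)) * Polynomial.X ^ ∑ i, (α i : ℕ) := by
      rw [map_mul, map_prod, mul_assoc, ← prod_pow_eq_pow_sum, ← prod_mul_distrib]
      refine congrArg _ (prod_congr rfl fun i _ => ?_)
      rw [map_pow, ← mul_pow, mul_comm, ← hg]
    rcases lt_trichotomy (∑ i, (α i : ℕ)) (∑ i, (α₀ i : ℕ)) with hl | hl | hl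
    · rw [hmin α hl, if_neg hl.ne]
      simp
    · rw [e, if_pos hl, hl, Polynomial.coeff_mul_X_pow', if_pos le_rfl, Nat.sub_self,
        Polynomial.mul_coeff_zero, (lbBez_jet x L (ψ α)).1, Polynomial.coeff_zero_prod,
        monomial_eq, Finsupp.prod_fintype _ _ (by simp)]
      refine congrArg _ (prod_congr rfl fun i _ => ?_)
      rw [Polynomial.coeff_zero_eq_eval_zero, Polynomial.eval_pow,
        ← Polynomial.coeff_zero_eq_eval_zero, hr]
      simp
    · rw [e, if_neg hl.ne', Polynomial.coeff_mul_X_pow', if_neg (not_le.2 hl)]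
  simp only [h2] at h1
  have h3 := congrArg (coeff (Finsupp.equivFunOnFinite.symm fun i => (α₀ i : ℕ))) h1
  rw [coeff_sum, sum_eq_single α₀, if_pos rfl, coeff_monomial, if_pos rfl, coeff_zero] at h3
  · exact h3
  · intro α _ hα
    split_ifs
    · rw [coeff_monomial, if_neg]
      intro e
      exact hα (funext fun i => Fin.ext (congrFun (Finsupp.equivFunOnFinite.symm.injective e) i))
    · exact coeff_zero _
  · simp

theorem nonsing (N D : ℕ) : ∃ C : ℕ, ∀ (F : Type) [Field F] (τ : Type) [Fintype τ] [DecidableEq τ],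
    Fintype.card τ ≤ N → ∀ g : τ → MvPolynomial τ F, (∀ i, (g i).totalDegree ≤ D) →
      ∀ X : Finset (τ → F), (∀ x ∈ X, (∀ i, eval x (g i) = 0) ∧
        (Matrix.of fun i j => eval x (pderiv j (g i))).det ≠ 0) → X.card ≤ C := by
  obtain ⟨T, hT⟩ : ∃ T, T = (N * D + 2) ^ N + 1 := ⟨_, rfl⟩
  refine ⟨T ^ N, fun F _ τ _ _ hN g hg S hS => ?_⟩
  have hT0 : 0 < T := by omega
  have key : ∀ c : τ, ∃ R : Finset F, R.card ≤ T ∧ ∀ x ∈ S, x c ∈ R := by
    intro c
    obtain ⟨a, ha, hrel⟩ := lbBez_rel (κ := (τ → Fin T) × Fin T)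
      (fun k => X c ^ (k.2 : ℕ) * ∏ i, g i ^ (k.1 i : ℕ)) (m := (Fintype.card τ * D + 1) * T)
      (fun k => by
        have h1 : (X c ^ (k.2 : ℕ) : MvPolynomial τ F).totalDegree ≤ T := by
          rw [totalDegree_X_pow]
          exact k.2.2.le
        have h2 : (∏ i, g i ^ (k.1 i : ℕ)).totalDegree ≤ ∑ _i : τ, T * D :=
          (totalDegree_finsetProd _ _).trans (sum_le_sum fun i _ =>
            (totalDegree_pow _ _).trans (Nat.mul_le_mul (k.1 i).2.le (hg i)))
        rw [sum_const, card_univ, smul_eq_mul] at h2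
        refine (totalDegree_mul _ _).trans ((add_le_add h1 h2).trans (le_of_eq ?_))
        ring)
      (by
        have h1 : (Fintype.card τ * D + 1) * T + 1 ≤ (N * D + 2) * T := by
          have := Nat.mul_le_mul_right T (Nat.mul_le_mul_right D hN)
          rw [add_mul, add_mul]
          omega
        have h2 : (N * D + 2) ^ Fintype.card τ < T :=
          hT ▸ Nat.lt_succ_of_le (Nat.pow_le_pow_right (by omega) hN)
        rw [Fintype.card_prod, Fintype.card_fun, Fintype.card_fin]
        refine (Nat.pow_le_pow_left h1 _).trans_lt ?_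
        rw [mul_pow, mul_comm]
        exact Nat.mul_lt_mul_of_pos_left h2 (Nat.pow_pos hT0))
    obtain ⟨k₁, hk₁⟩ := Function.ne_iff.1 ha
    obtain ⟨k₀, hk₀, hmin⟩ := exists_min_image (univ.filter fun k => a k ≠ 0)
      (fun k => ∑ i, (k.1 i : ℕ)) ⟨k₁, by simpa using hk₁⟩
    let q : Polynomial F := ∑ j : Fin T, Polynomial.monomial (j : ℕ) (a (k₀.1, j))
    have hq : q ≠ 0 := by
      intro e
      have := congrArg (fun p => p.coeff k₀.2) e
      simp only [q, Polynomial.finsetSum_coeff, Polynomial.coeff_monomial, Fin.val_inj,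
        sum_ite_eq', mem_univ, if_true, Polynomial.coeff_zero] at this
      exact (mem_filter.1 hk₀).2 this
    have hd : q.natDegree ≤ T := Polynomial.natDegree_sum_le_of_forall_le _ _ fun j _ =>
      (Polynomial.natDegree_monomial_le _).trans j.2.le
    refine ⟨q.roots.toFinset, (Multiset.toFinset_card_le _).trans
      ((Polynomial.card_roots' q).trans hd), fun x hx => ?_⟩
    have := lbBez_root g (fun α => ∑ j : Fin T, a (α, j) • X c ^ (j : ℕ)) (by
      rw [← hrel, Fintype.sum_prod_type]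
      exact sum_congr rfl fun α _ => by simp only [sum_mul, smul_mul_assoc]) k₀.1
      (fun α hα => sum_eq_zero fun j _ => by
        by_contra h
        have := hmin (α, j) (mem_filter.2 ⟨mem_univ _, fun e => h (by rw [e, zero_smul])⟩)
        exact absurd hα (not_lt.2 this)) x (hS x hx).1 (hS x hx).2
    rw [Multiset.mem_toFinset, Polynomial.mem_roots hq, Polynomial.IsRoot.def]
    simpa [q, Polynomial.eval_finsetSum, smul_eval] using this
  choose R hR hxR using key
  calc S.card ≤ (Fintype.piFinset R).card :=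
        card_le_card fun x hx => Fintype.mem_piFinset.2 fun c => hxR c x hx
    _ ≤ T ^ Fintype.card τ := by
        rw [Fintype.card_piFinset]
        exact prod_le_pow_card _ _ _ fun c _ => hR c
    _ ≤ T ^ N := Nat.pow_le_pow_right hT0 hN

end Pool.Agent.Lib.MP_befe0b_co.BC
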