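import Pool.Agent.Lib.MP_befe0b_co.BC.LbDefs

/-! Interpolation and substitution. -/

open Finset MvPolynomial
open scoped Classical

noncomputable section

namespace Pool.Agent.Lib.MP_befe0b_co.BC

theorem LbHerm_lin {F σ : Type} [Field F] (s : σ) (a b : F) :
    (C a * (X s - C b) : MvPolynomial σ F).totalDegree ≤ 1 := by
  refine (totalDegree_mul _ _).trans ?_
  rw [totalDegree_C, zero_add]
  refine (totalDegree_sub _ _).trans ?_
  rw [totalDegree_C, totalDegree_X]
  simp

theorem LbHerm_sep {F σ : Type} [Field F] (x y : σ → F) :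
    ∃ L : MvPolynomial σ F, L.totalDegree ≤ 1 ∧ (x ≠ y → eval x L = 1 ∧ eval y L = 0) := by
  by_cases h : x = y
  · exact ⟨0, by simp, fun h' => absurd h h'⟩
  · obtain ⟨s, hs⟩ := Function.ne_iff.1 h
    refine ⟨C (x s - y s)⁻¹ * (X s - C (y s)), LbHerm_lin _ _ _, fun _ => ⟨?_, by simp⟩⟩
    simp only [map_mul, map_sub, eval_C, eval_X]
    exact inv_mul_cancel₀ (sub_ne_zero.2 hs)

theorem LbHerm_delta {F σ ι : Type} [Field F] [Fintype ι] (z : ι → σ → F)
    (hz : Function.Injective z) (i : ι) :
    ∃ P : MvPolynomial σ F, P.totalDegree ≤ Fintype.card ι ∧ eval (z i) P = 1 ∧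
      ∀ j, j ≠ i → eval (z j) P = 0 := by
  choose L hL1 hL2 using fun j => LbHerm_sep (z i) (z j)
  refine ⟨∏ j ∈ univ.erase i, L j, ?_, ?_, fun j hj => ?_⟩
  · refine (totalDegree_finsetProd _ _).trans ?_
    refine (sum_le_card_nsmul _ _ 1 fun j _ => hL1 j).trans ?_
    rw [smul_eq_mul, mul_one]
    exact card_le_univ _
  · rw [map_prod]
    exact prod_eq_one fun j hj => (hL2 j fun h => (ne_of_mem_erase hj) (hz h).symm).1
  · rw [map_prod]
    exact prod_eq_zero (mem_erase.2 ⟨hj, mem_univ _⟩) (hL2 j fun h => hj (hz h).symm).2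

theorem LbHerm_aff {F σ : Type} [Field F] [Fintype σ] (x : σ → F) (v : F) (w : σ → F) :
    ∃ Q : MvPolynomial σ F, Q.totalDegree ≤ 1 ∧ eval x Q = v ∧
      ∀ s, eval x (pderiv s Q) = w s := by
  refine ⟨C v + ∑ s, C (w s) * (X s - C (x s)), ?_, by simp, fun s => ?_⟩
  · refine (totalDegree_add _ _).trans (max_le (by simp) ?_)
    exact totalDegree_finsetSum_le fun s _ => LbHerm_lin _ _ _
  · rw [map_add, pderiv_C, zero_add, map_sum, map_sum, sum_eq_single s]
    · rw [pderiv_C_mul, map_sub, pderiv_C, pderiv_X_self]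
      simp
    · intro t _ ht
      rw [pderiv_C_mul, map_sub, pderiv_C, pderiv_X_of_ne ht]
      simp
    · simp

theorem interp {F σ ι : Type} [Field F] [Fintype σ] [Fintype ι] (z : ι → σ → F)
    (hz : Function.Injective z) (val : ι → F) (gr : ι → σ → F) :
    ∃ g : MvPolynomial σ F, g.totalDegree ≤ 2 * Fintype.card ι + 1 ∧
      ∀ i, eval (z i) g = val i ∧ ∀ s, eval (z i) (pderiv s g) = gr i s := by
  choose P hP1 hP2 hP3 using LbHerm_delta z hz
  choose Q hQ1 hQ2 hQ3 using fun i =>
    LbHerm_aff (z i) (val i) fun s => gr i s - 2 * val i * eval (z i) (pderiv s (P i))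
  refine ⟨∑ i, P i * P i * Q i, totalDegree_finsetSum_le fun i _ => ?_, fun i => ⟨?_, fun s => ?_⟩⟩
  · have h1 := totalDegree_mul (P i * P i) (Q i)
    have h2 := totalDegree_mul (P i) (P i)
    have h3 := hP1 i
    have h4 := hQ1 i
    omega
  · rw [map_sum, sum_eq_single i]
    · simp [hP2, hQ2]
    · intro j _ hj
      simp [hP3 j i hj.symm]
    · simp
  · rw [map_sum, map_sum, sum_eq_single i]
    · simp only [pderiv_mul, map_add, map_mul, hP2, hQ2, hQ3]
      ring
    · intro j _ hj
      simp only [pderiv_mul, map_add, map_mul, hP3 j i hj.symm]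
      ring
    · simp

theorem LbHerm_deg {F σ τ : Type} [Field F] [Fintype σ] (φ : σ → MvPolynomial τ F)
    (hφ : ∀ s, (φ s).totalDegree ≤ 1) (f : MvPolynomial σ F) :
    (aeval φ f).totalDegree ≤ f.totalDegree := by
  rw [aeval_def, eval₂_eq]
  refine totalDegree_finsetSum_le fun d hd => ?_
  refine (totalDegree_mul _ _).trans ?_
  rw [algebraMap_eq, totalDegree_C, zero_add]
  refine (totalDegree_finsetProd _ _).trans (le_trans ?_ (le_totalDegree hd))
  refine sum_le_sum fun s _ => (totalDegree_pow _ _).trans ?_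
  simpa using Nat.mul_le_mul_left (d s) (hφ s)

theorem subst {F σ τ : Type} [Field F] [Fintype σ] (sub : σ → Option τ) (k : σ → F)
    (f : MvPolynomial σ F) : ∃ g : MvPolynomial τ F, g.totalDegree ≤ f.totalDegree ∧
      ∀ (x : τ → F) (z : σ → F), (∀ s, z s = (sub s).elim (k s) x) → eval x g = eval z f ∧
        ∀ c, eval x (pderiv c g) = ∑ s, if sub s = some c then eval z (pderiv s f) else 0 := by
  set φ : σ → MvPolynomial τ F := fun s => (sub s).elim (C (k s)) X with hφ
  refine ⟨aeval φ f, LbHerm_deg φ (fun s => ?_) f, fun x z hz => ?_⟩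
  · rw [hφ]
    rcases h : sub s with _ | c
    · simp [h]
    · simp [h, totalDegree_X]
  have h1 : ∀ s, eval x (φ s) = z s := fun s => by
    rw [hz s, hφ]
    rcases h : sub s with _ | c <;> simp [h]
  have h2 : ∀ s c, eval x (pderiv c (φ s)) = if sub s = some c then 1 else 0 := fun s c => by
    rw [hφ]
    rcases h : sub s with _ | c'
    · simp [h]
    · by_cases hc : c' = c
      · subst hc
        simp [h]
      · simp [h, hc, pderiv_X_of_ne hc]
  induction f using MvPolynomial.induction_on with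
  | C a => simp
  | add p q hp hq =>
    refine ⟨by rw [map_add, map_add, map_add, hp.1, hq.1], fun c => ?_⟩
    rw [map_add, map_add, map_add, hp.2, hq.2, ← sum_add_distrib]
    refine sum_congr rfl fun s _ => ?_
    split_ifs <;> simp
  | mul_X p n hp =>
    refine ⟨by rw [map_mul, map_mul, map_mul, hp.1, aeval_X, h1, eval_X], fun c => ?_⟩
    rw [map_mul, aeval_X, pderiv_mul, map_add, map_mul, map_mul, hp.1, hp.2, h1, h2, sum_mul]
    have h3 : eval z p * (if sub n = some c then (1 : F) else 0) =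
        ∑ s, if s = n then (if sub s = some c then eval z p else 0) else 0 := by
      rw [sum_ite_eq']
      simp
    rw [h3, ← sum_add_distrib]
    refine sum_congr rfl fun s _ => ?_
    rw [pderiv_mul, map_add, map_mul, map_mul, eval_X]
    by_cases hs : s = n
    · subst hs
      rw [pderiv_X_self]
      by_cases hc : sub s = some c <;> simp [hc]
    · rw [pderiv_X_of_ne (Ne.symm hs)]
      by_cases hc : sub s = some c <;> simp [hc, hs]

end Pool.Agent.Lib.MP_befe0b_co.BC
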