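import Pool.Agent.Lib.MP_befe0b_co.BC.LbSun
import Pool.Agent.Lib.MP_befe0b_co.BC.LbBez
import Pool.Agent.Lib.MP_befe0b_co.BC.LbHerm

/-! A good tuple gives few copies on common roots. -/

open Finset MvPolynomial
open scoped Classical

noncomputable section

namespace Pool.Agent.Lib.MP_befe0b_co.BC

theorem no_copies {W : Type} [Fintype W] (T : SimpleGraph W) (R : W → Prop) (a b D t : ℕ) :
    ∃ p : ℕ, ∀ (F : Type) [Field F]
      (μ : (W → Bool) → (S : Finset W) → S × Fin b → (W × W) × Fin a), Mt T R μ →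
      ∀ f : Om (Fin b ⊕ Fin b) F a D, ¬ Bad T R μ t f → ∀ φ : Fin p → T.Copy (Gf f),
        (∀ i j w, R w → φ i w = φ j w) → ¬ Function.Injective φ := by
  obtain ⟨C, hC⟩ := nonsing (b * Fintype.card W) D
  refine ⟨2 ^ Fintype.card W * ((C + t + 1) * Fintype.card W * Fintype.card W + 1) ^
    Fintype.card W + 1, fun F _ μ hμ f hf φ hr hi => hf ?_⟩
  obtain ⟨col, hc⟩ := Fintype.exists_lt_card_fiber_of_mul_lt_card
    (fun i w => (φ i w).isRight) (n := ((C + t + 1) * Fintype.card W * Fintype.card W + 1) ^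
      Fintype.card W) (by simp)
  rw [← card_image_of_injective _ (DFunLike.coe_injective.comp hi)] at hc
  obtain ⟨S, hS, ⟨s0, hs0⟩, v, v1, v2, v3⟩ := sunflower (univ.filter fun w => ¬ R w) _ _ (by
    simp only [mem_image, mem_filter, mem_univ, true_and, not_not]
    rintro _ ⟨i, -, rfl⟩ _ ⟨j, -, rfl⟩ w hw
    exact hr i j w hw) hc
  simp only [mem_image, mem_filter, mem_univ, true_and] at v1
  choose k k1 k2 using v1
  have c1 : ∀ i w, (v i w).isRight = col w := fun i w => by rw [← k1 i, ← k2 i]; rfl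
  have c2 : ∀ i, Function.Injective (v i) := fun i => k2 i ▸ (φ (k i)).injective
  have c3 : ∀ i u w, T.Adj u w → (Gf f).Adj (v i u) (v i w) := fun i u w h =>
    k2 i ▸ (φ (k i)).toHom.map_adj h
  let y : Fin (C + t + 1) → W → Fin b → F := fun i w => (v i w).elim id id
  have y1 : ∀ i j u w, col u = col w → y i u = y j w → v i u = v j w := fun i j u w h e => by
    rw [← c1 i, ← c1 j] at h
    simp only [y] at e
    rcases hu : v i u with x | x <;> rcases hw : v j w with x' | x' <;> simp_all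
  have y2 : ∀ i j w, w ∉ S → y i w = y j w := fun i j w h => by simp only [y, v2 i j w h]
  have y3 : ∀ i j u w, u ∈ S → v i u = v j w → i = j := fun i j u w h e => by
    by_cases h' : w ∈ S
    · exact by_contra fun n => v3 i j n u h w h' e
    · exact absurd (c2 i (e.trans (v2 j i w h')) ▸ h) h'
  have p1 : ∀ u w, T.Adj u w → col u ≠ col w := fun u w h => by
    rw [← c1 0, ← c1 0]
    rcases (c3 0 u w h).2 with ⟨x, x', e, e', -⟩ | ⟨x, x', e, e', -⟩ <;> simp [e, e']
  have p2 : ∀ w ∈ S, ¬ R w := fun w h => (mem_filter.1 (hS h)).2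
  have z1 : ∀ i, ∀ e ∈ Ed T col S, ∀ r, eval (pt (y i) e) (f r : MvPolynomial _ F) = 0 := by
    intro i e he r
    obtain ⟨-, h1, h2, -⟩ := mem_filter.1 he
    rcases (c3 i _ _ h1).2 with ⟨x, x', e1, e2, h⟩ | ⟨x, x', -, e2, -⟩
    · simpa [pt, y, e1, e2] using h r
    · rw [← c1 i, e2] at h2
      simp at h2
  have z2 : ∀ i j, ∀ e ∈ Ed T col S, ∀ e' ∈ Ed T col S, pt (y i) e = pt (y j) e' →
      i = j ∧ e = e' := by
    intro i j e he e' he' h
    obtain ⟨-, h1, h2, h3⟩ := mem_filter.1 he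
    obtain ⟨-, h4, h5, -⟩ := mem_filter.1 he'
    have a1 := y1 i j e.1 e'.1 (h2.trans h5.symm) (funext fun s => congrFun h (.inl s))
    have a2 := y1 i j e.2 e'.2 (by
      have := p1 _ _ h1
      have := p1 _ _ h4
      simp_all) (funext fun s => congrFun h (.inr s))
    obtain rfl : i = j := h3.elim (fun h => y3 _ _ _ _ h a1) fun h => y3 _ _ _ _ h a2
    exact ⟨rfl, Prod.ext (c2 i a1) (c2 i a2)⟩
  choose g g1 g2 using fun c : S × Fin b =>
    subst (sb b S (μ col S c).1) (pt (y 0) (μ col S c).1) (f (μ col S c).2 : MvPolynomial _ F)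
  let x : Fin (C + t + 1) → S × Fin b → F := fun i c => y i c.1 c.2
  have x1 : Function.Injective x := fun i j e =>
    y3 i j s0 s0 hs0 (y1 i j _ _ rfl (funext fun s => congrFun e (⟨s0, hs0⟩, s)))
  have x2 := fun i c => g2 c (x i) (pt (y i) (μ col S c).1) (by
    rintro (s | s) <;> simp only [sb, pt, Sum.elim_inl, Sum.elim_inr] <;> split_ifs with h
    exacts [rfl, congrFun (y2 i 0 _ h) s, rfl, congrFun (y2 i 0 _ h) s])
  have x3 : ∀ i, Jac (sb b S) (μ col S) (pt (y i)) f =
      Matrix.of fun c c' => eval (x i) (pderiv c' (g c)) := fun i =>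
    Matrix.ext fun c c' => ((x2 i c).2 c').symm
  have n1 := hC F (S × Fin b) (by
      rw [Fintype.card_prod, Fintype.card_coe, Fintype.card_fin, mul_comm]
      exact Nat.mul_le_mul_left _ (card_le_univ S)) g
    (fun c => (g1 c).trans ((mem_restrictTotalDegree _ _ _).1 (f _).2))
    ((univ.filter fun i => ¬ (Jac (sb b S) (μ col S) (pt (y i)) f).det = 0).image x) (by
      simp only [mem_image, mem_filter, mem_univ, true_and]
      rintro _ ⟨i, h, rfl⟩
      exact ⟨fun c => (x2 i c).1.trans (z1 i _ ((hμ col p1 S p2).2 c).1 _), x3 i ▸ h⟩)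
  rw [card_image_of_injective _ x1] at n1
  have n2 := card_filter_add_card_filter_not (s := univ)
    fun i => (Jac (sb b S) (μ col S) (pt (y i)) f).det = 0
  rw [card_univ, Fintype.card_fin] at n2
  obtain ⟨m, hm⟩ := Function.Embedding.exists_of_card_le_finset (α := Fin t)
    (s := univ.filter fun i => (Jac (sb b S) (μ col S) (pt (y i)) f).det = 0)
    (by rw [Fintype.card_fin]; omega)
  exact ⟨col, S, p1, p2, fun i => y (m i), fun i j => y2 _ _, fun i j e he e' he' h =>
    (z2 _ _ e he e' he' h).imp_left m.injective.eq_iff.1, fun i => z1 _,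
    fun i => (mem_filter.1 (mem_coe.1 (hm ⟨i, rfl⟩))).2⟩

end Pool.Agent.Lib.MP_befe0b_co.BC
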