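import Mathlib

/-! The random algebraic construction: definitions. -/

open Finset MvPolynomial
open scoped Classical

noncomputable section

namespace Pool.Agent.Lib.MP_befe0b_co.BC

/-- Tuples of polynomials of bounded degree. -/
abbrev Om (σ F : Type) [Field F] (a D : ℕ) : Type := Fin a → restrictTotalDegree σ F D

/-- The Jacobian matrix of the square system chosen by `μ`. -/
def Jac {σ τ ι F : Type} [Fintype σ] [Field F] {a D : ℕ} (sub : ι → σ → Option τ)
    (μ : τ → ι × Fin a) (z : ι → σ → F) (f : Om σ F a D) : Matrix τ τ F :=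
  Matrix.of fun c c' => ∑ s, if sub (μ c).1 s = some c' then
    eval (z (μ c).1) (pderiv s (f (μ c).2 : MvPolynomial σ F)) else 0

variable {W : Type} [Fintype W] (T : SimpleGraph W)

/-- The edges that meet `S`, oriented by the colouring. -/
def Ed (col : W → Bool) (S : Finset W) : Finset (W × W) :=
  univ.filter fun e => T.Adj e.1 e.2 ∧ col e.1 = false ∧ (e.1 ∈ S ∨ e.2 ∈ S)

/-- Every set of unrooted vertices meets at least `b / a` edges per vertex. -/
def Bal (R : W → Prop) (a b : ℕ) : Prop :=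
  ∀ col : W → Bool, (∀ u v, T.Adj u v → col u ≠ col v) → ∀ S : Finset W, (∀ w ∈ S, ¬ R w) →
    b * S.card ≤ a * (Ed T col S).card

/-- The point at which the polynomials are evaluated for the edge `e`. -/
def pt {F : Type} {b : ℕ} (y : W → Fin b → F) (e : W × W) : Fin b ⊕ Fin b → F :=
  Sum.elim (y e.1) (y e.2)

/-- The coordinates of the edge `e` that belong to vertices of `S`. -/
def sb (b : ℕ) (S : Finset W) (e : W × W) : Fin b ⊕ Fin b → Option (S × Fin b) :=
  Sum.elim (fun j => if h : e.1 ∈ S then some (⟨e.1, h⟩, j) else none)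
    fun j => if h : e.2 ∈ S then some (⟨e.2, h⟩, j) else none

/-- A matching of the unknowns to equations. -/
def Mt (R : W → Prop) {a b : ℕ}
    (μ : (W → Bool) → (S : Finset W) → S × Fin b → (W × W) × Fin a) : Prop :=
  ∀ col : W → Bool, (∀ u v, T.Adj u v → col u ≠ col v) → ∀ S : Finset W, (∀ w ∈ S, ¬ R w) →
    Function.Injective (μ col S) ∧ ∀ c, (μ col S c).1 ∈ Ed T col S ∧
      (c.1.1 = (μ col S c).1.1 ∨ c.1.1 = (μ col S c).1.2)

/-- There are `t` singular petals with a common kernel. -/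
def Bad (R : W → Prop) {a b D : ℕ} {F : Type} [Field F]
    (μ : (W → Bool) → (S : Finset W) → S × Fin b → (W × W) × Fin a) (t : ℕ)
    (f : Om (Fin b ⊕ Fin b) F a D) : Prop :=
  ∃ (col : W → Bool) (S : Finset W), (∀ u v, T.Adj u v → col u ≠ col v) ∧ (∀ w ∈ S, ¬ R w) ∧
    ∃ y : Fin t → W → Fin b → F, (∀ i j w, w ∉ S → y i w = y j w) ∧
      (∀ i j, ∀ e ∈ Ed T col S, ∀ e' ∈ Ed T col S, pt (y i) e = pt (y j) e' → i = j ∧ e = e') ∧
      (∀ i, ∀ e ∈ Ed T col S, ∀ r, eval (pt (y i) e) (f r : MvPolynomial _ F) = 0) ∧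
      ∀ i, (Jac (sb b S) (μ col S) (pt (y i)) f).det = 0

/-- The bipartite graph of common zeros. -/
def Gf {a b D : ℕ} {F : Type} [Field F] (f : Om (Fin b ⊕ Fin b) F a D) :
    SimpleGraph ((Fin b → F) ⊕ (Fin b → F)) :=
  SimpleGraph.fromRel fun x y => ∃ u v, x = .inl u ∧ y = .inr v ∧
    ∀ r, eval (Sum.elim u v) (f r : MvPolynomial _ F) = 0

/-- The caterpillar. -/
def cat (k : ℕ) (κ : ℕ → ℕ) : SimpleGraph (Fin k ⊕ (Σ s : Fin k, Fin (κ s))) :=
  SimpleGraph.fromRel fun x y =>
    (∃ s s', x = .inl s ∧ y = .inl s' ∧ s.val + 1 = s'.val) ∨ ∃ s l, x = .inl s ∧ y = .inr ⟨s, l⟩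

instance finite_Om (σ F : Type) [Finite σ] [Field F] [Finite F] (a D : ℕ) : Finite (Om σ F a D) :=
  haveI : Finite (restrictTotalDegree σ F D) := Module.finite_of_finite F
  inferInstance

end Pool.Agent.Lib.MP_befe0b_co.BC
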