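import Pool.Agent.Lib.MP_befe0b_co.BC.LbProb

/-! A good tuple of polynomials. -/

open Finset MvPolynomial
open scoped Classical

noncomputable section

namespace Pool.Agent.Lib.MP_befe0b_co.BC

variable {W : Type} [Fintype W] {T : SimpleGraph W} {R : W → Prop} {a b D t : ℕ} {F : Type}
  [Field F] [Fintype F] {μ : (W → Bool) → (S : Finset W) → S × Fin b → (W × W) × Fin a}

theorem LbGood_union {α ι : Type} [Finite α] (s : Finset ι) (A : Set α) (B : ι → Set α)
    (h : ∀ x ∈ A, ∃ i ∈ s, x ∈ B i) : A.ncard ≤ ∑ i ∈ s, (B i).ncard := by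
  refine le_trans (Set.ncard_le_ncard ?_ (Set.toFinite _)) (Finset.set_ncard_biUnion_le s B)
  intro x hx
  obtain ⟨i, hi, hxi⟩ := h x hx
  exact Set.mem_biUnion hi hxi

theorem LbGood_cardY (S : Finset W) (Y : Finset (Fin t → W → Fin b → F))
    (hY : ∀ y ∈ Y, ∀ i j w, w ∉ S → y i w = y j w) :
    Y.card ≤ Fintype.card F ^ (b * Fintype.card W) * Fintype.card F ^ (b * S.card * t) := by
  have h1 : Fintype.card ((W → Fin b → F) × (Fin t → S → Fin b → F)) =
      Fintype.card F ^ (b * Fintype.card W) * Fintype.card F ^ (b * S.card * t) := by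
    simp only [Fintype.card_prod, Fintype.card_fun, Fintype.card_fin, Fintype.card_coe, pow_mul]
  rw [← h1, ← Finset.card_univ]
  refine Finset.card_le_card_of_injOn
    (fun y => (if h : 0 < t then y ⟨0, h⟩ else 0, fun i w => y i w.1))
    (fun _ _ => Finset.mem_coe.2 (Finset.mem_univ _)) ?_
  intro y hy y' hy' hyy
  have h2 := congrArg Prod.fst hyy
  have h3 := congrArg Prod.snd hyy
  funext i w
  have ht : 0 < t := i.pos
  by_cases hw : w ∈ S
  · exact congrFun (congrFun h3 i) ⟨w, hw⟩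
  · simp only [dif_pos ht] at h2
    rw [hY y hy i ⟨0, ht⟩ w hw, hY y' hy' i ⟨0, ht⟩ w hw, h2]

theorem LbGood_one (hB : Bal T R a b) (hμ : Mt T R μ)
    (hD : 2 * (t * (Fintype.card W * Fintype.card W)) + 1 ≤ D) (col : W → Bool) (S : Finset W)
    (hcol : ∀ u v, T.Adj u v → col u ≠ col v) (hS : ∀ w ∈ S, ¬ R w)
    (y : Fin t → W → Fin b → F)
    (hy : ∀ i j, ∀ e ∈ Ed T col S, ∀ e' ∈ Ed T col S, pt (y i) e = pt (y j) e' → i = j ∧ e = e') :
    {f : Om (Fin b ⊕ Fin b) F a D |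
      (∀ i, ∀ e ∈ Ed T col S, ∀ r, eval (pt (y i) e) (f r : MvPolynomial _ F) = 0) ∧
      ∀ i, (Jac (sb b S) (μ col S) (pt (y i)) f).det = 0}.ncard * Fintype.card F ^ t *
      Fintype.card F ^ (b * S.card * t) ≤
      (b * Fintype.card W) ^ t * Nat.card (Om (Fin b ⊕ Fin b) F a D) := by
  obtain ⟨hinj, hm⟩ := hμ col hcol S hS
  have hE : (Ed T col S).card ≤ Fintype.card W * Fintype.card W := by
    rw [← Fintype.card_prod]
    exact Finset.card_le_univ _
  have hD' : 2 * (t * (Ed T col S).card) + 1 ≤ D := by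
    have := Nat.mul_le_mul_left t hE
    omega
  have hd : ∀ c, ∃ s, sb b S (μ col S c).1 s = some c := by
    rintro ⟨⟨v, hv⟩, j⟩
    rcases (hm (⟨v, hv⟩, j)).2 with h | h
    · refine ⟨.inl j, ?_⟩
      have h' : (μ col S (⟨v, hv⟩, j)).1.1 ∈ S := h ▸ hv
      simp only [sb, Sum.elim_inl, dif_pos h']
      exact congrArg some (Prod.ext (Subtype.ext h.symm) rfl)
    · refine ⟨.inr j, ?_⟩
      have h' : (μ col S (⟨v, hv⟩, j)).1.2 ∈ S := h ▸ hv
      simp only [sb, Sum.elim_inr, dif_pos h']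
      exact congrArg some (Prod.ext (Subtype.ext h.symm) rfl)
  have h1 := count_sing (F := F) (D := D) (Ed T col S) (fun i => pt (y i)) hy hD' (sb b S)
    (μ col S) hinj (fun c => (hm c).1) hd
  have hq : 0 < Fintype.card F := Fintype.card_pos
  have h2 : Fintype.card F ^ (b * S.card * t) ≤ Fintype.card F ^ (a * (t * (Ed T col S).card)) := by
    refine Nat.pow_le_pow_right hq ?_
    calc b * S.card * t ≤ a * (Ed T col S).card * t := Nat.mul_le_mul_right t (hB col hcol S hS)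
      _ = a * (t * (Ed T col S).card) := by ring
  have h3 : Fintype.card (S × Fin b) ^ t ≤ (b * Fintype.card W) ^ t := by
    refine Nat.pow_le_pow_left ?_ t
    rw [Fintype.card_prod, Fintype.card_fin, Fintype.card_coe, mul_comm]
    exact Nat.mul_le_mul_left b (Finset.card_le_univ S)
  refine le_trans ?_ (le_trans h1 (Nat.mul_le_mul_right _ h3))
  rw [mul_right_comm]
  exact Nat.mul_le_mul_right _ (Nat.mul_le_mul_left _ h2)

theorem LbGood_pair (hB : Bal T R a b) (hμ : Mt T R μ)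
    (hD : 2 * (t * (Fintype.card W * Fintype.card W)) + 1 ≤ D) (col : W → Bool) (S : Finset W) :
    {f : Om (Fin b ⊕ Fin b) F a D | (∀ u v, T.Adj u v → col u ≠ col v) ∧ (∀ w ∈ S, ¬ R w) ∧
      ∃ y : Fin t → W → Fin b → F, (∀ i j w, w ∉ S → y i w = y j w) ∧
      (∀ i j, ∀ e ∈ Ed T col S, ∀ e' ∈ Ed T col S, pt (y i) e = pt (y j) e' → i = j ∧ e = e') ∧
      (∀ i, ∀ e ∈ Ed T col S, ∀ r, eval (pt (y i) e) (f r : MvPolynomial _ F) = 0) ∧
      ∀ i, (Jac (sb b S) (μ col S) (pt (y i)) f).det = 0}.ncard * Fintype.card F ^ t ≤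
      Fintype.card F ^ (b * Fintype.card W) * (b * Fintype.card W) ^ t *
        Nat.card (Om (Fin b ⊕ Fin b) F a D) := by
  by_cases hc : (∀ u v, T.Adj u v → col u ≠ col v) ∧ (∀ w ∈ S, ¬ R w)
  swap
  · rw [Set.eq_empty_of_forall_notMem (s := {f : Om (Fin b ⊕ Fin b) F a D | _})
      fun f hf => hc ⟨hf.1, hf.2.1⟩]
    simp
  obtain ⟨hcol, hS⟩ := hc
  set Y : Finset (Fin t → W → Fin b → F) := univ.filter fun y =>
    (∀ i j w, w ∉ S → y i w = y j w) ∧
      ∀ i j, ∀ e ∈ Ed T col S, ∀ e' ∈ Ed T col S, pt (y i) e = pt (y j) e' → i = j ∧ e = e'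
    with hY
  have hq : 0 < Fintype.card F ^ (b * S.card * t) := pow_pos Fintype.card_pos _
  have hc := LbGood_cardY S Y fun y hy => (Finset.mem_filter.1 hy).2.1
  refine Nat.le_of_mul_le_mul_right ?_ hq
  refine le_trans (Nat.mul_le_mul_right _ (Nat.mul_le_mul_right _ (LbGood_union Y _
    (fun y => {f : Om (Fin b ⊕ Fin b) F a D |
      (∀ i, ∀ e ∈ Ed T col S, ∀ r, eval (pt (y i) e) (f r : MvPolynomial _ F) = 0) ∧
      ∀ i, (Jac (sb b S) (μ col S) (pt (y i)) f).det = 0}) ?_))) ?_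
  · rintro f ⟨-, -, y, h1, h2, h3, h4⟩
    exact ⟨y, Finset.mem_filter.2 ⟨Finset.mem_univ _, h1, h2⟩, h3, h4⟩
  rw [Finset.sum_mul, Finset.sum_mul]
  refine le_trans (Finset.sum_le_card_nsmul Y _ _ fun y hy =>
    LbGood_one hB hμ hD col S hcol hS y (Finset.mem_filter.1 hy).2.2) ?_
  rw [smul_eq_mul]
  refine le_trans (Nat.mul_le_mul_right _ hc) (le_of_eq ?_)
  ring

theorem bad_count (hB : Bal T R a b) (hμ : Mt T R μ)
    (hD : 2 * (t * (Fintype.card W * Fintype.card W)) + 1 ≤ D) :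
    {f : Om (Fin b ⊕ Fin b) F a D | Bad T R μ t f}.ncard * Fintype.card F ^ t ≤
      4 ^ Fintype.card W * Fintype.card F ^ (b * Fintype.card W) * (b * Fintype.card W) ^ t *
        Nat.card (Om (Fin b ⊕ Fin b) F a D) := by
  refine le_trans (Nat.mul_le_mul_right _ (LbGood_union (univ : Finset ((W → Bool) × Finset W)) _
    (fun p => {f : Om (Fin b ⊕ Fin b) F a D |
      (∀ u v, T.Adj u v → p.1 u ≠ p.1 v) ∧ (∀ w ∈ p.2, ¬ R w) ∧
      ∃ y : Fin t → W → Fin b → F, (∀ i j w, w ∉ p.2 → y i w = y j w) ∧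
      (∀ i j, ∀ e ∈ Ed T p.1 p.2, ∀ e' ∈ Ed T p.1 p.2,
        pt (y i) e = pt (y j) e' → i = j ∧ e = e') ∧
      (∀ i, ∀ e ∈ Ed T p.1 p.2, ∀ r, eval (pt (y i) e) (f r : MvPolynomial _ F) = 0) ∧
      ∀ i, (Jac (sb b p.2) (μ p.1 p.2) (pt (y i)) f).det = 0}) ?_)) ?_
  · rintro f ⟨col, S, h⟩
    exact ⟨(col, S), Finset.mem_univ _, h⟩
  rw [Finset.sum_mul]
  refine le_trans (Finset.sum_le_card_nsmul _ _ _ fun p _ => LbGood_pair hB hμ hD p.1 p.2) ?_
  rw [smul_eq_mul, Finset.card_univ, Fintype.card_prod, Fintype.card_fun, Fintype.card_bool,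
    Fintype.card_finset, ← mul_pow]
  refine le_of_eq ?_
  ring

theorem LbGood_edges (f : Om (Fin b ⊕ Fin b) F a D) :
    ((univ : Finset ((Fin b → F) × (Fin b → F))).filter fun p =>
      ∀ r, eval (Sum.elim p.1 p.2) (f r : MvPolynomial _ F) = 0).card ≤ (Gf f).edgeSet.ncard := by
  rw [← Set.ncard_coe_finset]
  refine Set.ncard_le_ncard_of_injOn (fun p => s(Sum.inl p.1, Sum.inr p.2)) ?_ ?_ (Set.toFinite _)
  · intro p hp
    have hp' := (Finset.mem_filter.1 (Finset.mem_coe.1 hp)).2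
    rw [SimpleGraph.mem_edgeSet, Gf, SimpleGraph.fromRel_adj]
    exact ⟨Sum.inl_ne_inr, Or.inl ⟨p.1, p.2, rfl, rfl, hp'⟩⟩
  · intro p _ p' _ h
    rcases Sym2.eq_iff.1 h with ⟨h1, h2⟩ | ⟨h1, -⟩
    · exact Prod.ext (Sum.inl_injective h1) (Sum.inr_injective h2)
    · exact absurd h1 Sum.inl_ne_inr

theorem LbGood_sum [Fintype (Om (Fin b ⊕ Fin b) F a D)] (hD : 3 ≤ D) :
    (∑ f : Om (Fin b ⊕ Fin b) F a D, ((univ : Finset ((Fin b → F) × (Fin b → F))).filter fun p =>
      ∀ r, eval (Sum.elim p.1 p.2) (f r : MvPolynomial _ F) = 0).card) * Fintype.card F ^ a =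
      Fintype.card F ^ (2 * b) * Nat.card (Om (Fin b ⊕ Fin b) F a D) := by
  have h1 : ∀ p : (Fin b → F) × (Fin b → F),
      ((univ : Finset (Om (Fin b ⊕ Fin b) F a D)).filter fun f =>
        ∀ r, eval (Sum.elim p.1 p.2) (f r : MvPolynomial _ F) = 0).card * Fintype.card F ^ a =
        Nat.card (Om (Fin b ⊕ Fin b) F a D) := by
    intro p
    have h := count_zero (F := F) (ι := Unit) (a := a) (D := D) (fun _ => Sum.elim p.1 p.2)
      (fun _ _ _ => rfl) (by simpa using hD)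
    rw [Fintype.card_unit, mul_one] at h
    rw [← h, ← Set.ncard_coe_finset]
    refine congrArg (fun s : Set (Om (Fin b ⊕ Fin b) F a D) => s.ncard * Fintype.card F ^ a) ?_
    ext f
    simp only [Finset.coe_filter, Finset.mem_univ, true_and, Set.mem_ofPred_eq, forall_const]
  simp only [Finset.card_filter] at h1 ⊢
  rw [Finset.sum_comm, Finset.sum_mul, Finset.sum_congr rfl fun p _ => h1 p, Finset.sum_const,
    smul_eq_mul, Finset.card_univ, Fintype.card_prod, Fintype.card_fun, Fintype.card_fin,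
    ← pow_add, two_mul]

theorem exists_good (hB : Bal T R a b) (hμ : Mt T R μ) (ht : t = b * Fintype.card W + a + 1)
    (hD : 2 * (t * (Fintype.card W * Fintype.card W)) + 3 ≤ D)
    (hq : 2 * 4 ^ Fintype.card W * (b * Fintype.card W) ^ t ≤ Fintype.card F) :
    ∃ f : Om (Fin b ⊕ Fin b) F a D, ¬ Bad T R μ t f ∧
      Fintype.card F ^ (2 * b) ≤ 2 * Fintype.card F ^ a * (Gf f).edgeSet.ncard := by
  have : Fintype (Om (Fin b ⊕ Fin b) F a D) := Fintype.ofFinite _
  have hq0 : 0 < Fintype.card F := Fintype.card_pos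
  have hb := bad_count (F := F) hB hμ (show 2 * (t * (Fintype.card W * Fintype.card W)) + 1 ≤ D by
    omega)
  have hs := LbGood_sum (F := F) (a := a) (b := b) (D := D) (by omega)
  set N := Nat.card (Om (Fin b ⊕ Fin b) F a D) with hN
  set B := {f : Om (Fin b ⊕ Fin b) F a D | Bad T R μ t f}.ncard with hBd
  set q := Fintype.card F with hqd
  have hb2 : 2 * q ^ a * B ≤ N := by
    refine Nat.le_of_mul_le_mul_right ?_ (pow_pos hq0 (b * Fintype.card W + 1))
    calc 2 * q ^ a * B * q ^ (b * Fintype.card W + 1) = 2 * (B * q ^ t) := by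
          rw [ht]; ring
      _ ≤ 2 * (4 ^ Fintype.card W * q ^ (b * Fintype.card W) * (b * Fintype.card W) ^ t * N) :=
          Nat.mul_le_mul_left _ hb
      _ = 2 * 4 ^ Fintype.card W * (b * Fintype.card W) ^ t * (q ^ (b * Fintype.card W) * N) := by
          ring
      _ ≤ q * (q ^ (b * Fintype.card W) * N) := Nat.mul_le_mul_right _ hq
      _ = N * q ^ (b * Fintype.card W + 1) := by ring
  by_contra hcon
  have hlt : ∀ f : Om (Fin b ⊕ Fin b) F a D,
      2 * q ^ a * ((univ : Finset ((Fin b → F) × (Fin b → F))).filter fun p =>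
        ∀ r, eval (Sum.elim p.1 p.2) (f r : MvPolynomial _ F) = 0).card <
      q ^ (2 * b) + (if Bad T R μ t f then 1 else 0) * (2 * q ^ a * q ^ (2 * b)) := by
    intro f
    by_cases hf : Bad T R μ t f
    · have h1 : ((univ : Finset ((Fin b → F) × (Fin b → F))).filter fun p =>
          ∀ r, eval (Sum.elim p.1 p.2) (f r : MvPolynomial _ F) = 0).card ≤ q ^ (2 * b) := by
        refine le_trans (Finset.card_le_univ _) (le_of_eq ?_)
        rw [Fintype.card_prod, Fintype.card_fun, Fintype.card_fin, ← pow_add, two_mul]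
      have h2 := Nat.mul_le_mul_left (2 * q ^ a) h1
      have h3 : 0 < q ^ (2 * b) := pow_pos hq0 _
      rw [if_pos hf, one_mul]
      omega
    · have h1 : 2 * q ^ a * (Gf f).edgeSet.ncard < q ^ (2 * b) :=
        not_le.1 fun h => hcon ⟨f, hf, h⟩
      have h2 := Nat.mul_le_mul_left (2 * q ^ a) (LbGood_edges f)
      rw [if_neg hf, zero_mul]
      omega
  have hsum := Finset.sum_lt_sum_of_nonempty (s := univ) ⟨0, Finset.mem_univ _⟩ fun f _ => hlt f
  have hB' : ∑ f : Om (Fin b ⊕ Fin b) F a D, (if Bad T R μ t f then 1 else 0) = B := by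
    rw [← Finset.card_filter, hBd, ← Set.ncard_coe_finset]
    refine congrArg Set.ncard ?_
    ext f
    simp only [Finset.coe_filter, Finset.mem_univ, true_and]
  rw [← Finset.mul_sum, Finset.sum_add_distrib, ← Finset.sum_mul, hB', Finset.sum_const,
    smul_eq_mul, Finset.card_univ, ← Nat.card_eq_fintype_card, ← hN, mul_assoc 2, mul_comm (q ^ a),
    hs] at hsum
  have h4 := Nat.mul_le_mul_right (q ^ (2 * b)) hb2
  nlinarith [h4, hsum]

end Pool.Agent.Lib.MP_befe0b_co.BC
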