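import Pool.Agent.Lib.MP_befe0b_co.BC.LbHerm

/-! Counting polynomials with given zeros. -/

open Finset MvPolynomial
open scoped Classical

noncomputable section

namespace Pool.Agent.Lib.MP_befe0b_co.BC

/-- Evaluation of a tuple at finitely many points. -/
def LbProb_ev {F σ ι : Type} [Field F] (a D : ℕ) (z : ι → σ → F) :
    Om σ F a D →+ (ι → Fin a → F) where
  toFun f := fun i r => eval (z i) (f r : MvPolynomial σ F)
  map_zero' := by
    funext i r
    simp
  map_add' f g := by
    funext i r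
    simp

theorem count_zero {F σ ι : Type} [Field F] [Fintype F] [Fintype σ] [Fintype ι] {a D : ℕ}
    (z : ι → σ → F) (hz : Function.Injective z) (hD : 2 * Fintype.card ι + 1 ≤ D) :
    {f : Om σ F a D | ∀ i r, eval (z i) (f r : MvPolynomial σ F) = 0}.ncard *
      Fintype.card F ^ (a * Fintype.card ι) = Nat.card (Om σ F a D) := by
  have hs : Function.Surjective (LbProb_ev a D z) := by
    intro v
    choose g h1 h2 using fun r : Fin a => interp z hz (fun i => v i r) fun _ _ => 0
    refine ⟨fun r => ⟨g r, (mem_restrictTotalDegree σ D _).2 ((h1 r).trans hD)⟩, ?_⟩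
    funext i r
    exact (h2 r i).1
  have h1 := AddSubgroup.card_mul_index (LbProb_ev a D z).ker
  rw [AddSubgroup.index_ker, AddMonoidHom.range_eq_top.2 hs, AddSubgroup.card_top] at h1
  have h2 : Nat.card (ι → Fin a → F) = Fintype.card F ^ (a * Fintype.card ι) := by
    rw [Nat.card_fun, Nat.card_fun, Nat.card_eq_fintype_card, Nat.card_eq_fintype_card,
      Nat.card_eq_fintype_card, Fintype.card_fin, pow_mul]
  have h3 : {f : Om σ F a D | ∀ i r, eval (z i) (f r : MvPolynomial σ F) = 0} =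
      ((LbProb_ev a D z).ker : Set (Om σ F a D)) := by
    ext f
    rw [SetLike.mem_coe, AddMonoidHom.mem_ker]
    constructor
    · intro h
      funext i r
      exact h i r
    · intro h i r
      exact congrFun (congrFun h i) r
  rw [h3, ← h2, ← h1, ← Nat.card_coe_set_eq]
  rfl

/-- The Jacobian matrix is linear in the tuple. -/
def LbProb_jac {σ τ ι F : Type} [Fintype σ] [Field F] (a D : ℕ) (sub : ι → σ → Option τ)
    (μ : τ → ι × Fin a) (z : ι → σ → F) : Om σ F a D →ₗ[F] Matrix τ τ F where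
  toFun f := Jac sub μ z f
  map_add' f g := by
    ext c c'
    simp only [Jac, Matrix.of_apply, Matrix.add_apply, ← sum_add_distrib]
    refine sum_congr rfl fun s _ => ?_
    split_ifs <;> simp
  map_smul' x f := by
    ext c c'
    simp only [Jac, Matrix.of_apply, Matrix.smul_apply, RingHom.id_apply, smul_eq_mul, mul_sum]
    refine sum_congr rfl fun s _ => ?_
    split_ifs <;> simp

theorem LbProb_dirs {F σ τ ι : Type} [Field F] [Fintype σ] [Fintype τ]
    [DecidableEq τ] {a D t : ℕ} (E : Finset ι) (z : Fin t → ι → σ → F)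
    (hz : ∀ i j, ∀ e ∈ E, ∀ e' ∈ E, z i e = z j e' → i = j ∧ e = e')
    (hD : 2 * (t * E.card) + 1 ≤ D) (sub : ι → σ → Option τ) (μ : τ → ι × Fin a)
    (hμ : Function.Injective μ) (hE : ∀ c, (μ c).1 ∈ E) (hd : ∀ c, ∃ s, sub (μ c).1 s = some c)
    (i : Fin t) : ∃ h : Om σ F a D,
      (∀ j, ∀ e ∈ E, ∀ r, eval (z j e) (h r : MvPolynomial σ F) = 0) ∧
      ∀ j, Jac sub μ (z j) h = if j = i then 1 else 0 := by
  choose δ hδ using hd
  have hinj : Function.Injective fun p : Fin t × E => z p.1 p.2 := by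
    intro p p' h
    obtain ⟨h1, h2⟩ := hz _ _ _ p.2.2 _ p'.2.2 h
    exact Prod.ext h1 (Subtype.ext h2)
  choose g h1 h2 using fun r : Fin a => interp _ hinj (fun _ => 0)
    fun (p : Fin t × E) s => if p.1 = i ∧ ∃ c, μ c = (p.2.1, r) ∧ s = δ c then (1 : F) else 0
  have hc : Fintype.card (Fin t × E) = t * E.card := by simp
  refine ⟨fun r => ⟨g r, (mem_restrictTotalDegree σ D _).2 ((h1 r).trans (hc ▸ hD))⟩,
    fun j e he r => (h2 r (j, ⟨e, he⟩)).1, fun j => ?_⟩
  ext c c'
  have h3 : ∀ s, eval (z j (μ c).1) (pderiv s (g (μ c).2)) = if j = i ∧ s = δ c then 1 else 0 := by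
    intro s
    rw [(h2 (μ c).2 (j, ⟨(μ c).1, hE c⟩)).2 s]
    refine if_congr (and_congr Iff.rfl ⟨?_, fun h => ⟨c, rfl, h⟩⟩) rfl rfl
    rintro ⟨c₀, e1, e2⟩
    rw [e2, hμ e1]
  simp only [Jac, Matrix.of_apply, h3]
  rw [sum_eq_single (δ c) (fun s _ hs => by simp [hs]) fun h => absurd (mem_univ _) h, hδ]
  by_cases hj : j = i
  · simp [hj, Matrix.one_apply]
  · simp [hj]

theorem LbProb_pairs {F V τ : Type} [Field F] [Fintype F] [AddCommGroup V] [Module F V] [Finite V]
    [Fintype τ] [DecidableEq τ] {t : ℕ} (Z B : Set V) (J : Fin t → V →ₗ[F] Matrix τ τ F)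
    (h : Fin t → V) (hZ : ∀ g ∈ B, ∀ l : Fin t → F, ∑ j, l j • h j - g ∈ Z)
    (hB : ∀ g ∈ B, ∀ i, (J i g).det = 0) (hh : ∀ i j, J j (h i) = if j = i then 1 else 0) :
    B.ncard * Fintype.card F ^ t ≤ Fintype.card τ ^ t * Z.ncard := by
  have fZ : Z.Finite := Set.toFinite _
  have fB : B.Finite := Set.toFinite _
  have key : (fB.toFinset ×ˢ (univ : Finset (Fin t → F))).card ≤
      Fintype.card τ ^ t * fZ.toFinset.card := by
    refine card_le_mul_card_image_of_maps_to (f := fun p => ∑ j, p.2 j • h j - p.1) ?_ _ ?_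
    · rintro ⟨g, l⟩ hp
      exact fZ.mem_toFinset.2 (hZ g (fB.mem_toFinset.1 (mem_product.1 hp).1) l)
    · intro f _
      have hcard : (Fintype.piFinset fun i => (J i f).charpoly.roots.toFinset).card ≤
          Fintype.card τ ^ t := by
        rw [Fintype.card_piFinset]
        refine (prod_le_pow_card _ _ (Fintype.card τ) fun i _ => ?_).trans (by simp)
        exact (Multiset.toFinset_card_le _).trans
          ((Polynomial.card_roots' _).trans (Matrix.charpoly_natDegree_eq_dim _).le)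
      refine le_trans (card_le_card_of_injOn (fun p => p.2) ?_ ?_) hcard
      · rintro ⟨g, l⟩ hp
        obtain ⟨hp1, hp2⟩ := mem_filter.1 (mem_coe.1 hp)
        have hg := hB g (fB.mem_toFinset.1 (mem_product.1 hp1).1)
        refine mem_coe.2 (Fintype.mem_piFinset.2 fun i => ?_)
        rw [Multiset.mem_toFinset, Polynomial.mem_roots (Matrix.charpoly_monic _).ne_zero,
          Polynomial.IsRoot.def, Matrix.eval_charpoly, ← hg i]
        congr 1
        have e1 : g = ∑ j, l j • h j - f := by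
          rw [← hp2]
          simp
        rw [e1, map_sub, map_sum]
        simp only [map_smul, hh]
        rw [sum_eq_single i (fun j _ hj => by simp [hj.symm]) fun h => absurd (mem_univ _) h]
        simp [Matrix.smul_one_eq_diagonal]
      · rintro ⟨g, l⟩ hp ⟨g', l'⟩ hp' e
        obtain rfl : l = l' := e
        have e1 := (mem_filter.1 (mem_coe.1 hp)).2
        have e2 := (mem_filter.1 (mem_coe.1 hp')).2
        exact Prod.ext (sub_right_injective (e1.trans e2.symm)) rfl
  rwa [card_product, card_univ, Fintype.card_fun, Fintype.card_fin,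
    ← Set.ncard_eq_toFinset_card _ fB, ← Set.ncard_eq_toFinset_card _ fZ] at key

theorem count_sing {F σ τ ι : Type} [Field F] [Fintype F] [Fintype σ] [Fintype τ]
    [DecidableEq τ] {a D t : ℕ} (E : Finset ι) (z : Fin t → ι → σ → F)
    (hz : ∀ i j, ∀ e ∈ E, ∀ e' ∈ E, z i e = z j e' → i = j ∧ e = e')
    (hD : 2 * (t * E.card) + 1 ≤ D) (sub : ι → σ → Option τ) (μ : τ → ι × Fin a)
    (hμ : Function.Injective μ) (hE : ∀ c, (μ c).1 ∈ E) (hd : ∀ c, ∃ s, sub (μ c).1 s = some c) :
    {f : Om σ F a D | (∀ i, ∀ e ∈ E, ∀ r, eval (z i e) (f r : MvPolynomial σ F) = 0) ∧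
      ∀ i, (Jac sub μ (z i) f).det = 0}.ncard * Fintype.card F ^ (a * (t * E.card)) *
      Fintype.card F ^ t ≤ Fintype.card τ ^ t * Nat.card (Om σ F a D) := by
  choose h hh1 hh2 using LbProb_dirs E z hz hD sub μ hμ hE hd
  have hinj : Function.Injective fun p : Fin t × E => z p.1 p.2 := by
    intro p p' h
    obtain ⟨h1, h2⟩ := hz _ _ _ p.2.2 _ p'.2.2 h
    exact Prod.ext h1 (Subtype.ext h2)
  have hc : Fintype.card (Fin t × E) = t * E.card := by simp
  have hZ := count_zero (a := a) _ hinj (hc ▸ hD)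
  rw [hc] at hZ
  have key := LbProb_pairs
    {f : Om σ F a D | ∀ (p : Fin t × E) r, eval (z p.1 p.2) (f r : MvPolynomial σ F) = 0}
    {f : Om σ F a D | (∀ i, ∀ e ∈ E, ∀ r, eval (z i e) (f r : MvPolynomial σ F) = 0) ∧
      ∀ i, (Jac sub μ (z i) f).det = 0} (fun i => LbProb_jac a D sub μ (z i)) h
    (fun g hg l p r => by simp [hh1 _ p.1 _ p.2.2, hg.1 p.1 _ p.2.2]) (fun g hg => hg.2) hh2
  rw [mul_right_comm, ← hZ]
  exact (Nat.mul_le_mul_right _ key).trans (mul_assoc _ _ _).le

end Pool.Agent.Lib.MP_befe0b_co.BC
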