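import Pool.Agent.Lib.MP_befe0b_co.BC.LbDefs
import Pool.Agent.Lib.MP_befe0b_co.BC.Select

/-! Sunflowers of maps. -/

open Finset MvPolynomial
open scoped Classical

noncomputable section

namespace Pool.Agent.Lib.MP_befe0b_co.BC

theorem lbSun_tame {W V : Type} (𝒜 : (W → V) → Prop) (m k : ℕ) (J : Finset W) (hJ : J.card ≤ k)
    (T : Finset (W → V)) (hT : ∀ c ∈ T, 𝒜 c) (hag : ∀ c ∈ T, ∀ c' ∈ T, ∀ s, s ∉ J → c s = c' s)
    (hit : ∀ c ∈ T, ∀ S ⊆ J, S.Nonempty → ∃ Q : Finset V, Q.card ≤ m ∧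
      ∀ c', (∀ s, s ∉ S → c' s = c s) → 𝒜 c' → ∃ s ∈ S, c' s ∈ Q) :
    T.card ≤ (m * k + 1) ^ J.card := by
  induction hn : J.card generalizing J T with
  | zero =>
    obtain rfl := card_eq_zero.1 hn
    simpa using card_le_one.2 fun c hc c' hc' => funext fun s => hag c hc c' hc' s (by simp)
  | succ n ih =>
    rcases T.eq_empty_or_nonempty with rfl | ⟨c₀, h₀⟩
    · simp
    obtain ⟨Q, hQ, hq⟩ := hit c₀ h₀ J subset_rfl (card_pos.1 (by omega))
    have cov : T ⊆ (J ×ˢ Q).biUnion fun x => T.filter fun c => c x.1 = x.2 := fun c hc => by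
      obtain ⟨s, hs, h⟩ := hq c (hag c hc c₀ h₀) (hT c hc)
      exact mem_biUnion.2 ⟨(s, c s), mem_product.2 ⟨hs, h⟩, mem_filter.2 ⟨hc, rfl⟩⟩
    have h1 : ∀ x ∈ J ×ˢ Q, (T.filter fun c => c x.1 = x.2).card ≤ (m * k + 1) ^ n := by
      intro x hx
      have hs := (mem_product.1 hx).1
      refine ih (J.erase x.1) ((card_erase_le).trans hJ) _ (fun c hc => hT c (mem_filter.1 hc).1)
        (fun c hc c' hc' s h => ?_)
        (fun c hc S hS => hit c (mem_filter.1 hc).1 S (hS.trans (erase_subset _ _)))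
        (by rw [card_erase_of_mem hs, hn]; rfl)
      by_cases e : s = x.1
      · rw [e, (mem_filter.1 hc).2, (mem_filter.1 hc').2]
      · exact hag c (mem_filter.1 hc).1 c' (mem_filter.1 hc').1 s fun h' => h (mem_erase.2 ⟨e, h'⟩)
    refine (card_le_card cov).trans ((card_biUnion_le_card_mul _ _ _ h1).trans ?_)
    rw [pow_succ', card_product, mul_comm J.card]
    exact Nat.mul_le_mul_right _ ((Nat.mul_le_mul hQ hJ).trans (Nat.le_succ _))

theorem sunflower {W V : Type} [Fintype W] (J : Finset W) (t : ℕ) (T : Finset (W → V))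
    (hag : ∀ c ∈ T, ∀ c' ∈ T, ∀ s, s ∉ J → c s = c' s)
    (h : (t * Fintype.card W * Fintype.card W + 1) ^ Fintype.card W < T.card) :
    ∃ S ⊆ J, S.Nonempty ∧ ∃ y : Fin t → W → V, (∀ i, y i ∈ T) ∧
      (∀ i j s, s ∉ S → y i s = y j s) ∧ ∀ i j, i ≠ j → ∀ s ∈ S, ∀ s' ∈ S, y i s ≠ y j s' := by
  have hex : ∃ c ∈ T, ∃ S ⊆ J, S.Nonempty ∧ ∀ Q : Finset V, Q.card ≤ t * Fintype.card W →
      ∃ c', (∀ s, s ∉ S → c' s = c s) ∧ c' ∈ T ∧ ∀ s ∈ S, c' s ∉ Q := by
    by_contra hno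
    have h1 := lbSun_tame (fun c => c ∈ T) (t * Fintype.card W) (Fintype.card W) J
      (card_le_univ J) T (fun _ hc => hc) hag (by
        intro c hc S hS hne
        by_contra hq
        refine hno ⟨c, hc, S, hS, hne, fun Q hQ => ?_⟩
        by_contra hc'
        refine hq ⟨Q, hQ, fun c' h1 h2 => ?_⟩
        by_contra h3
        exact hc' ⟨c', h1, h2, fun s hs hsQ => h3 ⟨s, hs, hsQ⟩⟩)
    have h2 : (t * Fintype.card W * Fintype.card W + 1) ^ J.card ≤
        (t * Fintype.card W * Fintype.card W + 1) ^ Fintype.card W :=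
      Nat.pow_le_pow_right (Nat.succ_pos _) (card_le_univ J)
    omega
  obtain ⟨c, -, S, hS, hne, hQ⟩ := hex
  have : Nonempty (W → V) := ⟨c⟩
  obtain ⟨x, s, -, -, hR, hdis⟩ := chain (V := V) (σ := Unit) (β := W → V) (fun _ _ => True)
    (fun _ _ y _ => (∀ s, s ∉ S → y s = c s) ∧ y ∈ T) (fun _ y => S.image y)
    (Fintype.card W) t ∅ (fun _ y => card_image_le.trans (card_le_univ S)) () trivial (by
      intro g _ _ _ Q _ hc
      obtain ⟨c', h1, h2, h3⟩ := hQ Q (by simpa using hc)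
      refine ⟨c', (), disjoint_left.2 fun v hv => ?_, trivial, h1, h2⟩
      obtain ⟨s, hs, rfl⟩ := mem_image.1 hv
      exact h3 s hs)
  refine ⟨S, hS, hne, fun i => x i, fun i => (hR i i.2).1.2, fun i j s hs => ?_,
    fun i j hij s hs s' hs' e => ?_⟩
  · exact ((hR i i.2).1.1 s hs).trans ((hR j j.2).1.1 s hs).symm
  · refine disjoint_left.1 (hdis i i.2 j j.2 fun e => hij (Fin.ext e))
      (mem_image_of_mem _ hs) ?_
    dsimp only at e
    rw [e]
    exact mem_image_of_mem _ hs'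

theorem lbSun_hall {W : Type} [Fintype W] {T : SimpleGraph W} {R : W → Prop} {a b : ℕ}
    (h : Bal T R a b) (col : W → Bool) (hcol : ∀ u v, T.Adj u v → col u ≠ col v) (S : Finset W)
    (hS : ∀ w ∈ S, ¬ R w) :
    ∃ μ : S × Fin b → (W × W) × Fin a, Function.Injective μ ∧ ∀ c, (μ c).1 ∈ Ed T col S ∧
      (c.1.1 = (μ c).1.1 ∨ c.1.1 = (μ c).1.2) := by
  obtain ⟨μ, h1, h2⟩ := (all_card_le_biUnion_card_iff_exists_injective
    (fun c : S × Fin b => ((Ed T col S).filter fun e => c.1.1 = e.1 ∨ c.1.1 = e.2) ×ˢ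
      (univ : Finset (Fin a)))).1 (by
    intro C
    set S' := C.image fun c => c.1.1 with hS'
    have hsub : S' ⊆ S := fun w hw => by
      obtain ⟨c, -, rfl⟩ := mem_image.1 hw
      exact c.1.2
    have h3 : C.card ≤ (S' ×ˢ (univ : Finset (Fin b))).card := by
      refine card_le_card_of_injOn (fun c => (c.1.1, c.2)) (fun c hc => ?_) fun c _ c' _ e => ?_
      · exact mem_coe.2 (mem_product.2 ⟨mem_image_of_mem _ hc, mem_univ _⟩)
      · exact Prod.ext (Subtype.ext (Prod.ext_iff.1 e).1) (Prod.ext_iff.1 e).2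
    have h4 := h col hcol S' fun w hw => hS w (hsub hw)
    have h5 : Ed T col S' ×ˢ (univ : Finset (Fin a)) ⊆ C.biUnion fun c : S × Fin b =>
        ((Ed T col S).filter fun e => c.1.1 = e.1 ∨ c.1.1 = e.2) ×ˢ (univ : Finset (Fin a)) := by
      intro x hx
      obtain ⟨-, e1, e2, e3⟩ := mem_filter.1 (mem_product.1 hx).1
      have e4 : x.1 ∈ Ed T col S :=
        mem_filter.2 ⟨mem_univ _, e1, e2, e3.imp (fun e => hsub e) fun e => hsub e⟩
      rcases e3 with e3 | e3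
      · obtain ⟨c, hc, e⟩ := mem_image.1 e3
        exact mem_biUnion.2 ⟨c, hc, mem_product.2 ⟨mem_filter.2 ⟨e4, Or.inl e⟩, mem_univ _⟩⟩
      · obtain ⟨c, hc, e⟩ := mem_image.1 e3
        exact mem_biUnion.2 ⟨c, hc, mem_product.2 ⟨mem_filter.2 ⟨e4, Or.inr e⟩, mem_univ _⟩⟩
    have h6 := card_le_card h5
    rw [card_product, card_univ, Fintype.card_fin, mul_comm] at h3 h6
    exact h3.trans (h4.trans h6))
  exact ⟨μ, h1, fun c => mem_filter.1 (mem_product.1 (h2 c)).1⟩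

theorem exists_Mt {W : Type} [Fintype W] {T : SimpleGraph W} {R : W → Prop} {a b : ℕ}
    (ha : 0 < a) (hW : Nonempty W) (h : Bal T R a b) :
    ∃ μ : (W → Bool) → (S : Finset W) → S × Fin b → (W × W) × Fin a, Mt T R μ := by
  have key : ∀ (col : W → Bool) (S : Finset W), ∃ μ : S × Fin b → (W × W) × Fin a,
      (∀ u v, T.Adj u v → col u ≠ col v) → (∀ w ∈ S, ¬ R w) →
      Function.Injective μ ∧ ∀ c, (μ c).1 ∈ Ed T col S ∧
        (c.1.1 = (μ c).1.1 ∨ c.1.1 = (μ c).1.2) := by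
    intro col S
    by_cases hc : (∀ u v, T.Adj u v → col u ≠ col v) ∧ ∀ w ∈ S, ¬ R w
    · obtain ⟨μ, hμ⟩ := lbSun_hall h col hc.1 S hc.2
      exact ⟨μ, fun _ _ => hμ⟩
    · obtain ⟨w⟩ := hW
      exact ⟨fun _ => ((w, w), ⟨0, ha⟩), fun h1 h2 => (hc ⟨h1, h2⟩).elim⟩
  choose μ hμ using key
  exact ⟨μ, fun col h1 S h2 => hμ col S h1 h2⟩

end Pool.Agent.Lib.MP_befe0b_co.BC
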