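import Pool.Agent.Lib.MP_befe0b_co.BC.LbGood
import Pool.Agent.Lib.MP_befe0b_co.BC.LbCopy

/-! The lower bound for the family of powers. -/

open Finset MvPolynomial
open scoped Classical

noncomputable section

namespace Pool.Agent.Lib.MP_befe0b_co.BC

theorem lower_prime {b : ℕ} (hb : 0 < b) (K n : ℕ) (hn : 2 * (2 * K + 2) ^ b ≤ n) :
    ∃ q : ℕ, q.Prime ∧ K ≤ q ∧ 2 * q ^ b ≤ n ∧ n ≤ (4 * q) ^ b := by
  have hex : ∃ m : ℕ, n < 2 * (2 * m + 2) ^ b :=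
    ⟨n, by have := Nat.le_self_pow hb.ne' (2 * n + 2); omega⟩
  have h1 := Nat.find_spec hex
  have h2 : K < Nat.find hex := by
    by_contra h
    have : (2 * Nat.find hex + 2) ^ b ≤ (2 * K + 2) ^ b := Nat.pow_le_pow_left (by omega) b
    omega
  obtain ⟨m, hm⟩ : ∃ m, Nat.find hex = m + 1 := ⟨Nat.find hex - 1, by omega⟩
  have h3 := Nat.find_min hex (m := m) (by omega)
  rw [hm] at h1 h2
  obtain ⟨q, hq, h4, h5⟩ := Nat.exists_prime_lt_and_le_two_mul (m + 1) (by omega)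
  refine ⟨q, hq, by omega, ?_, ?_⟩
  · have : q ^ b ≤ (2 * m + 2) ^ b := Nat.pow_le_pow_left (by omega) b
    omega
  · have h6 : (2 * (m + 1) + 2) ^ b ≤ (2 * q) ^ b := Nat.pow_le_pow_left (by omega) b
    have h7 : 2 ≤ 2 ^ b := Nat.le_self_pow hb.ne' 2
    have h8 : (4 * q) ^ b = 2 ^ b * (2 * q) ^ b := by
      rw [← mul_pow]
      congr 1
      ring
    have h9 := Nat.mul_le_mul_right ((2 * q) ^ b) h7
    omega

theorem lower_pull {W U V : Type} {T : SimpleGraph W} {H : SimpleGraph U} (e : U ↪ V)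
    (hiso : ∀ w, ∃ w', T.Adj w w') (φ : T.Copy (H.map e)) :
    ∃ ψ : T.Copy H, ∀ w, e (ψ w) = φ w := by
  have h : ∀ w, ∃ u, e u = φ w := fun w => by
    obtain ⟨w', hw⟩ := hiso w
    obtain ⟨u, -, -, h1, -⟩ := (SimpleGraph.map_adj e H _ _).1 (φ.toHom.map_rel hw)
    exact ⟨u, h1⟩
  choose g hg using h
  refine ⟨⟨⟨g, fun {w w'} hw => ?_⟩, fun w w' hw => φ.injective ?_⟩, hg⟩
  · have h1 : (H.map e).Adj (φ w) (φ w') := φ.toHom.map_rel hw
    rw [← hg, ← hg] at h1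
    exact SimpleGraph.map_adj_apply.1 h1
  · have h1 : g w = g w' := hw
    change φ w = φ w'
    rw [← hg, ← hg, h1]

open Filter in
theorem lower {W : Type} [Fintype W] (T : SimpleGraph W) (R : W → Prop) (a b : ℕ) (ha : 0 < a)
    (hb : 0 < b) (hab : a ≤ 2 * b) (hW : Nonempty W) (hiso : ∀ w, ∃ w', T.Adj w w')
    (hB : Bal T R a b) : ∃ (p : ℕ) (c : ℝ), 0 < c ∧ ∀ᶠ n : ℕ in atTop,
      ∃ G : SimpleGraph (Fin n), c * (n : ℝ) ^ (2 - (a : ℝ) / b) ≤ G.edgeSet.ncard ∧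
        ∀ φ : Fin p → T.Copy G, (∀ i j w, R w → φ i w = φ j w) → ¬ Function.Injective φ := by
  obtain ⟨μ, hμ⟩ := exists_Mt ha hW hB
  obtain ⟨t, ht⟩ : ∃ t, t = b * Fintype.card W + a + 1 := ⟨_, rfl⟩
  obtain ⟨D, hD⟩ : ∃ D, 2 * (t * (Fintype.card W * Fintype.card W)) + 3 ≤ D := ⟨_, le_rfl⟩
  obtain ⟨p, hp⟩ := no_copies T R a b D t
  obtain ⟨d, hd⟩ : ∃ d, 2 * b = a + d := Nat.exists_eq_add_of_le hab
  refine ⟨p, 1 / (2 * 4 ^ d), by positivity, ?_⟩
  filter_upwards [eventually_ge_atTop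
    (2 * (2 * (2 * 4 ^ Fintype.card W * (b * Fintype.card W) ^ t) + 2) ^ b)] with n hn
  obtain ⟨q, hq, h1, h2, h3⟩ := lower_prime hb _ n hn
  have : Fact q.Prime := ⟨hq⟩
  obtain ⟨f, hf, hE⟩ := exists_good (F := ZMod q) hB hμ ht hD (by rwa [ZMod.card])
  obtain ⟨e⟩ : Nonempty ((Fin b → ZMod q) ⊕ (Fin b → ZMod q) ↪ Fin n) :=
    Function.Embedding.nonempty_of_card_le (by
      simp only [Fintype.card_sum, Fintype.card_fun, ZMod.card, Fintype.card_fin]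
      omega)
  refine ⟨(Gf f).map e, ?_, fun φ hφ hinj => ?_⟩
  · rw [SimpleGraph.edgeSet_map, Set.ncard_image_of_injective _ e.sym2Map.injective]
    rw [ZMod.card, hd, pow_add, mul_assoc, mul_left_comm] at hE
    have h4 : (q : ℝ) ^ d ≤ 2 * (Gf f).edgeSet.ncard := by
      exact_mod_cast Nat.le_of_mul_le_mul_left hE (pow_pos hq.pos a)
    have hb' : (0 : ℝ) < b := by exact_mod_cast hb
    have h5 : (2 - (a : ℝ) / b) = d / b := by
      have : (2 * b : ℝ) = a + d := by exact_mod_cast hd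
      field_simp
      linarith
    have h6 : (n : ℝ) ^ (2 - (a : ℝ) / b) ≤ (4 * q) ^ d := by
      rw [h5]
      calc (n : ℝ) ^ ((d : ℝ) / b) ≤ ((4 * q : ℝ) ^ b) ^ ((d : ℝ) / b) :=
            Real.rpow_le_rpow (Nat.cast_nonneg _) (by exact_mod_cast h3) (by positivity)
        _ = (4 * q) ^ d := by
            rw [← Real.rpow_natCast, ← Real.rpow_mul (by positivity), mul_div_cancel₀ _ hb'.ne',
              Real.rpow_natCast]
    rw [mul_pow] at h6
    rw [one_div, inv_mul_le_iff₀ (by positivity)]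
    have h7 : (0 : ℝ) < 4 ^ d := by positivity
    nlinarith [mul_le_mul_of_nonneg_left h4 h7.le]
  · choose ψ hψ using fun i => lower_pull e hiso (φ i)
    refine hp (ZMod q) μ hμ f hf ψ (fun i j w hw => e.injective ?_) fun i j hij => hinj ?_
    · rw [hψ, hψ, hφ i j w hw]
    · ext w
      rw [← hψ, ← hψ, hij]

end Pool.Agent.Lib.MP_befe0b_co.BC
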