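import Pool.Agent.Lib.MP_befe0b_co.BC.Defs

/-! Regularisation with a real exponent. -/

open Finset
open scoped Classical

noncomputable section

namespace Pool.Agent.Lib.MP_befe0b_co.BC

variable {V : Type} [Fintype V] {G : SimpleGraph V}

omit [Fintype V] in
lemma rega_subset_sum (f : V → ℕ) (y L : ℕ) : ∀ S : Finset V, S.card ≤ L * y →
    ∃ Y ⊆ S, Y.card ≤ y ∧ ∑ x ∈ S, f x ≤ L * ∑ x ∈ Y, f x := by
  induction L with
  | zero =>
    intro S hS
    have : S = ∅ := Finset.card_eq_zero.1 (by omega)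
    exact ⟨∅, by simp, by simp, by simp [this]⟩
  | succ L ih =>
    intro S hS
    obtain ⟨Y1, hY1, hc⟩ := Finset.exists_subset_card_eq (s := S) (n := min y S.card)
      (min_le_right _ _)
    have hsd := Finset.card_sdiff_add_card_eq_card hY1
    obtain ⟨Y2, hY2, hc2, hs⟩ := ih (S \ Y1) (by rw [Nat.succ_mul] at hS; omega)
    have hsum := Finset.sum_sdiff (f := f) hY1
    rcases le_total (∑ x ∈ Y1, f x) (∑ x ∈ Y2, f x) with h | h
    · refine ⟨Y2, hY2.trans Finset.sdiff_subset, hc2, ?_⟩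
      rw [Nat.succ_mul]; omega
    · refine ⟨Y1, hY1, by omega, ?_⟩
      have := Nat.mul_le_mul_left L h
      rw [Nat.succ_mul]; omega

omit [Fintype V] in
lemma rega_dg_comap {U : Type} (G : SimpleGraph V) (e : U ↪ V) (S : Finset U) (x : U) :
    dg (G.comap e) S x = dg G (S.map e) (e x) := by
  rw [dg, dg, Finset.filter_map, Finset.card_map]
  congr 1

theorem reg [Nonempty V] (G : SimpleGraph V) {α D₀ : ℝ} (hα : 1 / 2 ≤ α) (hD₀ : 432 ≤ D₀)
    (hG : D₀ * (Fintype.card V : ℝ) ^ (1 + α) ≤ sg G univ) :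
    ∃ (T : Finset V) (d : ℝ),
      Host (G.comap (Function.Embedding.subtype (· ∈ T))) d (3456 * d) ∧
      D₀ / 8 * (T.card : ℝ) ^ α ≤ d := by
  let g : Finset V → ℝ := fun S => (sg G S : ℝ) / (S.card : ℝ) ^ (1 + α)
  obtain ⟨S0, hS0, hmax⟩ := Finset.exists_max_image
    (univ.filter fun S : Finset V => S.Nonempty) g ⟨univ, by simp⟩
  have hS0ne : S0.Nonempty := (Finset.mem_filter.1 hS0).2
  obtain ⟨m, hm⟩ : ∃ m : ℝ, m = (S0.card : ℝ) := ⟨_, rfl⟩
  have hm1 : 1 ≤ m := by rw [hm]; exact_mod_cast hS0ne.card_pos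
  have hm0 : 0 < m := by linarith
  obtain ⟨γ, hγ⟩ : ∃ γ : ℝ, γ = g S0 := ⟨_, rfl⟩
  obtain ⟨D, hD⟩ : ∃ D : ℝ, D = γ * m ^ α := ⟨_, rfl⟩
  have hma : 1 ≤ m ^ α := Real.one_le_rpow hm1 (by linarith)
  have hm1a : m ^ (1 + α) = m ^ α * m := by rw [Real.rpow_add hm0, Real.rpow_one, mul_comm]
  have hσ : (sg G S0 : ℝ) = D * m := by
    rw [hD, hγ]
    simp only [g]
    rw [← hm, hm1a]
    field_simp
  have hγ0 : D₀ ≤ γ := by
    rw [hγ]
    refine le_trans ?_ (hmax univ (by simp))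
    simp only [g]
    have : (0 : ℝ) < Fintype.card V := by exact_mod_cast Fintype.card_pos
    rw [le_div_iff₀ (by rw [Finset.card_univ]; positivity), Finset.card_univ]
    exact hG
  have hγp : 0 < γ := by linarith
  have hdens : ∀ S : Finset V, (sg G S : ℝ) ≤ γ * (S.card : ℝ) ^ (1 + α) := by
    intro S
    rcases S.eq_empty_or_nonempty with rfl | hS
    · simp only [sg, Finset.sum_empty, Nat.cast_zero]
      exact mul_nonneg hγp.le (Real.rpow_nonneg (Nat.cast_nonneg _) _)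
    · have h1 := hmax S (by simpa using hS)
      have h2 : (0 : ℝ) < S.card := by exact_mod_cast hS.card_pos
      rw [← hγ, div_le_iff₀ (Real.rpow_pos_of_pos h2 _)] at h1
      exact h1
  have hDD0 : D₀ ≤ D := by
    rw [hD]
    exact hγ0.trans (le_mul_of_one_le_right hγp.le hma)
  have hDp : 0 < D := by linarith
  have hDn : 0 ≤ D := hDp.le
  have hDm : D ≤ m := by
    refine le_of_mul_le_mul_right ?_ hm0
    rw [← hσ, hm]
    exact_mod_cast sg_le_sq S0
  have hLm : 432 ≤ S0.card := by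
    have : ((432 : ℕ) : ℝ) ≤ m := by push_cast; linarith
    rw [hm] at this
    exact_mod_cast this
  set X := S0.filter fun x => 432 * D < dg G S0 x with hX
  have hXS : X ⊆ S0 := Finset.filter_subset _ _
  have hXc : (432 : ℝ) * X.card ≤ m := by
    have h1 : X.card * (432 * D) ≤ (sg G S0 : ℝ) := by
      rw [← nsmul_eq_mul, ← Finset.sum_const, sg]
      push_cast
      exact (Finset.sum_le_sum fun x hx => (Finset.mem_filter.1 hx).2.le).trans
        (Finset.sum_le_sum_of_subset_of_nonneg hXS fun _ _ _ => Nat.cast_nonneg _)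
    rw [hσ] at h1
    refine le_of_mul_le_mul_left ?_ hDp
    linarith
  obtain ⟨Y, -, hYc, hYs⟩ := rega_subset_sum (dg G X) (S0.card / 432 + 1) 432 S0
    (Nat.lt_mul_div_succ _ (by norm_num)).le
  have hYc' : (432 : ℝ) * Y.card ≤ 2 * m := by
    have h1 : 432 * Y.card ≤ 2 * S0.card := by omega
    rw [hm]
    exact_mod_cast h1
  have hU : ((Y ∪ X).card : ℝ) ≤ m / 144 := by
    have h1 : ((Y ∪ X).card : ℝ) ≤ Y.card + X.card := by exact_mod_cast Finset.card_union_le _ _
    linarith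
  set E := ∑ x ∈ S0, dg G X x with hE
  have hE1 : (E : ℝ) ≤ 432 * sg G (Y ∪ X) := by
    exact_mod_cast hYs.trans (Nat.mul_le_mul_left 432 (sum_dg_le_sg_union Y X))
  have h144 : (1728 : ℝ) ≤ (144 : ℝ) ^ (1 + α) := by
    have h1 : (144 : ℝ) ^ (1 + (1 / 2 : ℝ)) ≤ (144 : ℝ) ^ (1 + α) :=
      Real.rpow_le_rpow_of_exponent_le (by norm_num) (by linarith)
    have h2 : (144 : ℝ) ^ (1 / 2 : ℝ) = 12 := by
      rw [← Real.sqrt_eq_rpow, show (144 : ℝ) = 12 ^ 2 by norm_num,
        Real.sqrt_sq (by norm_num)]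
    rw [Real.rpow_add (by norm_num), Real.rpow_one, h2] at h1
    linarith
  have hE2 : 4 * (E : ℝ) ≤ D * m := by
    have h1 : ((Y ∪ X).card : ℝ) ^ (1 + α) ≤ (m / 144) ^ (1 + α) :=
      Real.rpow_le_rpow (Nat.cast_nonneg _) hU (by linarith)
    have h2 : (m / 144) ^ (1 + α) ≤ m ^ α * m / 1728 := by
      rw [Real.div_rpow hm0.le (by norm_num), hm1a]
      exact div_le_div_of_nonneg_left (by positivity) (by norm_num) h144
    have h3 := (hdens (Y ∪ X)).trans (mul_le_mul_of_nonneg_left (h1.trans h2) hγp.le)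
    rw [hD]
    linarith
  have hS1 : D * m / 2 ≤ sg G (S0 \ X) := by
    have h1 : (sg G S0 : ℝ) ≤ sg G (S0 \ X) + 2 * E := by exact_mod_cast sg_sdiff_le hXS
    linarith
  let f : Finset V → ℝ := fun S => sg G S - 2 * (D / 8) * S.card
  obtain ⟨T, hT, hTmax⟩ := Finset.exists_max_image (S0 \ X).powerset f ⟨S0 \ X, by simp⟩
  have hTs : T ⊆ S0 \ X := Finset.mem_powerset.1 hT
  have hTS : T ⊆ S0 := hTs.trans Finset.sdiff_subset
  have hTm : (T.card : ℝ) ≤ m := by rw [hm]; exact_mod_cast Finset.card_le_card hTS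
  have hmap : (univ : Finset {x // x ∈ T}).map (Function.Embedding.subtype (· ∈ T)) = T := by
    ext x; simp
  have hnb : ∀ x : {x // x ∈ T},
      (nb (G.comap (Function.Embedding.subtype (· ∈ T))) x).card = dg G T x := by
    intro x
    have h1 := rega_dg_comap G (Function.Embedding.subtype (· ∈ T)) univ x
    rw [hmap] at h1
    rw [← show _ = dg G T x from h1, nb, dg]
  have hTne : T.Nonempty := by
    rw [Finset.nonempty_iff_ne_empty]
    rintro rfl
    have h1 := hTmax (S0 \ X) (by simp)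
    have h2 : ((S0 \ X).card : ℝ) ≤ m := by
      rw [hm]; exact_mod_cast Finset.card_le_card Finset.sdiff_subset
    simp only [f, sg, Finset.sum_empty, Finset.card_empty] at h1
    simp only [sg] at hS1
    have h3 := mul_le_mul_of_nonneg_left h2 hDn
    have h4 : 0 < D * m := by positivity
    push_cast at h1 hS1
    linarith
  refine ⟨T, D / 8, ⟨hTne.to_subtype, fun v => ?_, fun v => ?_⟩, ?_⟩
  · obtain ⟨x, hx⟩ := v
    rw [hnb]
    have h1 := hTmax (T.erase x) (Finset.mem_powerset.2 ((Finset.erase_subset x T).trans hTs))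
    simp only [f] at h1
    have h2 : (sg G T : ℝ) ≤ sg G (T.erase x) + 2 * dg G T x := by exact_mod_cast sg_erase_le hx
    rw [← Finset.card_erase_add_one hx] at h1
    push_cast at h1
    show D / 8 ≤ (dg G T x : ℝ)
    linarith
  · obtain ⟨x, hx⟩ := v
    rw [hnb]
    have h1 := Finset.mem_sdiff.1 (hTs hx)
    have h2 : (dg G S0 x : ℝ) ≤ 432 * D := not_lt.1 fun h => h1.2 (Finset.mem_filter.2 ⟨h1.1, h⟩)
    have h3 : (dg G T x : ℝ) ≤ dg G S0 x := by exact_mod_cast dg_mono hTS x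
    show (dg G T x : ℝ) ≤ 3456 * (D / 8)
    linarith
  · have h1 : (T.card : ℝ) ^ α ≤ m ^ α :=
      Real.rpow_le_rpow (Nat.cast_nonneg _) hTm (by linarith)
    have h2 : D₀ * (T.card : ℝ) ^ α ≤ γ * m ^ α :=
      mul_le_mul hγ0 h1 (Real.rpow_nonneg (Nat.cast_nonneg _) _) hγp.le
    rw [hD]
    linarith

end Pool.Agent.Lib.MP_befe0b_co.BC
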