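import Pool.Agent.Lib.MP_befe0b_co.BC.Select

/-! A robust class. -/

open Finset
open scoped Classical

noncomputable section

namespace Pool.Agent.Lib.MP_befe0b_co.BC

variable {V : Type} [Fintype V] {G : SimpleGraph V}

theorem Rob_prod {q : ℕ} (A : Fin q → Finset V) :
    ∑ z, ∏ i, dg G (A i) z = ∑ τ ∈ Fintype.piFinset A, (cn G (univ.image τ)).card := by
  have h1 : ∀ z, ∏ i, dg G (A i) z =
      ((Fintype.piFinset A).filter fun τ => z ∈ cn G (univ.image τ)).card := fun z => by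
    simp only [dg]
    rw [← Fintype.card_piFinset]
    congr 1
    ext τ
    simp [mem_cn, forall_and, G.adj_comm]
  have h2 : ∀ τ : Fin q → V, (cn G (univ.image τ)).card =
      (univ.filter fun z => z ∈ cn G (univ.image τ)).card := fun τ => by simp
  simp only [h1]
  rw [sum_congr rfl fun τ _ => h2 τ]
  simp only [card_filter]
  exact sum_comm

theorem Rob_deg {d D : ℝ} (hH : Host G d D) (hD : 0 < D) {A : Finset V} (hA : (A.card : ℝ) ≤ D) :
    ∑ z, (dg G A z : ℝ) ≤ D ^ 2 := by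
  have h1 : ∑ z, (dg G A z : ℝ) = ∑ y ∈ A, ((nb G y).card : ℝ) := by
    exact_mod_cast sum_dg_comm univ A
  calc _ = _ := h1
    _ ≤ ∑ _y ∈ A, D := sum_le_sum fun y _ => hH.hi y
    _ = A.card * D := by simp
    _ ≤ D ^ 2 := by nlinarith

theorem box {L h M : ℕ} {d D β : ℝ} (hH : Host G d D) (hD : 0 < D) (hL : L + 1 ≤ h) (hβ : 0 ≤ β)
    (A : Fin (h + 1) → Finset V) (hA : ∀ i, ((A i).card : ℝ) ≤ D)
    (hd : β * D ^ (h + 1) ≤ ((Fintype.piFinset A).filter fun τ =>
      M ≤ (cn G (univ.image τ)).card).card) :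
    ∃ i, FS G L D (M * β / (2 * (h + 1))) (A i) := by
  obtain ⟨k, rfl⟩ := Nat.exists_eq_add_of_le hL
  set x : Fin (L + 1 + k + 1) → V → ℝ := fun i z => dg G (A i) z with hx
  have x0 : ∀ i z, 0 ≤ x i z := fun i z => Nat.cast_nonneg _
  have xD : ∀ i z, x i z ≤ D := fun i z => le_trans (Nat.cast_le.2 (dg_le_card _ _)) (hA i)
  choose b hb using fun z => Finite.exists_max fun i => x i z
  set c : ℝ := M * β / 2 with hc
  have hc0 : 0 ≤ c := by positivity
  have tot : 2 * c * D ^ (L + 1 + k + 1) ≤ ∑ z, ∏ i, x i z := by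
    have h1 : ∑ z, ∏ i, x i z = ∑ τ ∈ Fintype.piFinset A, ((cn G (univ.image τ)).card : ℝ) := by
      simp only [hx]
      exact_mod_cast Rob_prod A
    have h2 := card_nsmul_le_sum ((Fintype.piFinset A).filter fun τ =>
      M ≤ (cn G (univ.image τ)).card) (fun τ => ((cn G (univ.image τ)).card : ℝ)) M
      fun τ hτ => by exact_mod_cast (mem_filter.1 hτ).2
    have h3 := sum_le_sum_of_subset_of_nonneg (f := fun τ => ((cn G (univ.image τ)).card : ℝ))
      (filter_subset (fun τ => M ≤ (cn G (univ.image τ)).card) (Fintype.piFinset A))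
      fun _ _ _ => Nat.cast_nonneg _
    have h4 := mul_le_mul_of_nonneg_right hd (Nat.cast_nonneg (α := ℝ) M)
    rw [nsmul_eq_mul] at h2
    rw [h1, hc]
    linarith
  set Gd := univ.filter fun z => c * D ^ (L + 1 + k) ≤ x (b z) z ^ (L + 1 + k) * D with hGd
  have pt : ∀ z, (∏ i, x i z) * D ≤ c * D ^ (L + 1 + k) * x 0 z +
      D ^ (L + 1 + k + 1) * if z ∈ Gd then x (b z) z else 0 := fun z => by
    split_ifs with hz
    · have h1 : ∏ j : Fin (L + 1 + k), x ((b z).succAbove j) z ≤ D ^ (L + 1 + k) :=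
        (prod_le_prod (fun j _ => x0 _ z) fun j _ => xD _ z).trans (by simp)
      have h2 := mul_le_mul_of_nonneg_left h1 (mul_nonneg (x0 (b z) z) hD.le)
      have h3 : 0 ≤ c * D ^ (L + 1 + k) * x 0 z := mul_nonneg (by positivity) (x0 0 z)
      rw [Fin.prod_univ_succAbove _ (b z), pow_succ D (L + 1 + k)]
      linarith
    · have h1 : ∏ j : Fin (L + 1 + k), x j.succ z ≤ x (b z) z ^ (L + 1 + k) :=
        (prod_le_prod (fun j _ => x0 _ z) fun j _ => hb z _).trans (by simp)
      have h2 := mul_le_mul_of_nonneg_left h1 (mul_nonneg (x0 0 z) hD.le)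
      have h3 : x (b z) z ^ (L + 1 + k) * D ≤ c * D ^ (L + 1 + k) := by
        simpa [hGd] using (not_le.1 (by simpa [hGd] using hz)).le
      have h4 := mul_le_mul_of_nonneg_left h3 (x0 0 z)
      rw [Fin.prod_univ_succ]
      linarith
  have good : c * D ≤ ∑ z ∈ Gd, x (b z) z := by
    have h1 := sum_le_sum fun z (_ : z ∈ univ) => pt z
    rw [← sum_mul, sum_add_distrib, ← mul_sum, ← mul_sum, sum_ite_mem, univ_inter] at h1
    have h2 := mul_le_mul_of_nonneg_left (Rob_deg hH hD (hA 0))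
      (show 0 ≤ c * D ^ (L + 1 + k) by positivity)
    have h3 := mul_le_mul_of_nonneg_right tot hD.le
    refine le_of_mul_le_mul_left ?_ (pow_pos hD (L + 1 + k + 1))
    rw [pow_succ D (L + 1 + k)] at h1 h3 ⊢
    simp only [hx] at h1 h3 ⊢
    nlinarith
  have hq : (0 : ℝ) < (L + 1 + k : ℕ) + 1 := by positivity
  obtain ⟨i, -, hi⟩ := exists_le_of_sum_le (s := univ) univ_nonempty
    (f := fun _ : Fin (L + 1 + k + 1) => M * β / (2 * (((L + 1 + k : ℕ) : ℝ) + 1)) * D)
    (g := fun i => ∑ z ∈ Gd.filter fun z => b z = i, x (b z) z) (by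
      rw [sum_fiberwise Gd b]
      refine le_trans (le_of_eq ?_) good
      rw [sum_const, card_univ, Fintype.card_fin, nsmul_eq_mul, hc, Nat.cast_add_one]
      field_simp)
  refine ⟨i, Gd.filter fun z => b z = i, fun z hz => ?_, hi.trans (le_of_eq
    (sum_congr rfl fun z hz => by rw [(mem_filter.1 hz).2]))⟩
  obtain ⟨hz', rfl⟩ := mem_filter.1 hz
  have h1 : c * D ^ (L + 1 + k) ≤ x (b z) z ^ (L + 1 + k) * D := (mem_filter.1 hz').2
  have h2 : x (b z) z ^ k ≤ D ^ k := pow_le_pow_left₀ (x0 _ _) (xD _ _) k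
  have h3 : c * D ^ L ≤ x (b z) z ^ (L + 1) := by
    refine le_of_mul_le_mul_right ?_ (pow_pos hD (k + 1))
    calc c * D ^ L * D ^ (k + 1) = c * D ^ (L + 1 + k) := by ring
      _ ≤ x (b z) z ^ (L + 1) * x (b z) z ^ k * D := by rw [← pow_add]; exact h1
      _ ≤ x (b z) z ^ (L + 1) * D ^ k * D := by have := x0 (b z) z; gcongr
      _ = _ := by ring
  refine le_trans (mul_le_mul_of_nonneg_right ?_ (by positivity)) h3
  rw [hc]
  have : (0 : ℝ) ≤ (L + 1 + k : ℕ) := Nat.cast_nonneg _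
  exact div_le_div_of_nonneg_left (by positivity) two_pos (by linarith)

theorem Rob_count {h M : ℕ} (C : Fin (h + 1) → Finset V) (i : Fin (h + 1)) :
    ((Fintype.piFinset C).filter fun τ => M ≤ (cn G (univ.image τ)).card).card =
      ∑ s ∈ C i, (lk G M (Fintype.piFinset fun j => C (i.succAbove j)) s).card := by
  have im : ∀ τ : Fin (h + 1) → V,
      univ.image τ = insert (τ i) (univ.image fun j => τ (i.succAbove j)) := fun τ => by
    ext v
    simp only [mem_image, mem_univ, true_and, mem_insert, Fin.exists_iff_succAbove i, eq_comm]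
  rw [card_eq_sum_card_fiberwise (f := fun τ => τ i) (t := C i) fun τ hτ =>
    Fintype.mem_piFinset.1 (mem_filter.1 (mem_coe.1 hτ)).1 i]
  refine sum_congr rfl fun s hs => card_nbij' (fun τ j => τ (i.succAbove j))
    (fun σ => Fin.insertNth i s σ) (fun τ hτ => ?_) (fun σ hσ => ?_) (fun τ hτ => ?_) fun σ _ => ?_
  · simp only [coe_filter, mem_filter, Fintype.mem_piFinset, Set.mem_ofPred_eq] at hτ
    obtain ⟨⟨h1, h2⟩, rfl⟩ := hτ
    exact mem_coe.2 (mem_lk.2 ⟨Fintype.mem_piFinset.2 fun j => h1 _, by rwa [im] at h2⟩)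
  · obtain ⟨h1, h2⟩ := mem_lk.1 (mem_coe.1 hσ)
    simp only [coe_filter, mem_filter, Fintype.mem_piFinset, Set.mem_ofPred_eq]
    refine ⟨⟨(Fin.forall_iff_succAbove i).2 ⟨by simpa using hs, fun j => ?_⟩, ?_⟩, by simp⟩
    · simpa using Fintype.mem_piFinset.1 h1 j
    · rw [im]
      simpa [Hv] using h2
  · obtain ⟨-, rfl⟩ := mem_filter.1 (mem_coe.1 hτ)
    exact Fin.insertNth_self_removeNth i τ
  · funext j
    simp

theorem Rob_base {h M : ℕ} {D β : ℝ} (hD : 0 < D) (hβ : 0 < β) (hβ1 : β ≤ 1) {A : Finset V}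
    (hA : (A.card : ℝ) ≤ D) {T : Finset (Fin h → V)} (hT : ∀ τ ∈ T, ∀ j, τ j ∈ A)
    (hd : β * D ^ (h + 1) ≤ (∑ s ∈ A, (lk G M T s).card : ℕ)) :
    Base G M D (β / 2) A (T.filter fun τ => β / 2 * D ≤ (A.filter fun s => Hv G M s τ).card) := by
  refine ⟨by positivity, by linarith, hA, fun τ hτ => hT τ (mem_filter.1 hτ).1, ?_,
    fun τ hτ => (mem_filter.1 hτ).2⟩
  set T' := T.filter fun τ => β / 2 * D ≤ (A.filter fun s => Hv G M s τ).card with hT'
  have h1 : ∑ s ∈ A, (lk G M T s).card = ∑ τ ∈ T, (A.filter fun s => Hv G M s τ).card := by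
    simp only [lk, card_filter]
    exact sum_comm
  have h2 : (T.card : ℝ) ≤ D ^ h := by
    have h3 : T.card ≤ A.card ^ h := (card_le_card (t := Fintype.piFinset fun _ : Fin h => A)
      fun τ hτ => Fintype.mem_piFinset.2 (hT τ hτ)).trans (by simp)
    exact le_trans (by exact_mod_cast h3) (pow_le_pow_left₀ (Nat.cast_nonneg _) hA h)
  have h3 : ∀ τ ∈ T, ((A.filter fun s => Hv G M s τ).card : ℝ) ≤
      β / 2 * D + if β / 2 * D ≤ (A.filter fun s => Hv G M s τ).card then D else 0 := by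
    intro τ _
    have : ((A.filter fun s => Hv G M s τ).card : ℝ) ≤ D :=
      le_trans (by exact_mod_cast card_filter_le _ _) hA
    have h0 : 0 ≤ β / 2 * D := by positivity
    split_ifs with hτ <;> linarith
  have h4 := sum_le_sum h3
  rw [sum_add_distrib, ← sum_filter, ← hT', sum_const, sum_const, nsmul_eq_mul, nsmul_eq_mul] at h4
  rw [h1, Nat.cast_sum, pow_succ] at hd
  have h5 := mul_le_mul_of_nonneg_right h2 (show 0 ≤ β / 2 * D by positivity)
  exact le_of_mul_le_mul_right (by linarith) hD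

theorem robust {L h M : ℕ} {d D ε : ℝ} (hH : Host G d D) (hD : 0 < D) (hL : L + 1 ≤ h)
    (g : ℝ → ℝ) (hg : ∀ x, 0 < x → 0 < g x ∧ g x ≤ x) (hε : 0 < ε) {A : Finset V}
    (hA : (A.card : ℝ) ≤ D) (hd : ε * D ^ (h + 1) ≤ hx G (h + 1) M A) :
    ∃ u ≤ h, ∃ Lk : Finset (Fin h → V),
      Rob G L M D (M * g^[h + 1] ε / (2 * (h + 1))) (g^[u] ε / 2) (g (g^[u] ε)) A Lk := by
  have hb : ∀ u, 0 < g^[u] ε ∧ g^[u] ε ≤ ε := fun u => by
    induction u with
    | zero => exact ⟨hε, le_rfl⟩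
    | succ u ih =>
      rw [Function.iterate_succ_apply']
      exact ⟨(hg _ ih.1).1, (hg _ ih.1).2.trans ih.2⟩
  have hε1 : ε ≤ 1 := by
    refine le_of_mul_le_mul_right (hd.trans ?_) (pow_pos hD (h + 1))
    rw [one_mul]
    exact le_trans (by exact_mod_cast hx_le _ _ _) (pow_le_pow_left₀ (Nat.cast_nonneg _) hA _)
  by_contra hn
  have key : ∀ u ≤ h + 1, ∃ C : Fin (h + 1) → Finset V, (∀ i, C i ⊆ A) ∧
      (∀ i : Fin (h + 1), u ≤ i → C i = A) ∧
      (∀ i : Fin (h + 1), i < u → ¬ FS G L D (M * g^[h + 1] ε / (2 * (h + 1))) (C i)) ∧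
      g^[u] ε * D ^ (h + 1) ≤
        ((Fintype.piFinset C).filter fun τ => M ≤ (cn G (univ.image τ)).card).card := by
    intro u
    induction u with
    | zero => exact fun _ => ⟨fun _ => A, fun _ => Subset.rfl, fun _ _ => rfl, by simp, hd⟩
    | succ u ih =>
      intro hu
      obtain ⟨C, c1, c2, c3, c4⟩ := ih (by omega)
      obtain ⟨i, rfl⟩ : ∃ i : Fin (h + 1), i.val = u := ⟨⟨u, hu⟩, rfl⟩
      rw [Rob_count C i, c2 i le_rfl] at c4
      have hB := Rob_base hD (hb i).1 ((hb i).2.trans hε1) hA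
        (fun τ hτ j => c1 _ (Fintype.mem_piFinset.1 hτ j)) c4
      by_contra hc
      refine hn ⟨i, by omega, _, hB, fun A' hA' a b ha hb' hab h1 h2 => ?_⟩
      by_contra hF
      refine hc ⟨Function.update C i A', fun j => ?_, fun j hj => ?_, fun j hj => ?_, ?_⟩
      · by_cases hj : j = i
        · simpa [hj] using hA'
        · simpa [hj] using c1 j
      · rw [Function.update_of_ne (by rintro rfl; omega)]
        exact c2 j (by omega)
      · by_cases hj' : j = i
        · simpa [hj'] using hF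
        · rw [Function.update_of_ne hj']
          exact c3 j (by have := Fin.val_ne_of_ne hj'; omega)
      · rw [Rob_count _ i, Function.iterate_succ_apply', Nat.cast_sum]
        simp only [Function.update_self, Function.update_of_ne (Fin.succAbove_ne i _)]
        refine le_trans ?_ (card_nsmul_le_sum A' _ (b * D ^ h) fun s hs => (h2 s hs).trans
          (Nat.cast_le.2 (card_le_card (filter_subset_filter _ (filter_subset _ _)))))
        rw [nsmul_eq_mul]
        calc _ ≤ a * b * D ^ (h + 1) := by gcongr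
          _ = a * D * (b * D ^ h) := by ring
          _ ≤ _ := by gcongr
  obtain ⟨C, c1, -, c3, c4⟩ := key (h + 1) le_rfl
  obtain ⟨i, hi⟩ := box hH hD hL (hb _).1.le C
    (fun i => le_trans (by exact_mod_cast card_le_card (c1 i)) hA) c4
  exact c3 i i.2 hi

end Pool.Agent.Lib.MP_befe0b_co.BC
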