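import Pool.Agent.Lib.MP_befe0b_co.BC.TDefs

/-! Greedy choices along a tree. -/

open Finset
open scoped Classical

noncomputable section

namespace Pool.Agent.Lib.MP_befe0b_co.BC

variable {W : Type} [Fintype W] {T : SimpleGraph W} {R : Finset W} {o : W} {par tg : W → W}
  {rk : W → ℕ} {V : Type} [Fintype V] {G : SimpleGraph V}

theorem tree_chain {ι β : Type} [Nonempty β] (Y : Finset ι) (pr : ι → ι) (rn : ι → ℕ) (o' : ι)
    (hrn : ∀ v ∈ Y, v ≠ o' → pr v ∈ Y ∧ rn (pr v) < rn v) (I : ι → β → Prop)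
    (Rl : ι → β → β → Prop) (us : ι → β → Finset V) (b : ℕ) (hus : ∀ v x, (us v x).card ≤ b)
    (h0 : ∃ x, I o' x)
    (step : ∀ v ∈ Y, v ≠ o' → ∀ y, I (pr v) y → ∀ Q : Finset V, Q.card ≤ Y.card * b →
      ∃ x, I v x ∧ Rl v y x ∧ Disjoint (us v x) Q) :
    ∃ x : ι → β, (∀ v ∈ Y, I v (x v)) ∧ (∀ v ∈ Y, v ≠ o' → Rl v (x (pr v)) (x v)) ∧
      ∀ v ∈ Y, ∀ v' ∈ Y, v ≠ v' → Disjoint (us v (x v)) (us v' (x v')) := by
  have key : ∀ (n : ℕ) (Z : Finset ι), Z.card = n → Z ⊆ Y → (∀ v ∈ Z, v ≠ o' → pr v ∈ Z) →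
      ∃ x : ι → β, (∀ v ∈ Z, I v (x v)) ∧ (∀ v ∈ Z, v ≠ o' → Rl v (x (pr v)) (x v)) ∧
        ∀ v ∈ Z, ∀ v' ∈ Z, v ≠ v' → Disjoint (us v (x v)) (us v' (x v')) := by
    intro n
    induction n using Nat.strong_induction_on with
    | _ n ih =>
    intro Z hn hZ hcl
    rcases (Z.erase o').eq_empty_or_nonempty with he | hne
    · have ho : ∀ v ∈ Z, v = o' := fun v hv => by
        by_contra h
        have : v ∈ Z.erase o' := mem_erase.2 ⟨h, hv⟩
        rw [he] at this
        exact notMem_empty _ this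
      obtain ⟨x₀, hx₀⟩ := h0
      exact ⟨fun _ => x₀, fun v hv => (ho v hv).symm ▸ hx₀, fun v hv h => absurd (ho v hv) h,
        fun v hv v' hv' h => absurd ((ho v hv).trans (ho v' hv').symm) h⟩
    · obtain ⟨v, hv, hmax⟩ := exists_max_image _ rn hne
      obtain ⟨hvo, hvZ⟩ := mem_erase.1 hv
      have hpv : ∀ u ∈ Z, u ≠ o' → pr u ≠ v := fun u hu huo e => by
        have h1 := (hrn u (hZ hu) huo).2
        have h2 := hmax u (mem_erase.2 ⟨huo, hu⟩)
        rw [e] at h1
        omega
      have hcl' : ∀ u ∈ Z, u ≠ o' → pr u ∈ Z.erase v := fun u hu huo =>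
        mem_erase.2 ⟨hpv u hu huo, hcl u hu huo⟩
      obtain ⟨x, hI, hR, hD⟩ := ih (Z.erase v).card (hn ▸ card_erase_lt_of_mem hvZ) (Z.erase v) rfl
        ((erase_subset _ _).trans hZ) fun u hu huo => hcl' u (mem_of_mem_erase hu) huo
      have hQ : ((Z.erase v).biUnion fun u => us u (x u)).card ≤ Y.card * b :=
        (card_biUnion_le_card_mul _ _ b fun u _ => hus u (x u)).trans
          (Nat.mul_le_mul_right _ (card_le_card ((erase_subset _ _).trans hZ)))
      obtain ⟨y, hy1, hy2, hy3⟩ := step v (hZ hvZ) hvo (x (pr v)) (hI _ (hcl' v hvZ hvo)) _ hQ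
      have hy4 : ∀ u ∈ Z, u ≠ v → Disjoint (us v y) (us u (x u)) := fun u hu huv =>
        hy3.mono_right (subset_biUnion_of_mem (fun u => us u (x u)) (mem_erase.2 ⟨huv, hu⟩))
      refine ⟨Function.update x v y, fun u hu => ?_, fun u hu huo => ?_, fun u hu u' hu' h => ?_⟩
      · by_cases e : u = v
        · subst e
          rw [Function.update_self]
          exact hy1
        · rw [Function.update_of_ne e]
          exact hI u (mem_erase.2 ⟨e, hu⟩)
      · rw [Function.update_of_ne (hpv u hu huo)]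
        by_cases e : u = v
        · subst e
          rw [Function.update_self]
          exact hy2
        · rw [Function.update_of_ne e]
          exact hR u (mem_erase.2 ⟨e, hu⟩) huo
      · by_cases e : u = v
        · subst e
          rw [Function.update_self, Function.update_of_ne (Ne.symm h)]
          exact hy4 u' hu' (Ne.symm h)
        · by_cases e' : u' = v
          · subst e'
            rw [Function.update_self, Function.update_of_ne e]
            exact (hy4 u hu e).symm
          · rw [Function.update_of_ne e, Function.update_of_ne e']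
            exact hD u (mem_erase.2 ⟨e, hu⟩) u' (mem_erase.2 ⟨e', hu'⟩) h
  exact key _ Y rfl Subset.rfl fun v hv h => (hrn v hv h).1

theorem inj_choice {ι : Type} [Nonempty V] (Y : Finset ι) (C : ι → Finset V) (Q : Finset V)
    (h : ∀ v ∈ Y, Q.card + Y.card ≤ (C v).card) :
    ∃ f : ι → V, (∀ v ∈ Y, f v ∈ C v ∧ f v ∉ Q) ∧ ∀ v ∈ Y, ∀ v' ∈ Y, f v = f v' → v = v' := by
  induction Y using Finset.induction_on with
  | empty => exact ⟨fun _ => Classical.arbitrary V, by simp, by simp⟩
  | insert a Y ha ih =>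
    rw [card_insert_of_notMem ha] at h
    obtain ⟨f, h1, h2⟩ := ih fun v hv => by
      have := h v (mem_insert_of_mem hv)
      omega
    have hlt : (Q ∪ Y.image f).card < (C a).card := by
      have h3 := card_union_le Q (Y.image f)
      have h4 := card_image_le (s := Y) (f := f)
      have h5 := h a (mem_insert_self _ _)
      omega
    obtain ⟨z, hz1, hz2⟩ := exists_mem_notMem_of_card_lt_card hlt
    rw [mem_union, not_or] at hz2
    have hne : ∀ v ∈ Y, v ≠ a := fun v hv e => ha (e ▸ hv)
    have hz3 : ∀ v ∈ Y, f v ≠ z := fun v hv e => hz2.2 (mem_image.2 ⟨v, hv, e⟩)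
    refine ⟨Function.update f a z, fun v hv => ?_, fun v hv v' hv' e => ?_⟩
    · rcases mem_insert.1 hv with rfl | hv
      · rw [Function.update_self]
        exact ⟨hz1, hz2.1⟩
      · rw [Function.update_of_ne (hne v hv)]
        exact h1 v hv
    · rcases mem_insert.1 hv with h3 | h3 <;> rcases mem_insert.1 hv' with h4 | h4
      · rw [h3, h4]
      · rw [h3, Function.update_self, Function.update_of_ne (hne v' h4)] at e
        exact absurd e.symm (hz3 v' h4)
      · rw [h4, Function.update_self, Function.update_of_ne (hne v h3)] at e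
        exact absurd e (hz3 v h3)
      · rw [Function.update_of_ne (hne v h3), Function.update_of_ne (hne v' h4)] at e
        exact h2 v h3 v' h4 e

end Pool.Agent.Lib.MP_befe0b_co.BC
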