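import Pool.Agent.Lib.MP_befe0b_co.BC.TShare

/-! Combs realise every rational density from five halves on. -/

open Finset
open scoped Classical

noncomputable section

namespace Pool.Agent.Lib.MP_befe0b_co.BC

/-- The vertices of a comb. -/
abbrev TCombV (M : ℕ) (t : ℕ → ℕ) : Type := Fin (M + 1) ⊕ Fin M ⊕ (Σ i : Fin (M + 1), Fin (t i))

/-- The parent map of a comb. -/
def tcombPr {M : ℕ} {t : ℕ → ℕ} : TCombV M t → TCombV M t
  | .inl i => Fin.cases (.inl 0) (fun j => .inr (.inl j)) i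
  | .inr (.inl j) => .inl j.castSucc
  | .inr (.inr z) => .inl z.1

/-- A function on the vertices of a comb, given on the three kinds. -/
def tcombF {M : ℕ} {t : ℕ → ℕ} {α : Type} (f g h : ℕ → α) : TCombV M t → α
  | .inl i => f i
  | .inr (.inl j) => g j
  | .inr (.inr z) => h z.1

theorem tcomb_two {α : Type} {s : Set α} (a b : α) (h : s ⊆ {a, b}) : s.ncard ≤ 2 :=
  (Set.ncard_le_ncard h (Set.toFinite _)).trans
    ((Set.ncard_insert_le a {b}).trans (by rw [Set.ncard_singleton]))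

theorem tcomb_one {α : Type} {s : Set α} (a : α) (h : s ⊆ {a}) : s.ncard ≤ 1 :=
  (Set.ncard_le_ncard h (Set.toFinite _)).trans (by rw [Set.ncard_singleton])

theorem tcomb_cases {M : ℕ} {t : ℕ → ℕ} {P : TCombV M t → Prop} (h0 : P (.inl 0))
    (h1 : ∀ j : Fin M, P (.inl j.succ)) (h2 : ∀ j, P (.inr (.inl j)))
    (h3 : ∀ z, P (.inr (.inr z))) (v : TCombV M t) : P v := by
  rcases v with i | j | z
  · exact Fin.cases h0 h1 i
  · exact h2 j
  · exact h3 z

theorem tcomb_rn {M : ℕ} {t : ℕ → ℕ} (v : TCombV M t) : v ≠ .inl 0 →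
    tcombF (fun i => 2 * i) (fun i => 2 * i + 1) (fun i => 2 * i + 1) (tcombPr v) <
      tcombF (fun i => 2 * i) (fun i => 2 * i + 1) (fun i => 2 * i + 1) v := by
  induction v using tcomb_cases with
  | h0 => exact fun h => absurd rfl h
  | h1 j => intro _; simp only [tcombPr, Fin.cases_succ, tcombF, Fin.val_succ]; omega
  | h2 j => intro _; simp [tcombPr, tcombF]
  | h3 z => intro _; simp [tcombPr, tcombF]

theorem tcomb_tame {M : ℕ} {t : ℕ → ℕ} {L a : ℕ} (h1 : L ≤ a) (h2 : a ≤ L + 1) (h3 : 2 ≤ a) :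
    Tame (SimpleGraph.fromRel fun u v : TCombV M t => u ≠ .inl 0 ∧ tcombPr u = v)
      (tcombF (fun _ => a) (fun _ => L) fun _ => L + 1) L {v | v.isRight} := by
  have hc : ∀ u : TCombV M t, u ≠ .inl 0 → (u.isRight ↔ ¬ (tcombPr u).isRight) := fun u => by
    induction u using tcomb_cases with
    | h0 => exact fun h => absurd rfl h
    | h1 j => simp [tcombPr]
    | h2 j => simp [tcombPr]
    | h3 z => simp [tcombPr]
  have hx : ∀ (j : Fin M) (u : TCombV M t),
      (SimpleGraph.fromRel fun u v : TCombV M t => u ≠ .inl 0 ∧ tcombPr u = v).Adj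
        (.inr (.inl j)) u → u = .inl j.castSucc ∨ u = .inl j.succ := fun j u h => by
    rcases ((SimpleGraph.fromRel_adj _ _ _).1 h).2 with h | h
    · exact Or.inl h.2.symm
    · induction u using tcomb_cases with
      | h0 => exact absurd rfl h.1
      | h1 i =>
        have := h.2
        simp only [tcombPr, Fin.cases_succ, Sum.inr.injEq, Sum.inl.injEq] at this
        exact Or.inr (by rw [this])
      | h2 i => simp [tcombPr] at h
      | h3 z => simp [tcombPr] at h
  have hz : ∀ z (u : TCombV M t),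
      (SimpleGraph.fromRel fun u v : TCombV M t => u ≠ .inl 0 ∧ tcombPr u = v).Adj
        (.inr (.inr z)) u → u = .inl z.1 := fun z u h => by
    rcases ((SimpleGraph.fromRel_adj _ _ _).1 h).2 with h | h
    · exact h.2.symm
    · induction u using tcomb_cases with
      | h0 => exact absurd rfl h.1
      | h1 i => simp [tcombPr] at h
      | h2 i => simp [tcombPr] at h
      | h3 z => simp [tcombPr] at h
  refine ⟨tree_of_par _ _ _ tcomb_rn, fun u v h => ?_, fun v => ?_, fun v hv => ?_, fun v _ => ?_,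
    fun v => ?_⟩
  · rcases ((SimpleGraph.fromRel_adj _ _ _).1 h).2 with ⟨k, rfl⟩ | ⟨k, rfl⟩
    · exact hc u k
    · have := hc v k
      simp only [Set.mem_ofPred_eq]
      tauto
  · rcases v with i | j | z <;> simp [tcombF, h2]
  · rcases v with i | j | z
    · simp at hv
    · exact Nat.add_le_add_left (tcomb_two _ _ (hx j)) _
    · exact Nat.add_le_add_left (tcomb_one _ (hz z)) (L + 1)
  · rcases v with i | j | z <;> simp [tcombF, h1]
  · rcases v with i | j | z
    · refine (tcomb_two (tcombPr (.inl i))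
        (if h : i.1 < M then .inr (.inl ⟨i.1, h⟩) else .inl 0) fun u hu => ?_).trans h3
      rcases ((SimpleGraph.fromRel_adj _ _ _).1 hu.1).2 with h | h
      · exact Or.inl h.2.symm
      · induction u using tcomb_cases with
        | h0 => exact absurd rfl h.1
        | h1 i => simp [tcombPr] at h
        | h2 j =>
          have := h.2
          simp only [tcombPr, Sum.inl.injEq] at this
          subst this
          exact Or.inr (by simp)
        | h3 z => exact absurd hu.2 (Nat.not_succ_le_self L)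
    · by_cases h : a ≤ L
      · exact (tcomb_two _ _ fun u hu => hx j u hu.1).trans (h3.trans h)
      · rw [Set.eq_empty_of_forall_notMem (s := {u | _ ∧ _}) fun u hu => ?_, Set.ncard_empty]
        · exact Nat.zero_le _
        · rcases hx j u hu.1 with rfl | rfl <;> exact h hu.2
    · exact (tcomb_one _ fun u hu => hz z u hu.1).trans (Nat.le_add_left 1 L)

theorem tcomb_thin {M : ℕ} {t : ℕ → ℕ} {L a : ℕ} {g ρ : ℝ} {w : ℕ → ℝ} (hg : 0 ≤ g) (hg1 : g ≤ 1)
    (hρ : ρ = L + 2 - g) (hw : ∀ i, 0 ≤ w i ∧ w i ≤ 1) (hM : w (M + 1) = 0)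
    (h0 : a + g * (w 1 + t 0) = ρ) (hs : ∀ i, a + g * (1 - w (i + 1) + w (i + 2) + t (i + 1)) = ρ) :
    Thin (SimpleGraph.fromRel fun u v : TCombV M t => u ≠ .inl 0 ∧ tcombPr u = v)
      (tcombF (fun _ => a) (fun _ => L) fun _ => L + 1) ρ ∧
      ρ * Fintype.card (TCombV M t) = (Fintype.card (TCombV M t) - 1 +
        ∑ v : TCombV M t, tcombF (fun _ => a) (fun _ => L) (fun _ => L + 1) v : ℕ) := by
  have hy : ∀ i : Fin (M + 1), ∑ j : Fin M, (if j.castSucc = i then g * w (j + 1) else 0) =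
      g * w (i + 1) := fun i => by
    have := Fin.sum_univ_castSucc fun j : Fin (M + 1) => if j = i then g * w (j + 1) else 0
    simp only [Fin.val_last, hM, mul_zero, ite_self, add_zero, sum_ite_eq', mem_univ,
      if_true, Fin.val_castSucc] at this
    exact this.symm
  refine thin_of_share _ _ _ tcomb_rn _ ρ
    (tcombF (fun i => g * (1 - w i)) (fun j => 1 - g * w (j + 1)) fun _ => 1 - g)
    (fun v => ?_) fun v => ?_
  · rcases v with i | j | z <;> simp only [tcombF]
    · obtain ⟨k1, k2⟩ := hw i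
      constructor <;> nlinarith
    · obtain ⟨k1, k2⟩ := hw (j + 1)
      constructor <;> nlinarith
    · constructor <;> linarith
  · rw [sum_filter, Fintype.sum_sum_type, Fintype.sum_sum_type, Fin.sum_univ_succ,
      Fintype.sum_sigma]
    induction v using tcomb_cases with
    | h0 =>
      have := hy 0
      simp [tcombPr, tcombF] at this ⊢
      simp only [this]
      linarith
    | h1 j =>
      have := hy j.succ
      have h := hs j
      simp [tcombPr, tcombF] at this ⊢
      simp only [this]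
      linarith
    | h2 j =>
      simp [tcombPr, tcombF]
      linarith
    | h3 z =>
      simp [tcombPr, tcombF]
      linarith

theorem tcomb_main {L a : ℕ} (h1 : L ≤ a) (h2 : a ≤ L + 1) (h3 : 2 ≤ a) {g ρ : ℚ} (hg : 0 < g)
    (hg1 : g ≤ 1) (hg2 : 2 * g ≤ L + 2 - a) (hρ : ρ = L + 2 - g) :
    ∃ (ι : Type) (_ : Fintype ι) (U : SimpleGraph ι) (κ : ι → ℕ) (L : ℕ) (X : Set ι),
      Tame U κ L X ∧ Thin U κ ρ ∧
        (ρ : ℝ) * Fintype.card ι = (Fintype.card ι - 1 + ∑ v, κ v : ℕ) := by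
  obtain ⟨μ, hμ⟩ : ∃ μ : ℚ, μ = (L + 2 - a) / g - 2 := ⟨_, rfl⟩
  have m0 : 0 ≤ μ := by rw [hμ, sub_nonneg, le_div_iff₀ hg]; exact hg2
  have m1 : a + g * (μ + 1) = ρ := by rw [hμ, hρ]; field_simp; ring
  obtain ⟨M, hM⟩ : ∃ M, μ.den = M + 1 := Nat.exists_eq_succ_of_ne_zero μ.den_nz
  let t : ℕ → ℕ := fun i => (⌊μ * (i + 1 : ℕ)⌋ - ⌊μ * i⌋).toNat + if i = 0 then 1 else 0
  have ht : ∀ i : ℕ, (t i : ℚ) = μ + Int.fract (μ * i) - Int.fract (μ * (i + 1 : ℕ)) +
      if i = 0 then 1 else 0 := fun i => by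
    have h : ⌊μ * i⌋ ≤ ⌊μ * (i + 1 : ℕ)⌋ :=
      Int.floor_le_floor (mul_le_mul_of_nonneg_left (by push_cast; linarith) m0)
    have e : (((⌊μ * (i + 1 : ℕ)⌋ - ⌊μ * i⌋).toNat : ℕ) : ℚ) =
        (⌊μ * (i + 1 : ℕ)⌋ : ℚ) - (⌊μ * i⌋ : ℚ) := by
      rw [← Int.cast_natCast, Int.toNat_of_nonneg (sub_nonneg.2 h), Int.cast_sub]
    simp only [t, Nat.cast_add _ (if i = 0 then 1 else 0), e, Int.fract]
    push_cast
    ring
  refine ⟨TCombV M t, inferInstance, _, _, L, _, tcomb_tame h1 h2 h3,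
    tcomb_thin (g := g) (w := fun i => (Int.fract (μ * i) : ℚ)) (by exact_mod_cast hg.le)
      (by exact_mod_cast hg1) (by exact_mod_cast hρ) (fun i => ?_) ?_ ?_ fun i => ?_⟩
  · exact ⟨by exact_mod_cast Int.fract_nonneg _, by exact_mod_cast (Int.fract_lt_one _).le⟩
  · simp only [← hM, Rat.mul_den_eq_num, Int.fract_intCast, Rat.cast_zero]
  · have h := ht 0
    simp only [Nat.cast_zero, mul_zero, Int.fract_zero, if_true, zero_add] at h
    have : a + g * (Int.fract (μ * (1 : ℕ)) + t 0) = ρ := by rw [h, ← m1]; ring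
    exact_mod_cast this
  · have h := ht (i + 1)
    rw [if_neg (Nat.succ_ne_zero i)] at h
    have : a + g * (1 - Int.fract (μ * (i + 1 : ℕ)) + Int.fract (μ * (i + 2 : ℕ)) + t (i + 1)) =
        ρ := by rw [h, ← m1]; ring
    exact_mod_cast this

theorem comb_exists (ρ : ℚ) (hρ : 5 / 2 ≤ ρ) :
    ∃ (ι : Type) (_ : Fintype ι) (U : SimpleGraph ι) (κ : ι → ℕ) (L : ℕ) (X : Set ι),
      Tame U κ L X ∧ Thin U κ ρ ∧
        (ρ : ℝ) * Fintype.card ι = (Fintype.card ι - 1 + ∑ v, κ v : ℕ) := by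
  rcases lt_or_ge ρ 3 with h | h
  · exact tcomb_main (L := 1) (a := 2) (g := 3 - ρ) (by norm_num) le_rfl le_rfl (by linarith)
      (by linarith) (by push_cast; linarith) (by push_cast; ring)
  · have h3 : 3 ≤ ⌊ρ⌋₊ := Nat.le_floor (by exact_mod_cast h)
    obtain ⟨L, hL⟩ : ∃ L, ⌊ρ⌋₊ = L + 1 := ⟨⌊ρ⌋₊ - 1, by omega⟩
    have k1 := Nat.floor_le (show 0 ≤ ρ by linarith)
    have k2 := Nat.lt_floor_add_one ρ
    rw [hL] at k1 k2
    push_cast at k1 k2
    exact tcomb_main (L := L) (a := L) (g := L + 2 - ρ) le_rfl (Nat.le_succ L) (by omega)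
      (by linarith) (by linarith) (by linarith) (by ring)

end Pool.Agent.Lib.MP_befe0b_co.BC
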