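import Pool.Agent.Lib.MP_befe0b_co.BC.TDefs

/-! From trees to parent maps. -/

open Finset
open scoped Classical

noncomputable section

namespace Pool.Agent.Lib.MP_befe0b_co.BC

variable {ι : Type} [Fintype ι] {U : SimpleGraph ι} {κ : ι → ℕ}

/-- The roots. -/
def rts (κ : ι → ℕ) : Finset (ι ⊕ (Σ s : ι, Fin (κ s))) := univ.filter fun x => ∃ r, x = .inr r

theorem mem_rts {x : ι ⊕ (Σ s : ι, Fin (κ s))} : x ∈ rts κ ↔ ∃ r, x = .inr r := by simp [rts]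

omit [Fintype ι] in
theorem tconv_par (h : U.IsTree) (o : ι) : ∃ (pr : ι → ι) (rk : ι → ℕ),
    (∀ x y, U.Adj x y ↔ (x ≠ o ∧ pr x = y) ∨ (y ≠ o ∧ pr y = x)) ∧
      ∀ x, x ≠ o → rk (pr x) < rk x := by
  choose P hP hP' using h.connected.exists_path_of_dist o
  have key : ∀ v w, U.Adj v w → w ∈ (P v).support →
      (v ≠ o ∧ (P v).penultimate = w) ∧ (P w).length < (P v).length := fun v w ha hw => by
    have e := h.isAcyclic.path_concat (hP w) (hP v) ha.symm hw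
    have e1 : (P w).length < (P v).length := by rw [e, SimpleGraph.Walk.length_concat]; omega
    refine ⟨⟨fun e2 => ?_, (h.isAcyclic.eq_penultimate_of_adj_end (hP v) ha hw).symm⟩, e1⟩
    rw [hP' v, e2, SimpleGraph.dist_self] at e1
    omega
  have adj : ∀ x, x ≠ o → U.Adj x (P x).penultimate := fun x hx =>
    ((P x).adj_penultimate (SimpleGraph.Walk.not_nil_of_ne hx.symm)).symm
  refine ⟨fun x => (P x).penultimate, fun x => (P x).length, fun x y => ⟨fun ha => ?_, ?_⟩,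
    fun x hx => (key x _ (adj x hx) (SimpleGraph.Walk.getVert_mem_support _ _)).2⟩
  · by_cases hy : y ∈ (P x).support
    · exact Or.inl (key x y ha hy).1
    · exact Or.inr (key y x ha.symm (h.isAcyclic.mem_support_of_ne_mem_support_of_adj_of_isPath
        (hP y) (hP x) ha.symm hy)).1
  · rintro (⟨h1, rfl⟩ | ⟨h1, rfl⟩)
    exacts [adj x h1, (adj y h1).symm]

theorem tconv_inv (S : Set ι) (n : ℕ) (h : S.ncard ≤ n) : ∃ g : Fin n → Option ι,
    (∀ l u, g l = some u → u ∈ S) ∧ (∀ l l' u, g l = some u → g l' = some u → l = l') ∧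
      ∀ u ∈ S, ∃ l, g l = some u := by
  obtain ⟨f⟩ : Nonempty (S ↪ Fin n) := Function.Embedding.nonempty_of_card_le (by
    rwa [Fintype.card_fin, ← Nat.card_eq_fintype_card, Nat.card_coe_set_eq])
  have hf := f.injective.isPartialInv
  refine ⟨fun l => (Function.partialInv f l).map Subtype.val, fun l u e => ?_,
    fun l l' u e e' => ?_, fun u hu => ⟨f ⟨u, hu⟩, by simp only [(hf ⟨u, hu⟩ _).2 rfl]; rfl⟩⟩
  · obtain ⟨a, -, rfl⟩ := Option.map_eq_some_iff.1 e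
    exact a.2
  · obtain ⟨a, h1, rfl⟩ := Option.map_eq_some_iff.1 e
    obtain ⟨b, h2, h3⟩ := Option.map_eq_some_iff.1 e'
    rw [← (hf _ _).1 h1, ← (hf _ _).1 h2, Subtype.ext h3]

omit [Fintype ι] in
theorem tconv_ll {a b : ι} : (tw U κ).Adj (.inl a) (.inl b) ↔ U.Adj a b := by
  simp only [tw, SimpleGraph.fromRel_adj]
  constructor
  · rintro ⟨-, (⟨s, s', h1, h2, h3⟩ | ⟨s, l, -, h2⟩) | (⟨s, s', h1, h2, h3⟩ | ⟨s, l, -, h2⟩)⟩
    · cases h1; cases h2; exact h3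
    · cases h2
    · cases h1; cases h2; exact h3.symm
    · cases h2
  · exact fun h => ⟨fun e => h.ne (Sum.inl.inj e), Or.inl (Or.inl ⟨a, b, rfl, rfl, h⟩)⟩

omit [Fintype ι] in
theorem tconv_lr {a : ι} {r : Σ s : ι, Fin (κ s)} :
    (tw U κ).Adj (.inl a) (.inr r) ↔ r.1 = a := by
  simp only [tw, SimpleGraph.fromRel_adj]
  constructor
  · rintro ⟨-, (⟨s, s', -, h2, -⟩ | ⟨s, l, h1, h2⟩) | (⟨s, s', h1, -, -⟩ | ⟨s, l, h1, -⟩)⟩
    · cases h2
    · cases h1; cases h2; rfl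
    · cases h1
    · cases h1
  · rintro rfl
    exact ⟨Sum.inl_ne_inr, Or.inl (Or.inr ⟨r.1, r.2, rfl, rfl⟩)⟩

omit [Fintype ι] in
theorem tconv_rr {r r' : Σ s : ι, Fin (κ s)} : ¬ (tw U κ).Adj (.inr r) (.inr r') := by
  simp only [tw, SimpleGraph.fromRel_adj]
  rintro ⟨-, (⟨s, s', h1, -⟩ | ⟨s, l, h1, -⟩) | (⟨s, s', h1, -⟩ | ⟨s, l, h1, -⟩)⟩ <;> cases h1

theorem tconv_inl {a : ι} : (.inl a : ι ⊕ (Σ s : ι, Fin (κ s))) ∉ rts κ := by simp [mem_rts]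

theorem tconv_inr {r : Σ s : ι, Fin (κ s)} : (.inr r : ι ⊕ (Σ s : ι, Fin (κ s))) ∈ rts κ :=
  mem_rts.2 ⟨r, rfl⟩

theorem tconv_not {x : ι ⊕ (Σ s : ι, Fin (κ s))} (h : x ∉ rts κ) : ∃ a, x = .inl a := by
  cases x with
  | inl a => exact ⟨a, rfl⟩
  | inr r => exact absurd tconv_inr h

/-- The parent map with the roots added. -/
def tconvPar (κ : ι → ℕ) (pr : ι → ι) : ι ⊕ (Σ s : ι, Fin (κ s)) → ι ⊕ (Σ s : ι, Fin (κ s)) :=
  Sum.elim (fun v => .inl (pr v)) fun r => .inl r.1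

theorem tconv_lgs (pr : ι → ι) (s : ι) : (lgs (rts κ) (tconvPar κ pr) (.inl s)).card = κ s := by
  have e : lgs (rts κ) (tconvPar κ pr) (.inl s)
      = univ.image fun l : Fin (κ s) => (.inr ⟨s, l⟩ : ι ⊕ (Σ s : ι, Fin (κ s))) := by
    ext x
    rw [mem_lgs, mem_rts, mem_image]
    constructor
    · rintro ⟨⟨⟨t, l⟩, rfl⟩, h⟩
      cases h
      exact ⟨l, mem_univ _, rfl⟩
    · rintro ⟨l, -, rfl⟩
      exact ⟨⟨_, rfl⟩, rfl⟩
  rw [e, card_image_of_injective _ fun l l' h => by simpa using h, card_univ, Fintype.card_fin]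

theorem tconv_lgs' (pr : ι → ι) (r : Σ s : ι, Fin (κ s)) :
    (lgs (rts κ) (tconvPar κ pr) (.inr r)).card = 0 := by
  rw [card_eq_zero, eq_empty_iff_forall_notMem]
  intro x hx
  obtain ⟨h1, h2⟩ := mem_lgs.1 hx
  obtain ⟨t, rfl⟩ := mem_rts.1 h1
  cases h2

theorem tconv_eA {o : ι} {pr : ι → ι} {rk : ι → ℕ} (hadj : ∀ x, x ≠ o → U.Adj x (pr x))
    (hlt : ∀ x, x ≠ o → rk (pr x) < rk x) {ρ : ℝ} (h : Thin U κ ρ)
    (A : Finset (ι ⊕ (Σ s : ι, Fin (κ s)))) (hA : ∀ x ∈ A, x ∉ rts κ) :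
    (eA (rts κ) (.inl o) (tconvPar κ pr) A : ℝ) ≤ ρ * A.card := by
  obtain ⟨J, rfl⟩ : ∃ J : Finset ι, A = J.image .inl := by
    refine ⟨univ.filter fun v => .inl v ∈ A, ?_⟩
    ext x
    rw [mem_image]
    constructor
    · intro hx
      obtain ⟨a, rfl⟩ := tconv_not (hA x hx)
      exact ⟨a, mem_filter.2 ⟨mem_univ _, hx⟩, rfl⟩
    · rintro ⟨a, ha, rfl⟩
      exact (mem_filter.1 ha).2
  have hJ : ∀ v, (.inl v : ι ⊕ (Σ s : ι, Fin (κ s))) ∈ J.image .inl → v ∈ J := fun v hv => by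
    obtain ⟨a, ha, e⟩ := mem_image.1 hv
    exact Sum.inl.inj e ▸ ha
  rw [card_image_of_injective _ Sum.inl_injective]
  refine le_trans (Nat.cast_le.2 ?_) (h J)
  have h1 : (J.filter fun v => v ≠ o ∧ pr v ∈ J).card
      ≤ (U.induce (J : Set ι)).edgeSet.ncard := by
    rw [← Set.ncard_coe_finset]
    refine (Set.ncard_le_ncard_of_injOn (fun v => s(v, pr v)) (fun v hv => ?_)
      (fun v hv w hw e => ?_) (Set.toFinite _)).trans
      (Set.ncard_image_le (f := Sym2.map Subtype.val) (Set.toFinite _))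
    · obtain ⟨a, b, c⟩ := mem_filter.1 (mem_coe.1 hv)
      exact ⟨s(⟨v, a⟩, ⟨pr v, c⟩), hadj v b, rfl⟩
    · rcases Sym2.eq_iff.1 e with e | e
      · exact e.1
      · have a := hlt v (mem_filter.1 (mem_coe.1 hv)).2.1
        have b := hlt w (mem_filter.1 (mem_coe.1 hw)).2.1
        rw [e.2] at a
        rw [← e.1] at b
        omega
  have h2 : (J.sigma fun s => (univ : Finset (Fin (κ s)))).card = ∑ v ∈ J, κ v := by
    simp [card_sigma]
  refine (card_le_card (t := (J.filter fun v => v ≠ o ∧ pr v ∈ J).image .inl ∪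
    (J.sigma fun s => (univ : Finset (Fin (κ s)))).image .inr) fun y hy => ?_).trans
    ((card_union_le _ _).trans (add_le_add (card_image_le.trans h1) (card_image_le.trans h2.le)))
  simp only [mem_filter, mem_univ, true_and] at hy
  obtain ⟨a, b, c⟩ := hy
  cases y with
  | inl v =>
    exact mem_union_left _ (mem_image_of_mem _ (mem_filter.2
      ⟨hJ v (b.resolve_right tconv_inl), fun e => a (e ▸ rfl), hJ _ c⟩))
  | inr r => exact mem_union_right _ (mem_image_of_mem _ (mem_sigma.2 ⟨hJ _ c, mem_univ _⟩))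

theorem tconv_main {L : ℕ} {X : Set ι} (h : Tame U κ L X) {o : ι} (ho : o ∉ X) :
    ∃ (o : ι ⊕ (Σ s : ι, Fin (κ s))) (par tg : ι ⊕ (Σ s : ι, Fin (κ s)) → ι ⊕ (Σ s : ι, Fin (κ s)))
      (rk : ι ⊕ (Σ s : ι, Fin (κ s)) → ℕ) (X' : ι ⊕ (Σ s : ι, Fin (κ s)) → Prop),
      Tr (tw U κ) (rts κ) o par rk ∧ Fold (tw U κ) (rts κ) par L tg ∧ Cut (rts κ) o par L X' ∧
      ∀ ρ : ℝ, Thin U κ ρ → ∀ A : Finset (ι ⊕ (Σ s : ι, Fin (κ s))), (∀ x ∈ A, x ∉ rts κ) →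
        (eA (rts κ) o par A : ℝ) ≤ ρ * A.card := by
  obtain ⟨pr, rk, hadj, hlt⟩ := tconv_par h.tree o
  have hpr : ∀ x, x ≠ o → U.Adj x (pr x) := fun x hx => (hadj _ _).2 (Or.inl ⟨hx, rfl⟩)
  choose g g1 g2 g3 using fun s => tconv_inv _ _ (h.fold s)
  have ne : ∀ {v : ι}, (.inl v : ι ⊕ (Σ s : ι, Fin (κ s))) ≠ .inl o → v ≠ o :=
    fun hv e => hv (e ▸ rfl)
  have tgs : ∀ r : Σ s : ι, Fin (κ s), (g r.1 r.2).elim (.inr r) .inl ∉ rts κ →
      ∃ u, g r.1 r.2 = some u := fun r hr => by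
    cases e : g r.1 r.2 with
    | none => rw [e] at hr; exact absurd tconv_inr hr
    | some u => exact ⟨u, rfl⟩
  have par2 : ∀ v, v ≠ o → pr v ∈ X → pr (pr v) ∈ U.neighborSet (pr v) ∧ v ≠ pr (pr v) :=
    fun v hv hx => by
      have e : pr v ≠ o := fun e => ho (e ▸ hx)
      refine ⟨hpr _ e, fun e' => ?_⟩
      have a := hlt v hv
      have b := hlt _ e
      rw [← e'] at b
      omega
  refine ⟨.inl o, tconvPar κ pr, Sum.elim .inl fun r => (g r.1 r.2).elim (.inr r) .inl,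
    Sum.elim rk fun r => rk r.1 + 1, Sum.elim (· ∈ X) fun _ => False,
    ⟨fun x y => ?_, fun x hx => ?_, tconv_inl, fun x _ => ?_⟩,
    ⟨fun u s s' hs hs' hne h1 h2 => ?_, fun r hr h1 => ?_, fun r hr r' hr' h1 h2 h3 => ?_,
      fun s u hs hu h1 h2 => ?_⟩,
    ⟨ho, fun x hx h1 => ?_, fun s => ?_, fun y hy h1 h2 => ?_,
      fun y y' hy hy' h1 h1' h2 h3 => ?_⟩, fun ρ hρ => tconv_eA hpr hlt hρ⟩
  · cases x <;> cases y
    · simp [tconv_ll, hadj, tconvPar]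
    · simp [tconv_lr, tconvPar]
    · simp [(tw U κ).adj_comm, tconv_lr, tconvPar]
    · simp [tconv_rr, tconvPar]
  · cases x with
    | inl v => exact hlt v (ne hx)
    | inr r => exact Nat.lt_succ_self _
  · cases x <;> exact tconv_inl
  · obtain ⟨a, rfl⟩ := tconv_not hs
    obtain ⟨b, rfl⟩ := tconv_not hs'
    cases u with
    | inl v =>
      rw [tconv_lgs]
      exact h.low v ((Set.one_lt_ncard (Set.toFinite _)).2
        ⟨a, tconv_ll.1 h1, b, tconv_ll.1 h2, fun e => hne (e ▸ rfl)⟩)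
    | inr r => exact absurd ((tconv_lr.1 h1.symm).symm.trans (tconv_lr.1 h2.symm) ▸ rfl) hne
  · obtain ⟨r, rfl⟩ := mem_rts.1 hr
    obtain ⟨u, e⟩ := tgs r h1
    simp only [Sum.elim_inr, e]
    exact tconv_ll.2 (g1 _ _ _ e).1
  · obtain ⟨⟨s, l⟩, rfl⟩ := mem_rts.1 hr
    obtain ⟨⟨s', l'⟩, rfl⟩ := mem_rts.1 hr'
    cases h1
    obtain ⟨u, e⟩ := tgs _ h3
    obtain ⟨u', e'⟩ := tgs ⟨s, l'⟩ (by
      simp only [Sum.elim_inr] at h2 h3
      rwa [h2] at h3)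
    simp only [Sum.elim_inr, e, e'] at h2
    cases h2
    rw [g2 s l l' u e e']
  · obtain ⟨a, rfl⟩ := tconv_not hs
    obtain ⟨b, rfl⟩ := tconv_not hu
    rw [tconv_lgs] at h2
    obtain ⟨l, e⟩ := g3 a b ⟨tconv_ll.1 h1, h2⟩
    exact ⟨.inr ⟨a, l⟩, tconv_inr, rfl, by simp only [Sum.elim_inr, e]; rfl⟩
  · obtain ⟨a, rfl⟩ := tconv_not hx
    exact h.col _ _ (hpr a (ne h1))
  · cases s with
    | inl v => rw [tconv_lgs]; exact h.top v
    | inr r => rw [tconv_lgs']; omega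
  · obtain ⟨v, rfl⟩ := tconv_not hy
    obtain ⟨a, b⟩ := par2 v (ne h1) h2
    have c := (Set.one_lt_ncard (Set.toFinite (U.neighborSet (pr v)))).2
      ⟨v, (hpr v (ne h1)).symm, _, a, b⟩
    have d := h.cut _ h2
    have e := tconv_lgs (κ := κ) pr (pr v)
    exact e.trans_le (by omega)
  · obtain ⟨v, rfl⟩ := tconv_not hy
    obtain ⟨w, rfl⟩ := tconv_not hy'
    have e : pr v = pr w := Sum.inl.inj h3
    have h2' : pr v ∈ X := h2
    obtain ⟨a, b⟩ := par2 v (ne h1) h2'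
    obtain ⟨-, b'⟩ := par2 w (ne h1') (e ▸ h2')
    by_contra hn
    have c := (Set.two_lt_ncard (Set.toFinite (U.neighborSet (pr v)))).2
      ⟨v, (hpr v (ne h1)).symm, w, e ▸ (hpr w (ne h1')).symm, _, a, fun e => hn (e ▸ rfl), b,
        e ▸ b'⟩
    have d := h.cut _ h2'
    have d' := h.low (pr v) (by omega)
    omega

theorem Tame.conv {L : ℕ} {X : Set ι} (h : Tame U κ L X) :
    ∃ (o : ι ⊕ (Σ s : ι, Fin (κ s))) (par tg : ι ⊕ (Σ s : ι, Fin (κ s)) → ι ⊕ (Σ s : ι, Fin (κ s)))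
      (rk : ι ⊕ (Σ s : ι, Fin (κ s)) → ℕ) (X' : ι ⊕ (Σ s : ι, Fin (κ s)) → Prop),
      Tr (tw U κ) (rts κ) o par rk ∧ Fold (tw U κ) (rts κ) par L tg ∧ Cut (rts κ) o par L X' ∧
      ∀ ρ : ℝ, Thin U κ ρ → ∀ A : Finset (ι ⊕ (Σ s : ι, Fin (κ s))), (∀ x ∈ A, x ∉ rts κ) →
        (eA (rts κ) o par A : ℝ) ≤ ρ * A.card := by
  by_cases hX : ∃ o, o ∉ X
  · obtain ⟨o, ho⟩ := hX
    exact tconv_main h ho
  · obtain ⟨o⟩ := h.tree.connected.nonempty
    push Not at hX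
    exact tconv_main (X := ∅) (o := o) ⟨h.tree, fun u v ha => absurd (hX v) ((h.col u v ha).1 (hX u)),
      h.top, fun v hv => absurd hv (Set.notMem_empty v), h.low, h.fold⟩ (Set.notMem_empty o)

end Pool.Agent.Lib.MP_befe0b_co.BC
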