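import Pool.Agent.Lib.MP_befe0b_co.BC.TChain

/-! Embedding a tree when heavy stars are dense. -/

open Finset
open scoped Classical

noncomputable section

namespace Pool.Agent.Lib.MP_befe0b_co.BC

variable {W : Type} [Fintype W] {T : SimpleGraph W} {R : Finset W} {o : W} {par tg : W → W}
  {rk : W → ℕ} {V : Type} [Fintype V] {G : SimpleGraph V}

theorem THeavy_y {L M p P z : ℕ} {D b γ : ℝ} {A A₀ S Q : Finset V} {YY : Finset (Fin L → V)}
    (hb : 0 < b) (hP0 : 0 < P) (hP : 2 * p ≤ b * P) (hD : 0 < D) (H : Two G M D b A A₀ YY)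
    (s1 : Sup G 1 (fun _ => L + 1) D γ (z + (L + 1 + P)) A₀) (hS : S ⊆ A₀) (h1 : γ * D ≤ S.card)
    (hQ : Q.card ≤ z) : ∃ f : ℕ → V, (∀ l < L + 1 + p, f l ∉ Q) ∧ (∀ t < p, f (L + 1 + t) ∈ S) ∧
      (∀ l < L + 1 + p, ∀ l' < L + 1 + p, f l = f l' → l = l') ∧
      (∀ t < p, ∀ l < L + 1, G.Adj (f (L + 1 + t)) (f l)) ∧
      b / 2 ^ (P + 1) * D ^ (L + 1) ≤
        ((A₀ ×ˢ YY).filter fun y => ∀ t < p, Hv2 G M (f (L + 1 + t)) y.1 y.2).card := by
  obtain ⟨φ, f1, f2⟩ := (s1 S hS h1 Q (by omega)).step (L + 1) P p (fun _ _ => le_rfl) (by omega)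
    (A₀ ×ˢ YY) (β := b) (N := D ^ (L + 1))
    (fun c => (A₀ ×ˢ YY).filter fun y => Hv2 G M (c 0) y.1 y.2) hb hP0 hP (by positivity) (by
      rw [card_product, Nat.cast_mul, pow_succ']
      exact mul_le_mul H.card₀ H.cardY (Nat.cast_nonneg _) hD.le)
    fun c hc => ⟨filter_subset _ _, H.link _ hc.2⟩
  have ix : ∀ l < L + 1 + p, (0, l) ∈ Ix 1 (fun _ => L + 1) (L + 1) p := fun l hl =>
    mem_Ix.2 ⟨one_pos, hl, lt_or_ge _ _⟩
  refine ⟨fun l => φ (0, l), fun l hl => f1.av _ (ix l hl), fun t ht => (f1.sp t ht).ok.1,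
    fun l hl l' hl' e => (Prod.mk.inj (f1.inj (mem_coe.2 (ix l hl)) (mem_coe.2 (ix l' hl')) e)).2,
    fun t ht l hl => (f1.sp t ht).leg 0 one_pos l hl,
    f2.trans (Nat.cast_le.2 (card_le_card fun y hy => ?_))⟩
  have h2 := (@mem_filter _ _ (_) _ _).1 hy
  exact (@mem_filter _ _ (_) _ _).2 ⟨h2.1, fun t ht => (mem_filter.1 (h2.2 t ht)).2⟩

theorem THeavy_x {L M p z : ℕ} {D b b' : ℝ} {A A₀ Q : Finset V} {YY : Finset (Fin L → V)}
    (hb : 0 < b') (hD : 0 < D) (H : Two G M D b A A₀ YY) (c : ℕ → V)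
    (h1 : b' * D ^ (L + 1) ≤ ((A₀ ×ˢ YY).filter fun y => ∀ t < p, Hv2 G M (c t) y.1 y.2).card)
    (hQ : Q.card ≤ z) (h2 : 2 * ((L + 1 : ℝ) * (L + z)) < b' * D) :
    ∃ (f : ℕ → V) (S : Finset V), (∀ l < L + 1, f l ∉ Q) ∧ S ⊆ A₀ ∧ b' / 2 * D ≤ S.card ∧
      (∀ l < L + 1, ∀ l' < L + 1, f l = f l' → l = l') ∧ f L ∈ S ∧
      ∀ s ∈ S, ∀ t < p, Hv2 G M (c t) s fun i : Fin L => f i := by
  have hz : (Q.card : ℝ) ≤ z := Nat.cast_le.2 hQ
  have hL : (0 : ℝ) ≤ L := Nat.cast_nonneg _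
  have hq : (0 : ℝ) ≤ Q.card := Nat.cast_nonneg _
  obtain ⟨Y, y1, y2, y3⟩ := W3_pick Q hD hb H.card H.card₀ H.sub
    (fun s Y => ∀ t < p, Hv2 G M (c t) s Y)
    (h1.trans (Nat.cast_le.2 (card_le_card fun y hy =>
      (@mem_filter _ _ (_) _ _).2 ((@mem_filter _ _ (_) _ _).1 hy)))) (by nlinarith)
  obtain ⟨S, hS⟩ : ∃ S : Finset V, ∀ s, s ∈ S ↔ s ∈ A₀ ∧ ∀ t < p, Hv2 G M (c t) s Y :=
    ⟨A₀.filter fun s => ∀ t < p, Hv2 G M (c t) s Y, fun _ => mem_filter⟩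
  have y4 : b' / 2 * D ≤ S.card := y3.trans (Nat.cast_le.2 (card_le_card fun s hs =>
    (hS s).2 ((@mem_filter _ _ (_) _ _).1 hs)))
  have y5 : (Q ∪ univ.image Y).card < S.card := by
    have a1 : (Q ∪ univ.image Y).card ≤ z + L :=
      (card_union_le _ _).trans (add_le_add hQ (card_image_le.trans (by simp)))
    have a2 : ((z + L : ℕ) : ℝ) < S.card := by
      push_cast
      nlinarith
    exact a1.trans_lt (Nat.cast_lt.1 a2)
  obtain ⟨s, s1, s2⟩ := exists_mem_notMem_of_card_lt_card y5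
  have s3 : ∀ i, Y i ≠ s := fun i e =>
    s2 (mem_union_right _ (e ▸ mem_image_of_mem _ (mem_univ i)))
  refine ⟨fun l => if h : l < L then Y ⟨l, h⟩ else s, S, fun l _ => ?_, fun s hs => ((hS s).1 hs).1,
    y4, fun l hl l' hl' e => ?_, by simpa using s1, fun s' hs' t ht => ?_⟩
  · simp only
    split_ifs
    · exact y2 _
    · exact fun h => s2 (mem_union_left _ h)
  · simp only at e
    split_ifs at e with a a' a'
    · exact congrArg Fin.val (y1 e)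
    · exact absurd e (s3 _)
    · exact absurd e.symm (s3 _)
    · omega
  · simpa using ((hS s').1 hs').2 t ht

omit [Fintype W] in
theorem THeavy_idx (R : Finset W) (par : W → W) : ∃ idx : W → ℕ,
    (∀ r ∈ R, idx r < (lgs R par (par r)).card) ∧
      ∀ r ∈ R, ∀ r' ∈ R, par r = par r' → idx r = idx r' → r = r' := by
  obtain ⟨ix, hx⟩ : ∃ ix : W → W → ℕ, ∀ s r (h : r ∈ lgs R par s),
      ix s r = (lgs R par s).equivFin ⟨r, h⟩ :=
    ⟨fun s r => if h : r ∈ lgs R par s then (lgs R par s).equivFin ⟨r, h⟩ else 0,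
      fun s r h => dif_pos h⟩
  refine ⟨fun r => ix (par r) r, fun r hr => ?_, fun r hr r' hr' e e' => ?_⟩
  · simp only [hx _ r (mem_lgs.2 ⟨hr, rfl⟩)]
    exact Fin.is_lt _
  · simp only at e'
    rw [e, hx _ r (mem_lgs.2 ⟨hr, e⟩), hx _ r' (mem_lgs.2 ⟨hr', rfl⟩)] at e'
    exact congrArg Subtype.val ((lgs R par (par r')).equivFin.injective (Fin.ext e'))

theorem THeavy_fin {L M m : ℕ} {X : W → Prop} (hT : Tr T R o par rk) (hC : Cut R o par L X)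
    (hM : m + 2 * Fintype.card W ≤ M) (f : W → ℕ → V) (S : W → Finset V)
    (h1 : ∀ v, v ∉ R → ∀ v', v' ∉ R → ∀ l l', (l < L + 1 ∨ ¬ X v ∧ l < L + 1 + (m + 1)) →
      (l' < L + 1 ∨ ¬ X v' ∧ l' < L + 1 + (m + 1)) → f v l = f v' l' → v = v' ∧ l = l')
    (h2 : ∀ v, v ∉ R → ¬ X v → ∀ t < m + 1, ∀ l < L + 1, G.Adj (f v (L + 1 + t)) (f v l))
    (h3 : ∀ v, v ∉ R → v ≠ o → ¬ X v → ∀ t < m + 1, f v (L + 1 + t) ∈ S (par v))
    (h4 : ∀ v, v ∉ R → X v → f v L ∈ S v ∧ ∀ s ∈ S v, ∀ t < m + 1,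
      Hv2 G M (f (par v) (L + 1 + t)) s fun i : Fin L => f v i) : Gl T R G m := by
  obtain ⟨idx, i1, i2⟩ := THeavy_idx R par
  have i3 : ∀ r ∈ R, idx r < L + 1 := fun r hr => (i1 r hr).trans_le (hC.top _)
  have pR : ∀ r ∈ R, par r ∉ R := fun r hr => hT.leaf r (hT.ne hr)
  refine ⟨fun r => f (par r) (idx r), fun r hr r' hr' e => ?_, fun Q hQ => ?_⟩
  · obtain ⟨a, b⟩ := h1 _ (pR r hr) _ (pR r' hr') _ _ (Or.inl (i3 r hr)) (Or.inl (i3 r' hr')) e
    exact i2 r hr r' hr' a b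
  obtain ⟨t, ht, hq⟩ : ∃ t < m + 1, ∀ v, v ∉ R → ¬ X v → f v (L + 1 + t) ∉ Q := by
    by_contra hc
    simp only [not_exists, not_and, not_forall, not_not] at hc
    have : Nonempty W := ⟨o⟩
    choose! g g1 g2 g3 using hc
    have := card_le_card_of_injOn (s := range (m + 1)) (t := Q) (fun t => f (g t) (L + 1 + t))
      (fun t ht => g3 t (mem_range.1 ht)) fun t ht t' ht' e => by
        have a := mem_range.1 (mem_coe.1 ht)
        have b := mem_range.1 (mem_coe.1 ht')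
        have := (h1 _ (g1 t a) _ (g1 t' b) _ _ (Or.inr ⟨g2 t a, by omega⟩)
          (Or.inr ⟨g2 t' b, by omega⟩) e).2
        omega
    rw [card_range] at this
    omega
  have hc : ∀ x, ∃ C : Finset V, x ∉ R → X x → M ≤ C.card ∧ ∀ c ∈ C,
      G.Adj c (f (par x) (L + 1 + t)) ∧
      (∀ y, y ∉ R → y ≠ o → par y = x → G.Adj (f y (L + 1 + t)) c) ∧
      ∀ r ∈ R, par r = x → G.Adj (f x (idx r)) c := fun x => by
    by_cases a : x ∉ R ∧ X x
    swap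
    · exact ⟨∅, fun b c => absurd ⟨b, c⟩ a⟩
    have leg : ∀ s c, c ∈ cn G (insert (f (par x) (L + 1 + t))
        (insert s (univ.image fun i : Fin L => f x i))) → ∀ l < L, G.Adj (f x l) c :=
      fun s c hc l hl => mem_cn.1 hc _ (mem_insert_of_mem (mem_insert_of_mem
        (mem_image.2 ⟨⟨l, hl⟩, mem_univ _, rfl⟩)))
    by_cases b : ∃ y, y ∉ R ∧ y ≠ o ∧ par y = x
    · obtain ⟨y, y1, y2, rfl⟩ := b
      have y3 : ¬ X y := fun h => (hC.col y y1 y2).1 h a.2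
      refine ⟨_, fun _ _ => ⟨(h4 _ a.1 a.2).2 _ (h3 y y1 y2 y3 t ht) t ht, fun c hc =>
        ⟨(mem_cn.1 hc _ (mem_insert_self _ _)).symm, fun y' z1 z2 z3 => ?_, fun r hr e => ?_⟩⟩⟩
      · rw [← hC.uni y y' y1 z1 y2 z2 a.2 z3.symm]
        exact mem_cn.1 hc _ (mem_insert_of_mem (mem_insert_self _ _))
      · exact leg _ c hc _ ((e ▸ i1 r hr).trans_le (hC.mid y y1 y2 a.2))
    · refine ⟨_, fun _ _ => ⟨(h4 _ a.1 a.2).2 _ (h4 _ a.1 a.2).1 t ht, fun c hc =>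
        ⟨(mem_cn.1 hc _ (mem_insert_self _ _)).symm, fun y z1 z2 z3 => absurd ⟨y, z1, z2, z3⟩ b,
          fun r hr _ => ?_⟩⟩⟩
      rcases (Nat.lt_succ_iff.1 (i3 r hr)).eq_or_lt with e | e
      · rw [e]
        exact mem_cn.1 hc _ (mem_insert_of_mem (mem_insert_self _ _))
      · exact leg _ c hc _ e
  choose C hC' using hc
  have : Nonempty V := ⟨f o 0⟩
  obtain ⟨g, g1, g2⟩ := inj_choice (univ.filter fun x => x ∉ R ∧ X x) C
    (Q ∪ univ.image fun v => f v (L + 1 + t)) fun x hx => by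
      have a := (hC' x (mem_filter.1 hx).2.1 (mem_filter.1 hx).2.2).1
      have b := card_union_le Q (univ.image fun v => f v (L + 1 + t))
      have c : (univ.image fun v => f v (L + 1 + t)).card ≤ Fintype.card W := card_image_le
      have d := card_le_univ (univ.filter fun x => x ∉ R ∧ X x)
      omega
  have mx : ∀ x, x ∉ R → X x → x ∈ univ.filter fun x => x ∉ R ∧ X x := fun x a b =>
    mem_filter.2 ⟨mem_univ x, a, b⟩
  obtain ⟨ψ, p1, p2, p3⟩ : ∃ ψ : W → V, (∀ r ∈ R, ψ r = f (par r) (idx r)) ∧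
      (∀ x, x ∉ R → X x → ψ x = g x) ∧ ∀ x, x ∉ R → ¬ X x → ψ x = f x (L + 1 + t) :=
    ⟨fun x => if x ∈ R then f (par x) (idx x) else if X x then g x else f x (L + 1 + t),
      fun r hr => if_pos hr, fun x a b => by simp only [if_neg a, if_pos b],
      fun x a b => by simp only [if_neg a, if_neg b]⟩
  have key : ∀ x, x ≠ o → G.Adj (ψ x) (ψ (par x)) := fun x hx => by
    have a := hT.leaf x hx
    by_cases b : x ∈ R
    · rw [p1 x b]
      by_cases c : X (par x)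
      · rw [p2 _ a c]
        exact ((hC' _ a c).2 _ (g1 _ (mx _ a c)).1).2.2 x b rfl
      · rw [p3 _ a c]
        exact (h2 _ a c t ht _ (i3 x b)).symm
    by_cases c : X x
    · rw [p2 x b c, p3 _ a ((hC.col x b hx).1 c)]
      exact ((hC' x b c).2 _ (g1 _ (mx x b c)).1).1
    · have d : X (par x) := not_not.1 fun h => c ((hC.col x b hx).2 h)
      rw [p3 x b c, p2 _ a d]
      exact ((hC' _ a d).2 _ (g1 _ (mx _ a d)).1).2.1 x b hx rfl
  have ne : ∀ x y, x ∉ R → X x → g x ≠ f y (L + 1 + t) := fun x y a b e =>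
    (g1 x (mx x a b)).2 (mem_union_right _ (e ▸ mem_image.2 ⟨y, mem_univ y, rfl⟩))
  refine ⟨ψ, fun x hx => p1 x (hx.resolve_right (notMem_empty x)), fun x y hxy => ?_,
    fun x y hx hy e => ?_, fun x hx _ => ?_⟩
  · rcases (hT.adj x y).1 hxy with ⟨a, rfl⟩ | ⟨a, rfl⟩
    · exact key x a
    · exact (key y a).symm
  · by_cases a : X x <;> by_cases b : X y
    · rw [p2 x hx a, p2 y hy b] at e
      exact g2 x (mx x hx a) y (mx y hy b) e
    · rw [p2 x hx a, p3 y hy b] at e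
      exact absurd e (ne x y hx a)
    · rw [p3 x hx a, p2 y hy b] at e
      exact absurd e.symm (ne y x hy b)
    · rw [p3 x hx a, p3 y hy b] at e
      exact (h1 x hx y hy _ _ (Or.inr ⟨a, by omega⟩) (Or.inr ⟨b, by omega⟩) e).1
  · by_cases a : X x
    · rw [p2 x hx a]
      exact fun h => (g1 x (mx x hx a)).2 (mem_union_left _ h)
    · rw [p3 x hx a]
      exact hq x hx a

theorem heavyT {L : ℕ} {X : W → Prop} (hT : Tr T R o par rk) (hC : Cut R o par L X) {b : ℝ}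
    (hb : 0 < b) (m : ℕ) : ∃ γ : ℝ, 0 < γ ∧ ∃ m' : ℕ,
      ∀ (V : Type) [Fintype V] (G : SimpleGraph V) (M : ℕ) (D : ℝ) (A A₀ : Finset V)
        (YY : Finset (Fin L → V)), m' ≤ M → (m' : ℝ) < D → Two G M D b A A₀ YY →
        Sup G 1 (fun _ => L + 1) D γ m' A₀ → Gl T R G m := by
  obtain ⟨P, hP0, hP⟩ : ∃ P : ℕ, 0 < P ∧ 2 * (m + 1 : ℕ) ≤ b * P := by
    refine ⟨⌈2 * (m + 1 : ℕ) / b⌉₊ + 1, by omega, ?_⟩
    have h1 := Nat.le_ceil (2 * (m + 1 : ℕ) / b)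
    rw [div_le_iff₀ hb] at h1
    push_cast at h1 ⊢
    nlinarith
  obtain ⟨b', hb'⟩ : ∃ b', b' = b / 2 ^ (P + 1) := ⟨_, rfl⟩
  have h0 : 0 < b' := by rw [hb']; positivity
  have hbb : b' ≤ b := hb' ▸ div_le_self hb.le (one_le_pow₀ one_le_two)
  obtain ⟨z, hz⟩ : ∃ z, z = Fintype.card W * (L + 1 + (m + 1)) := ⟨_, rfl⟩
  obtain ⟨m₃, hm₃⟩ := exists_nat_gt (2 * ((L + 1 : ℝ) * (L + z)) / b')
  refine ⟨b' / 2, half_pos h0, z + (L + 1 + P) + m₃ + (m + 2 * Fintype.card W),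
    fun V _ G M D A A₀ YY hM hD H s1 => ?_⟩
  have hD0 : 0 < D := (Nat.cast_nonneg _).trans_lt hD
  have s2 := s1.mono hD0.le le_rfl (show z + (L + 1 + P) ≤ _ by omega)
  have h3 : 2 * ((L + 1 : ℝ) * (L + z)) < b' * D := by
    have h4 := hm₃.trans ((Nat.cast_le.2 (show m₃ ≤ _ by omega)).trans_lt hD)
    rwa [div_lt_iff₀ h0, mul_comm D] at h4
  obtain ⟨v₀, -⟩ := H.ne
  have : Nonempty ((ℕ → V) × Finset V) := ⟨(fun _ => v₀, ∅)⟩
  have hq : ∀ Q : Finset V, Q.card ≤ (univ \ R).card * (L + 1 + (m + 1)) → Q.card ≤ z :=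
    fun Q h => h.trans (hz ▸ Nat.mul_le_mul_right _ (card_le_univ _))
  obtain ⟨x, x1, x2, x3⟩ := tree_chain (V := V) (β := (ℕ → V) × Finset V) (univ \ R) par rk o
    (fun v _ hv => ⟨mem_sdiff.2 ⟨mem_univ _, hT.leaf v hv⟩, hT.lt v hv⟩)
    (fun v x => (X v → x.2 ⊆ A₀ ∧ b' / 2 * D ≤ x.2.card ∧
        (∀ l < L + 1, ∀ l' < L + 1, x.1 l = x.1 l' → l = l') ∧ x.1 L ∈ x.2) ∧
      (¬ X v → (∀ l < L + 1 + (m + 1), ∀ l' < L + 1 + (m + 1), x.1 l = x.1 l' → l = l') ∧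
        (∀ t < m + 1, ∀ l < L + 1, G.Adj (x.1 (L + 1 + t)) (x.1 l)) ∧
        b' * D ^ (L + 1) ≤ ((A₀ ×ˢ YY).filter fun y =>
          ∀ t < m + 1, Hv2 G M (x.1 (L + 1 + t)) y.1 y.2).card))
    (fun v y x => (X v → ∀ s ∈ x.2, ∀ t < m + 1,
        Hv2 G M (y.1 (L + 1 + t)) s fun i : Fin L => x.1 i) ∧
      (¬ X v → ∀ t < m + 1, x.1 (L + 1 + t) ∈ y.2))
    (fun v x => (range (if X v then L + 1 else L + 1 + (m + 1))).image x.1) (L + 1 + (m + 1))
    (fun v x => card_image_le.trans (by rw [card_range]; split_ifs <;> omega))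
    (by
      obtain ⟨f, -, -, f3⟩ := THeavy_y (Q := ∅) hb hP0 hP hD0 H s2 Subset.rfl
        (le_trans (mul_le_mul_of_nonneg_right (by linarith) hD0.le) (H.big hD0)) (by simp)
      rw [← hb'] at f3
      exact ⟨(f, ∅), fun h => absurd h hC.oX, fun _ => f3⟩)
    (fun v hv hvo y hy Q hQ => by
      have c := hC.col v (mem_sdiff.1 hv).2 hvo
      by_cases a : X v
      · obtain ⟨f, S, f1, f2, f3, f4, f5, f6⟩ := THeavy_x h0 hD0 H (fun t => y.1 (L + 1 + t))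
          (hy.2 (c.1 a)).2.2 (hq Q hQ) h3
        refine ⟨(f, S), ⟨fun _ => ⟨f2, f3, f4, f5⟩, fun h => absurd a h⟩,
          ⟨fun _ => f6, fun h => absurd a h⟩, disjoint_left.2 fun w hw => ?_⟩
        obtain ⟨l, hl, rfl⟩ := mem_image.1 hw
        rw [if_pos a] at hl
        exact f1 l (mem_range.1 hl)
      · have d := hy.1 (not_not.1 fun h => a (c.2 h))
        obtain ⟨f, f1, f2, f3⟩ := THeavy_y hb hP0 hP hD0 H s2 d.1 d.2.1 (hq Q hQ)
        rw [← hb'] at f3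
        refine ⟨(f, ∅), ⟨fun h => absurd h a, fun _ => f3⟩,
          ⟨fun h => absurd h a, fun _ => f2⟩, disjoint_left.2 fun w hw => ?_⟩
        obtain ⟨l, hl, rfl⟩ := mem_image.1 hw
        rw [if_neg a] at hl
        exact f1 l (mem_range.1 hl))
  have my : ∀ v, v ∉ R → v ∈ univ \ R := fun v h => mem_sdiff.2 ⟨mem_univ v, h⟩
  have mu : ∀ v l, (l < L + 1 ∨ ¬ X v ∧ l < L + 1 + (m + 1)) →
      (x v).1 l ∈ (range (if X v then L + 1 else L + 1 + (m + 1))).image (x v).1 := fun v l h =>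
    mem_image_of_mem _ (mem_range.2 (by
      split_ifs with a
      · exact h.resolve_right fun b => b.1 a
      · omega))
  refine THeavy_fin (M := M) hT hC (by omega) (fun v => (x v).1) (fun v => (x v).2)
    (fun v hv v' hv' l l' a b e => ?_) (fun v hv a => ((x1 v (my v hv)).2 a).2.1)
    (fun v hv ho a => (x2 v (my v hv) ho).2 a) fun v hv a => ⟨((x1 v (my v hv)).1 a).2.2.2,
      (x2 v (my v hv) fun e => hC.oX (e ▸ a)).1 a⟩
  obtain rfl : v = v' := by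
    by_contra c
    exact disjoint_left.1 (x3 v (my v hv) v' (my v' hv') c) (mu v l a) (e ▸ mu v' l' b)
  refine ⟨rfl, ?_⟩
  by_cases c : X v
  · exact ((x1 v (my v hv)).1 c).2.2.1 l (a.resolve_right fun h => h.1 c) l'
      (b.resolve_right fun h => h.1 c) e
  · exact ((x1 v (my v hv)).2 c).1 l (by omega) l' (by omega) e

end Pool.Agent.Lib.MP_befe0b_co.BC
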