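import Pool.Agent.Lib.MP_befe0b_co.BC.TDefs

/-! Many light copies of a tree. -/

open Finset
open scoped Classical

noncomputable section

namespace Pool.Agent.Lib.MP_befe0b_co.BC

variable {W : Type} [Fintype W] {T : SimpleGraph W} {R : Finset W} {o : W} {par tg : W → W}
  {rk : W → ℕ} {V : Type} [Fintype V] {G : SimpleGraph V}

omit [Fintype W] in
theorem TLight_reach (hT : Tr T R o par rk) (x : W) : T.Reachable x o := by
  induction hn : rk x using Nat.strong_induction_on generalizing x with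
  | _ n ih =>
    by_cases hx : x = o
    · rw [hx]
    · exact (hT.adj_par hx).reachable.trans (ih _ (hn ▸ hT.lt x hx) _ rfl)

omit [Fintype W] in
theorem TLight_step (hT : Tr T R o par rk) (u y : W) :
    ∃ z, y ≠ u → T.Adj z y ∧ T.dist z u < T.dist y u := by
  obtain ⟨p, hp⟩ := ((TLight_reach hT y).trans (TLight_reach hT u).symm).exists_walk_length_eq_dist
  cases p with
  | nil => exact ⟨u, fun h => absurd rfl h⟩
  | cons h q =>
    refine ⟨_, fun _ => ⟨h.symm, ?_⟩⟩
    have := SimpleGraph.dist_le q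
    rw [SimpleGraph.Walk.length_cons] at hp
    omega

theorem TLight_fib {α γ : Type} (F : Finset α) (f : α → γ) (S : Finset γ) {b : ℝ} (hb : 0 ≤ b)
    (hS : ∀ x ∈ F, f x ∈ S)
    (h : ∀ c, ∀ F' : Finset α, (∀ y ∈ F', y ∈ F ∧ f y = c) → (F'.card : ℝ) ≤ b) :
    (F.card : ℝ) ≤ b * S.card :=
  (card_le_mul_image F f fun x _ => h (f x) _ fun _ hy => mem_filter.mp hy).trans
    (mul_le_mul_of_nonneg_left (Nat.cast_le.mpr (card_le_card (image_subset_iff.mpr hS))) hb)

theorem TLight_many {d D : ℝ} (hT : Tr T R o par rk) (hH : Host G d D)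
    (hd : 2 * (Fintype.card W : ℝ) ≤ d) :
    ∃ F : Finset (W → V), (∀ φ ∈ F, Hm T G φ ∧ Function.Injective φ) ∧
      Fintype.card V / 2 * (d / 2) ^ (Fintype.card W - 1) ≤ F.card := by
  obtain ⟨v0⟩ := hH.ne
  have hd0 : 0 ≤ d := le_trans (by positivity) hd
  have hY : ∀ x : W, some x ∈ (univ.map Function.Embedding.some : Finset (Option W)) :=
    fun x => mem_map.2 ⟨x, mem_univ _, rfl⟩
  obtain ⟨F, h1, h2⟩ := ext_lower (univ.map Function.Embedding.some : Finset (Option W))
    (fun x => x.bind fun y => if y = o then none else some (par y)) (fun x => x.elim 0 rk)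
    (fun y hy hp => by
      obtain ⟨x, -, rfl⟩ := mem_map.1 hy
      by_cases hx : x = o
      · simp [hx] at hp
      · simpa [hx] using hT.lt x hx)
    (fun y v => if y = some o then univ else nb G v)
    (fun y => if y = some o then Fintype.card V / 2 else d / 2)
    (fun y _ => by split_ifs <;> positivity) (fun _ => v0) ∅ fun y _ v _ => by
      have := hH.le_card
      have := hH.lo v
      split_ifs <;> simp only [card_empty, Nat.cast_zero, card_univ, card_map] <;> linarith
  have h3 : ∀ φ ∈ F, ∀ x, x ≠ o → G.Adj (φ (some (par x))) (φ (some x)) := fun φ hφ x hx => by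
    simpa [hx, mem_nb] using ((h2 φ hφ).2.1 (some x) (hY x)).1
  refine ⟨F.image fun φ x => φ (some x), fun ψ hψ => ?_, ?_⟩
  · obtain ⟨φ, hφ, rfl⟩ := mem_image.1 hψ
    refine ⟨fun x y hxy => ?_, fun x y e => Option.some_injective _
      ((h2 φ hφ).2.2 (mem_coe.2 (hY x)) (mem_coe.2 (hY y)) e)⟩
    rcases (hT.adj x y).1 hxy with ⟨h, rfl⟩ | ⟨h, rfl⟩
    exacts [(h3 φ hφ x h).symm, h3 φ hφ y h]
  · rw [card_image_of_injOn fun φ hφ ψ hψ e => funext fun x => by
      cases x with
      | none => exact ((h2 φ hφ).1 none (by simp)).trans ((h2 ψ hψ).1 none (by simp)).symm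
      | some x => exact congrFun e x]
    refine le_trans (le_of_eq ?_) h1
    rw [prod_map, ← mul_prod_erase _ _ (mem_univ o), ← card_univ (α := W),
      ← card_erase_of_mem (mem_univ o), ← prod_const]
    simp only [Function.Embedding.some_apply, if_true]
    exact congrArg _ (prod_congr rfl fun y hy =>
      (if_neg fun e => (mem_erase.1 hy).1 (Option.some_injective _ e)).symm)

theorem TLight_bad {L m M : ℕ} {d D : ℝ} (hT : Tr T R o par rk) (hH : Host G d D)
    (hM : M ≤ m + 1) (hD : 0 ≤ D) (F : Finset (W → V)) (hF : ∀ φ ∈ F, Hm T G φ) {u : W}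
    {τ : Fin (L + 2) → W} (hτ : Function.Injective τ) (ha : ∀ i, T.Adj u (τ i))
    (hb : ∀ φ ∈ F, m < (cn G (univ.image fun i => φ (τ i))).card) :
    L + 3 ≤ Fintype.card W ∧ (F.card : ℝ) ≤ D ^ (Fintype.card W - (L + 3)) * hs G (L + 2) M := by
  have hc : (insert u (univ.image τ)).card = L + 3 := by
    rw [card_insert_of_notMem (fun h => by
      obtain ⟨i, -, e⟩ := mem_image.1 h
      exact (ha i).ne e.symm), card_image_of_injective _ hτ, card_univ, Fintype.card_fin]
  refine ⟨hc ▸ card_le_univ _, ?_⟩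
  choose pu hpu using TLight_step hT u
  refine (TLight_fib F (fun φ => (φ u, fun i => φ (τ i))) (univ.biUnion fun x => {x} ×ˢ
    (Fintype.piFinset fun _ : Fin (L + 2) => nb G x).filter fun σ =>
      M ≤ (cn G (univ.image σ)).card) (b := D ^ (Fintype.card W - (L + 3))) (by positivity)
    (fun φ hφ => ?_) fun c F' hF' => ?_).trans (mul_le_mul_of_nonneg_left (Nat.cast_le.mpr
      (card_biUnion_le.trans (sum_le_sum fun x _ => by simp [hx]))) (by positivity))
  · exact mem_biUnion.mpr ⟨_, mem_univ _, mem_product.mpr ⟨mem_singleton_self _,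
      mem_filter.mpr ⟨Fintype.mem_piFinset.mpr fun i => mem_nb.mpr (hF φ hφ _ _ (ha i)),
        hM.trans (hb φ hφ)⟩⟩⟩
  · have hne : ∀ y ∈ univ \ insert u (univ.image τ), y ≠ u := fun y hy e =>
      (mem_sdiff.1 hy).2 (e ▸ mem_insert_self _ _)
    rw [← hc, ← card_univ, ← card_sdiff_of_subset (subset_univ _), ← prod_const]
    refine ext_upper _ pu (fun y => T.dist y u) (fun y hy _ => (hpu y (hne y hy)).2)
      (fun _ v => nb G v) _ (fun _ _ => hD) (fun _ _ v => hH.hi v) _
      (fun ψ hψ y hy => mem_nb.2 (hF ψ (hF' ψ hψ).1 _ _ (hpu y (hne y hy)).1))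
      fun ψ hψ ψ' hψ' x hx => ?_
    have h2 := Prod.mk.inj ((hF' ψ hψ).2.trans (hF' ψ' hψ').2.symm)
    rcases mem_insert.1 (not_not.mp fun h => hx (mem_sdiff.mpr ⟨mem_univ _, h⟩)) with rfl | h
    · exact h2.1
    · obtain ⟨i, -, rfl⟩ := mem_image.1 h
      exact congrFun h2.2 i

theorem lightT_family {L m M : ℕ} {d D ε : ℝ} (hT : Tr T R o par rk) (hH : Host G d D)
    (hM : M ≤ m + 1) (hd : 2 * (Fintype.card W : ℝ) ≤ d) (hε : 0 ≤ ε)
    (hh : (hs G (L + 2) M : ℝ) ≤ ε * Fintype.card V * D ^ (L + 2)) :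
    ∃ F : Finset (W → V), (∀ φ ∈ F, MemT T G L m φ) ∧
      Fintype.card V / 2 * (d / 2) ^ (Fintype.card W - 1) -
        (Fintype.card W : ℝ) ^ (L + 3) * ε * Fintype.card V * D ^ (Fintype.card W - 1) ≤ F.card := by
  have hD : 0 ≤ D := (le_trans (by positivity) hd).trans hH.le
  obtain ⟨F, hF, h1⟩ := TLight_many hT hH hd
  obtain ⟨P, hP⟩ : ∃ P : (W → V) → Prop, P = fun φ => ∀ (u : W) (N : Finset W), N.card = L + 2 →
    (∀ x ∈ N, T.Adj u x) → (cn G (N.image φ)).card ≤ m := ⟨_, rfl⟩
  obtain ⟨B, hB⟩ : ∃ B : W × (Fin (L + 2) → W) → (W → V) → Prop, B = fun q φ =>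
    Function.Injective q.2 ∧ (∀ i, T.Adj q.1 (q.2 i)) ∧
      m < (cn G (univ.image fun i => φ (q.2 i))).card := ⟨_, rfl⟩
  refine ⟨F.filter P, fun φ hφ => ⟨(hF φ (mem_filter.1 hφ).1).1, (hF φ (mem_filter.1 hφ).1).2,
    by have := (mem_filter.1 hφ).2; rwa [hP] at this⟩, ?_⟩
  have h3 : ∀ q ∈ (univ : Finset (W × (Fin (L + 2) → W))), ((F.filter (B q)).card : ℝ) ≤
      ε * Fintype.card V * D ^ (Fintype.card W - 1) := fun q _ => by
    rcases (F.filter (B q)).eq_empty_or_nonempty with h | ⟨φ₀, h⟩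
    · rw [h, card_empty, Nat.cast_zero]
      positivity
    have h0 := (mem_filter.1 h).2
    rw [hB] at h0
    obtain ⟨h4, h5⟩ := TLight_bad hT hH hM hD (F.filter (B q))
      (fun φ hφ => (hF φ (mem_filter.1 hφ).1).1) h0.1 h0.2.1 fun φ hφ => by
        have := (mem_filter.1 hφ).2
        rw [hB] at this
        exact this.2.2
    refine h5.trans ((mul_le_mul_of_nonneg_left hh (by positivity)).trans_eq ?_)
    rw [mul_left_comm, ← pow_add]
    congr 2
    omega
  have h4 := card_filter_add_card_filter_not (s := F) P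
  have h5 : (F.filter fun φ => ¬ P φ).card ≤ ∑ q, (F.filter (B q)).card :=
    (card_le_card fun φ hφ => by
      have h := (mem_filter.1 hφ).2
      rw [hP] at h
      simp only [not_forall, not_le] at h
      obtain ⟨u, N, hN, hu, h⟩ := h
      refine mem_biUnion.mpr ⟨(u, fun i => ((N.equivFinOfCardEq hN).symm i : W)), mem_univ _,
        mem_filter.mpr ⟨(mem_filter.mp hφ).1, ?_⟩⟩
      rw [hB]
      exact ⟨Subtype.val_injective.comp (Equiv.injective _), fun i => hu _ (Subtype.property _),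
        h.trans_le (card_le_card (cn_anti (image_subset_iff.mpr fun i _ =>
          mem_image_of_mem _ (Subtype.property _))))⟩).trans card_biUnion_le
  have h6 := (Nat.cast_le (α := ℝ).mpr h5).trans ((Nat.cast_sum _ _).trans_le (sum_le_sum h3))
  rw [sum_const, card_univ, nsmul_eq_mul, Fintype.card_prod, Fintype.card_fun, Fintype.card_fin,
    ← pow_succ', Nat.cast_pow] at h6
  rw [← h4, Nat.cast_add] at h1
  linarith

end Pool.Agent.Lib.MP_befe0b_co.BC
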