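import Pool.Agent.Lib.MP_befe0b_co.BC.Kst

/-! Gluing blocks along cuts, from right to left. -/

open Finset
open scoped Classical

noncomputable section

namespace Pool.Agent.Lib.MP_befe0b_co.BC

variable {V : Type} [Fintype V] (G : SimpleGraph V)

/-- Letters `L` and `L + 1`, the large ones at distance at least three. -/
structure Word3 (L k : ℕ) (κ : ℕ → ℕ) : Prop where
  two : 2 ≤ L
  val : ∀ s < k, κ s = L ∨ κ s = L + 1
  gap : ∀ s s', s < s' → s' < k → κ s = L + 1 → κ s' = L + 1 → s + 3 ≤ s'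

/-- `s`, `s'` and `Y` have at least `M` common neighbours. -/
def Hv2 (M : ℕ) {r : ℕ} (s s' : V) (Y : Fin r → V) : Prop :=
  M ≤ (cn G (insert s (insert s' (univ.image Y)))).card

/-- Every vertex of `A₀` has a dense link in `A₀ × YY`. -/
structure Two (M : ℕ) (D b : ℝ) (A A₀ : Finset V) {r : ℕ} (YY : Finset (Fin r → V)) : Prop where
  card : (A.card : ℝ) ≤ D
  sub₀ : A₀ ⊆ A
  sub : YY ⊆ Fintype.piFinset fun _ => A
  ne : A₀.Nonempty
  link : ∀ s ∈ A₀, b * D ^ (r + 1) ≤ ((A₀ ×ˢ YY).filter fun y => Hv2 G M s y.1 y.2).card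

/-- The caterpillar can start in any dense part of `A₀` and ends in `A₀`. -/
def Sup (k : ℕ) (κ : ℕ → ℕ) (D γ : ℝ) (m : ℕ) (A₀ : Finset V) : Prop :=
  ∀ S ⊆ A₀, γ * D ≤ S.card → ∀ Z : Finset V, Z.card ≤ m →
    Goal G k κ (fun c => c 0 ∈ S ∧ c (k - 1) ∈ A₀) m Z

/-- The word can be embedded from the two supplies. -/
def Poss (L r : ℕ) (b : ℝ) (k : ℕ) (κ : ℕ → ℕ) : Prop :=
  ∀ γ : ℝ, 0 < γ → ∀ m : ℕ, ∃ γ₀ : ℝ, 0 < γ₀ ∧ ∃ m' : ℕ,
    ∀ (V : Type) [Fintype V] (G : SimpleGraph V) (M : ℕ) (D : ℝ) (A A₀ : Finset V)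
      (YY : Finset (Fin r → V)), m' ≤ M → (m' : ℝ) < D → Two G M D b A A₀ YY →
      Sup G 1 (fun _ => L + 1) D γ₀ m' A₀ → (r = L → Sup G 3 (gk L true) D γ₀ m' A₀) →
      Sup G k κ D γ m A₀

variable {G}

theorem Hv2.symm {M r : ℕ} {s s' : V} {Y : Fin r → V} (h : Hv2 G M s s' Y) : Hv2 G M s' s Y := by
  unfold Hv2 at h ⊢
  rwa [insert_comm]

theorem Two.card₀ {M r : ℕ} {D b : ℝ} {A A₀ : Finset V} {YY : Finset (Fin r → V)}
    (H : Two G M D b A A₀ YY) : (A₀.card : ℝ) ≤ D :=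
  (Nat.cast_le.2 (card_le_card H.sub₀)).trans H.card

theorem Two.cardY {M r : ℕ} {D b : ℝ} {A A₀ : Finset V} {YY : Finset (Fin r → V)}
    (H : Two G M D b A A₀ YY) : (YY.card : ℝ) ≤ D ^ r := by
  have h2 : YY.card ≤ A.card ^ r := (card_le_card H.sub).trans (by simp)
  calc (YY.card : ℝ) ≤ (A.card : ℝ) ^ r := by exact_mod_cast h2
    _ ≤ D ^ r := pow_le_pow_left₀ (Nat.cast_nonneg _) H.card r

theorem Two.big {M r : ℕ} {D b : ℝ} {A A₀ : Finset V} {YY : Finset (Fin r → V)}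
    (H : Two G M D b A A₀ YY) (hD : 0 < D) : b * D ≤ A₀.card := by
  obtain ⟨s, hs⟩ := H.ne
  have h1 := (H.link s hs).trans (Nat.cast_le.2 (card_filter_le _ _))
  rw [card_product, Nat.cast_mul] at h1
  have h2 := mul_le_mul_of_nonneg_left H.cardY (Nat.cast_nonneg (α := ℝ) A₀.card)
  refine le_of_mul_le_mul_right ?_ (pow_pos hD r)
  rw [pow_succ] at h1
  linarith

omit [Fintype V] in
theorem W3_drop {k m : ℕ} {κ κ' : ℕ → ℕ} {Ok : (ℕ → V) → Prop} {Z : Finset V}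
    (h : Goal G k κ Ok m Z) (hκ : ∀ s < k, κ' s ≤ κ s) : Goal G k κ' Ok m Z := by
  obtain ⟨w, h1, h2, h3⟩ := h
  refine ⟨w, fun s hs l hl s' hs' l' hl' => h1 s hs l (hl.trans_le (hκ s hs)) s' hs' l'
    (hl'.trans_le (hκ s' hs')), fun s hs l hl => h2 s hs l (hl.trans_le (hκ s hs)),
    fun Q hQ => ?_⟩
  obtain ⟨c, hc, hq⟩ := h3 Q hQ
  exact ⟨c, ⟨hc.path, fun s hs l hl => hc.leg s hs l (hl.trans_le (hκ s hs)), hc.inj, hc.ok⟩, hq⟩

theorem Sup.mono {k m m' : ℕ} {κ : ℕ → ℕ} {D γ γ' : ℝ} {A₀ : Finset V}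
    (h : Sup G k κ D γ m A₀) (hD : 0 ≤ D) (hγ : γ ≤ γ') (hm : m' ≤ m) : Sup G k κ D γ' m' A₀ :=
  fun S hS h1 Z hZ => (h S hS ((mul_le_mul_of_nonneg_right hγ hD).trans h1) Z
    (hZ.trans hm)).mono hm fun _ h => h

theorem W3_glue {k₁ k₂ m M r : ℕ} {κ : ℕ → ℕ} {S S' E A₀ Z Z' : Finset V} (hk₁ : 0 < k₁)
    (hk₂ : 0 < k₂) (w₁ : ℕ → ℕ → V) (h1 : LegInj k₁ κ w₁)
    (h2 : ∀ s < k₁, ∀ l < κ s, w₁ s l ∉ Z ∧ w₁ s l ∈ Z')
    (h3 : ∀ Q : Finset V, Q.card ≤ m → ∃ c, Sp G k₁ κ (fun c => c 0 ∈ S ∧ c (k₁ - 1) ∈ E) w₁ c ∧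
      ∀ s < k₁, c s ∉ Q)
    (Y : Fin r → V) (y1 : Function.Injective Y)
    (y2 : ∀ i, Y i ∉ Z ∧ Y i ∈ Z' ∧ ∀ s < k₁, ∀ l < κ s, Y i ≠ w₁ s l) (hr : κ k₁ ≤ r)
    (hZ : Z ⊆ Z') (hv : ∀ e ∈ E, ∀ s' ∈ S', Hv2 G M e s' Y) (hM : m + k₁ + k₂ < M)
    (H : Goal G k₂ (fun s => κ (s + (k₁ + 1))) (fun c => c 0 ∈ S' ∧ c (k₂ - 1) ∈ A₀) (m + k₁) Z') :
    Goal G (k₁ + 1 + k₂) κ (fun c => c 0 ∈ S ∧ c (k₁ + 1 + k₂ - 1) ∈ A₀) m Z := by
  obtain ⟨w₂, g1, g2, g3⟩ := H
  let w : ℕ → ℕ → V := fun s l => if s < k₁ then w₁ s l else if s = k₁ then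
    (if h : l < r then Y ⟨l, h⟩ else w₁ 0 0) else w₂ (s - (k₁ + 1)) l
  have wa : ∀ s < k₁, ∀ l, w s l = w₁ s l := fun s hs l => if_pos hs
  have wb : ∀ l (h : l < r), w k₁ l = Y ⟨l, h⟩ := fun l h => by
    simp only [w, lt_irrefl, if_false, if_true, dif_pos h]
  have wc : ∀ s l, w (s + (k₁ + 1)) l = w₂ s l := fun s l => by
    simp only [w]
    rw [if_neg (by omega), if_neg (by omega), Nat.add_sub_cancel]
  have tri : ∀ s < k₁ + 1 + k₂, s < k₁ ∨ s = k₁ ∨ ∃ a < k₂, s = a + (k₁ + 1) := fun s hs => by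
    rcases lt_trichotomy s k₁ with h | h | h
    · exact Or.inl h
    · exact Or.inr (Or.inl h)
    · exact Or.inr (Or.inr ⟨s - (k₁ + 1), by omega, by omega⟩)
  refine ⟨w, fun s hs l hl s' hs' l' hl' e => ?_, fun s hs l hl => ?_, fun Q hQ => ?_⟩
  · rcases tri s hs with a | rfl | ⟨a, ha, rfl⟩ <;> rcases tri s' hs' with b | b | ⟨b, hb, rfl⟩
    · rw [wa s a, wa s' b] at e
      exact h1 s a l hl s' b l' hl' e
    · subst b
      rw [wa s a, wb l' (hl'.trans_le hr)] at e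
      exact absurd e.symm ((y2 _).2.2 s a l hl)
    · rw [wa s a, wc] at e
      exact absurd (e ▸ (h2 s a l hl).2) (g2 b hb l' hl')
    · rw [wa s' b, wb l (hl.trans_le hr)] at e
      exact absurd e ((y2 _).2.2 s' b l' hl')
    · subst b
      rw [wb l (hl.trans_le hr), wb l' (hl'.trans_le hr)] at e
      exact ⟨rfl, congrArg Fin.val (y1 e)⟩
    · rw [wb l (hl.trans_le hr), wc] at e
      exact absurd (e ▸ (y2 _).2.1) (g2 b hb l' hl')
    · rw [wa s' b, wc] at e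
      exact absurd (e.symm ▸ (h2 s' b l' hl').2) (g2 a ha l hl)
    · subst b
      rw [wb l' (hl'.trans_le hr), wc] at e
      exact absurd (e.symm ▸ (y2 _).2.1) (g2 a ha l hl)
    · rw [wc, wc] at e
      obtain ⟨e1, e2⟩ := g1 a ha l hl b hb l' hl' e
      exact ⟨by omega, e2⟩
  · rcases tri s hs with a | rfl | ⟨a, ha, rfl⟩
    · rw [wa s a]
      exact (h2 s a l hl).1
    · rw [wb l (hl.trans_le hr)]
      exact (y2 _).1
    · rw [wc]
      exact fun hz => g2 a ha l hl (hZ hz)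
  obtain ⟨c₁, p1, p2⟩ := h3 Q hQ
  have q0 : (Q ∪ (range k₁).image c₁).card ≤ m + k₁ :=
    (card_union_le _ _).trans (add_le_add hQ (card_image_le.trans (card_range _).le))
  obtain ⟨c₂, q1, q2⟩ := g3 _ q0
  have q3 : (Q ∪ (range k₁).image c₁ ∪ (range k₂).image c₂).card < M :=
    lt_of_le_of_lt ((card_union_le _ _).trans
      (add_le_add q0 (card_image_le.trans (card_range _).le))) hM
  obtain ⟨x, x1, x2⟩ := exists_mem_notMem_of_card_lt_card
    (lt_of_lt_of_le q3 (hv _ p1.ok.2 _ q1.ok.1))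
  have x3 := mem_cn.1 x1
  have xq : x ∉ Q := fun h => x2 (mem_union_left _ (mem_union_left _ h))
  have xa : ∀ s < k₁, c₁ s ≠ x := fun s hs e =>
    x2 (mem_union_left _ (mem_union_right _ (e ▸ mem_image_of_mem _ (mem_range.2 hs))))
  have xb : ∀ s < k₂, c₂ s ≠ x := fun s hs e =>
    x2 (mem_union_right _ (e ▸ mem_image_of_mem _ (mem_range.2 hs)))
  have ab : ∀ s < k₁, ∀ s' < k₂, c₁ s ≠ c₂ s' := fun s hs s' hs' e =>
    q2 s' hs' (mem_union_right _ (e ▸ mem_image_of_mem _ (mem_range.2 hs)))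
  let c : ℕ → V := fun s => if s < k₁ then c₁ s else if s = k₁ then x else c₂ (s - (k₁ + 1))
  have ca : ∀ s < k₁, c s = c₁ s := fun s hs => if_pos hs
  have cb : c k₁ = x := by simp only [c, lt_irrefl, if_false, if_true]
  have cc : ∀ s, c (s + (k₁ + 1)) = c₂ s := fun s => by
    simp only [c]
    rw [if_neg (by omega), if_neg (by omega), Nat.add_sub_cancel]
  refine ⟨c, ⟨fun s hs => ?_, fun s hs l hl => ?_, fun s hs s' hs' e => ?_, ?_, ?_⟩,
    fun s hs => ?_⟩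
  · rcases tri s (by omega) with a | rfl | ⟨a, ha, rfl⟩
    · by_cases b : s + 1 < k₁
      · rw [ca s a, ca _ b]
        exact p1.path s b
      · obtain rfl : k₁ = s + 1 := by omega
        rw [ca s a, cb]
        exact x3 _ (mem_insert_self _ _)
    · rw [cb, show s + 1 = 0 + (s + 1) by omega, cc]
      exact (x3 _ (mem_insert_of_mem (mem_insert_self _ _))).symm
    · rw [cc, show a + (k₁ + 1) + 1 = a + 1 + (k₁ + 1) by omega, cc]
      exact q1.path a (by omega)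
  · rcases tri s hs with a | rfl | ⟨a, ha, rfl⟩
    · rw [ca s a, wa s a]
      exact p1.leg s a l hl
    · rw [cb, wb l (hl.trans_le hr)]
      exact (x3 _ (mem_insert_of_mem (mem_insert_of_mem
        (mem_image_of_mem _ (mem_univ _))))).symm
    · rw [cc, wc]
      exact q1.leg a ha l hl
  · rcases tri s hs with a | rfl | ⟨a, ha, rfl⟩ <;> rcases tri s' hs' with b | b | ⟨b, hb, rfl⟩
    · rw [ca s a, ca s' b] at e
      exact p1.inj s a s' b e
    · subst b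
      rw [ca s a, cb] at e
      exact absurd e (xa s a)
    · rw [ca s a, cc] at e
      exact absurd e (ab s a b hb)
    · rw [ca s' b, cb] at e
      exact absurd e.symm (xa s' b)
    · exact b.symm
    · rw [cb, cc] at e
      exact absurd e.symm (xb b hb)
    · rw [ca s' b, cc] at e
      exact absurd e.symm (ab s' b a ha)
    · subst b
      rw [cb, cc] at e
      exact absurd e (xb a ha)
    · rw [cc, cc] at e
      have := q1.inj a ha b hb e
      omega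
  · rw [ca 0 hk₁]
    exact p1.ok.1
  · rw [show k₁ + 1 + k₂ - 1 = k₂ - 1 + (k₁ + 1) by omega, cc]
    exact q1.ok.2
  · rcases tri s hs with a | rfl | ⟨a, ha, rfl⟩
    · rw [ca s a]
      exact p2 s a
    · rw [cb]
      exact xq
    · rw [cc]
      exact fun h => q2 a ha (mem_union_left _ h)

theorem W3_pick {r : ℕ} {D b : ℝ} {A A₀ : Finset V} (Z : Finset V) {YY : Finset (Fin r → V)}
    (hD : 0 < D) (hb : 0 < b) (hA : (A.card : ℝ) ≤ D) (hA₀ : (A₀.card : ℝ) ≤ D)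
    (hY : YY ⊆ Fintype.piFinset fun _ => A) (R : V → (Fin r → V) → Prop)
    (h1 : b * D ^ (r + 1) ≤ ((A₀ ×ˢ YY).filter fun y => R y.1 y.2).card)
    (h2 : 2 * (r * (r + Z.card)) < b * D) :
    ∃ Y : Fin r → V, Function.Injective Y ∧ (∀ i, Y i ∉ Z) ∧
      b / 2 * D ≤ (A₀.filter fun s => R s Y).card := by
  by_contra hc
  simp only [not_exists, not_and, not_le] at hc
  have e1 : ((A₀ ×ˢ YY).filter fun y => R y.1 y.2).card =
      ∑ Y ∈ YY, (A₀.filter fun s => R s Y).card := by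
    simp only [card_filter]
    rw [sum_product_right]
  have e2 : ∑ Y ∈ YY, ((A₀.filter fun s => R s Y).card : ℝ) ≤
      ∑ Y ∈ Fintype.piFinset (fun _ : Fin r => A), (b / 2 * D +
        if ¬ (Function.Injective Y ∧ ∀ i, Y i ∉ Z) then D else 0) := by
    refine le_trans (sum_le_sum fun Y _ => ?_) (sum_le_sum_of_subset_of_nonneg hY fun Y _ _ => ?_)
    · have h0 : 0 ≤ b / 2 * D := by positivity
      split_ifs with h
      · have := (hc Y h.1 h.2).le
        linarith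
      · have : ((A₀.filter fun s => R s Y).card : ℝ) ≤ D :=
          (Nat.cast_le.2 (card_filter_le _ _)).trans hA₀
        linarith
    · have h0 : 0 ≤ b / 2 * D := by positivity
      split_ifs <;> linarith
  rw [sum_add_distrib, ← sum_filter, sum_const, sum_const, nsmul_eq_mul, nsmul_eq_mul] at e2
  have e3 := bad_tuples r A Z hA
  have e4 : ((Fintype.piFinset fun _ : Fin r => A).card : ℝ) ≤ D ^ r := by
    rw [Fintype.card_piFinset, prod_const, card_univ, Fintype.card_fin, Nat.cast_pow]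
    exact pow_le_pow_left₀ (Nat.cast_nonneg _) hA r
  have e5 := mul_le_mul_of_nonneg_right e4 (show 0 ≤ b / 2 * D by positivity)
  have e6 := mul_lt_mul_of_pos_right h2 (pow_pos hD r)
  rw [e1, Nat.cast_sum, pow_succ] at h1
  linarith

end Pool.Agent.Lib.MP_befe0b_co.BC
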