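import Pool.Agent.Lib.MP_befe0b_co.BC.Rob
import Pool.Agent.Lib.MP_befe0b_co.BC.W3a

/-! Two robust classes. -/

open Finset
open scoped Classical

noncomputable section

namespace Pool.Agent.Lib.MP_befe0b_co.BC

variable {V : Type} [Fintype V] {G : SimpleGraph V}

theorem box2 {L h M : ℕ} {d D β : ℝ} (hH : Host G d D) (hD : 0 < D) (hL : L + 1 ≤ h) (hβ : 0 ≤ β)
    (A : Fin (h + 1) → Finset V) (hA : ∀ i, ((A i).card : ℝ) ≤ D)
    (hd : β * D ^ (h + 1) ≤ ((Fintype.piFinset A).filter fun τ =>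
      M ≤ (cn G (univ.image τ)).card).card) :
    ∃ i : Fin h, FS G L D (M * β / (2 * (h + 1))) (A i.succ) := by
  obtain ⟨k, rfl⟩ := Nat.exists_eq_add_of_le hL
  set x : Fin (L + 1 + k + 1) → V → ℝ := fun i z => dg G (A i) z with hx
  have x0 : ∀ i z, 0 ≤ x i z := fun i z => Nat.cast_nonneg _
  have xD : ∀ i z, x i z ≤ D := fun i z => le_trans (Nat.cast_le.2 (dg_le_card _ _)) (hA i)
  have : Nonempty (Fin (L + 1 + k)) := ⟨⟨0, by omega⟩⟩
  choose b hb using fun z => Finite.exists_max fun i : Fin (L + 1 + k) => x i.succ z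
  set c : ℝ := M * β / 2 with hc
  have hc0 : 0 ≤ c := by positivity
  have tot : 2 * c * D ^ (L + 1 + k + 1) ≤ ∑ z, ∏ i, x i z := by
    have h1 : ∑ z, ∏ i, x i z = ∑ τ ∈ Fintype.piFinset A, ((cn G (univ.image τ)).card : ℝ) := by
      simp only [hx]
      exact_mod_cast Rob_prod A
    have h2 := card_nsmul_le_sum ((Fintype.piFinset A).filter fun τ =>
      M ≤ (cn G (univ.image τ)).card) (fun τ => ((cn G (univ.image τ)).card : ℝ)) M
      fun τ hτ => by exact_mod_cast (mem_filter.1 hτ).2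
    have h3 := sum_le_sum_of_subset_of_nonneg (f := fun τ => ((cn G (univ.image τ)).card : ℝ))
      (filter_subset (fun τ => M ≤ (cn G (univ.image τ)).card) (Fintype.piFinset A))
      fun _ _ _ => Nat.cast_nonneg _
    have h4 := mul_le_mul_of_nonneg_right hd (Nat.cast_nonneg (α := ℝ) M)
    rw [nsmul_eq_mul] at h2
    rw [h1, hc]
    linarith
  set Gd := univ.filter fun z => c * D ^ (L + 1 + k) ≤ x (b z).succ z ^ (L + 1 + k) * D with hGd
  have pt : ∀ z, (∏ i, x i z) * D ≤ c * D ^ (L + 1 + k) * x 0 z +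
      D ^ (L + 1 + k + 1) * if z ∈ Gd then x (b z).succ z else 0 := fun z => by
    split_ifs with hz
    · have h1 : ∏ j : Fin (L + 1 + k), x ((b z).succ.succAbove j) z ≤ D ^ (L + 1 + k) :=
        (prod_le_prod (fun j _ => x0 _ z) fun j _ => xD _ z).trans (by simp)
      have h2 := mul_le_mul_of_nonneg_left h1 (mul_nonneg (x0 (b z).succ z) hD.le)
      have h3 : 0 ≤ c * D ^ (L + 1 + k) * x 0 z := mul_nonneg (by positivity) (x0 0 z)
      rw [Fin.prod_univ_succAbove _ (b z).succ, pow_succ D (L + 1 + k)]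
      linarith
    · have h1 : ∏ j : Fin (L + 1 + k), x j.succ z ≤ x (b z).succ z ^ (L + 1 + k) :=
        (prod_le_prod (fun j _ => x0 _ z) fun j _ => hb z _).trans (by simp)
      have h2 := mul_le_mul_of_nonneg_left h1 (mul_nonneg (x0 0 z) hD.le)
      have h3 : x (b z).succ z ^ (L + 1 + k) * D ≤ c * D ^ (L + 1 + k) := by
        simpa [hGd] using (not_le.1 (by simpa [hGd] using hz)).le
      have h4 := mul_le_mul_of_nonneg_left h3 (x0 0 z)
      rw [Fin.prod_univ_succ]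
      linarith
  have good : c * D ≤ ∑ z ∈ Gd, x (b z).succ z := by
    have h1 := sum_le_sum fun z (_ : z ∈ univ) => pt z
    rw [← sum_mul, sum_add_distrib, ← mul_sum, ← mul_sum, sum_ite_mem, univ_inter] at h1
    have h2 := mul_le_mul_of_nonneg_left (Rob_deg hH hD (hA 0))
      (show 0 ≤ c * D ^ (L + 1 + k) by positivity)
    have h3 := mul_le_mul_of_nonneg_right tot hD.le
    refine le_of_mul_le_mul_left ?_ (pow_pos hD (L + 1 + k + 1))
    rw [pow_succ D (L + 1 + k)] at h1 h3 ⊢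
    simp only [hx] at h1 h3 ⊢
    nlinarith
  have hq : (0 : ℝ) < (L + 1 + k : ℕ) + 1 := by positivity
  obtain ⟨i, -, hi⟩ := exists_le_of_sum_le (s := univ) univ_nonempty
    (f := fun _ : Fin (L + 1 + k) => M * β / (2 * (((L + 1 + k : ℕ) : ℝ) + 1)) * D)
    (g := fun i => ∑ z ∈ Gd.filter fun z => b z = i, x (b z).succ z) (by
      rw [sum_fiberwise Gd b]
      refine le_trans ?_ good
      rw [sum_const, card_univ, Fintype.card_fin, nsmul_eq_mul, hc]
      calc _ ≤ (((L + 1 + k : ℕ) : ℝ) + 1) * (M * β / (2 * (((L + 1 + k : ℕ) : ℝ) + 1)) * D) := by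
            gcongr
            linarith
        _ = _ := by field_simp)
  refine ⟨i, Gd.filter fun z => b z = i, fun z hz => ?_, hi.trans (le_of_eq
    (sum_congr rfl fun z hz => by rw [(mem_filter.1 hz).2]))⟩
  obtain ⟨hz', rfl⟩ := mem_filter.1 hz
  have h1 : c * D ^ (L + 1 + k) ≤ x (b z).succ z ^ (L + 1 + k) * D := (mem_filter.1 hz').2
  have h2 : x (b z).succ z ^ k ≤ D ^ k := pow_le_pow_left₀ (x0 _ _) (xD _ _) k
  have h3 : c * D ^ L ≤ x (b z).succ z ^ (L + 1) := by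
    refine le_of_mul_le_mul_right ?_ (pow_pos hD (k + 1))
    calc c * D ^ L * D ^ (k + 1) = c * D ^ (L + 1 + k) := by ring
      _ ≤ x (b z).succ z ^ (L + 1) * x (b z).succ z ^ k * D := by rw [← pow_add]; exact h1
      _ ≤ x (b z).succ z ^ (L + 1) * D ^ k * D := by have := x0 (b z).succ z; gcongr
      _ = _ := by ring
  refine le_trans (mul_le_mul_of_nonneg_right ?_ (by positivity)) h3
  rw [hc]
  have : (0 : ℝ) ≤ (L + 1 + k : ℕ) := Nat.cast_nonneg _
  exact div_le_div_of_nonneg_left (by positivity) two_pos (by linarith)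

/-- The number of heavy triples. -/
def W3tri (G : SimpleGraph V) (M : ℕ) (X X' : Finset V) {r : ℕ} (T : Finset (Fin r → V)) : ℕ :=
  ((X ×ˢ X' ×ˢ T).filter fun y => Hv2 G M y.1 y.2.1 y.2.2).card

theorem W3tri_eq {M r : ℕ} (X X' : Finset V) (T : Finset (Fin r → V)) :
    W3tri G M X X' T = ∑ s ∈ X, ((X' ×ˢ T).filter fun y => Hv2 G M s y.1 y.2).card := by
  simp only [W3tri, card_filter]
  rw [sum_product]

omit [Fintype V] in
theorem W3_image {r : ℕ} (τ : Fin (r + 2) → V) :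
    univ.image τ = insert (τ 1) (insert (τ 0) (univ.image fun i : Fin r => τ i.succ.succ)) := by
  ext v
  simp only [mem_image, mem_univ, true_and, mem_insert, Fin.exists_fin_succ, eq_comm (a := v),
    Fin.succ_zero_eq_one]
  exact or_left_comm

theorem W3tri_box {M r : ℕ} (X X' : Finset V) (C : Fin r → Finset V) :
    W3tri G M X X' (Fintype.piFinset C) =
      ((Fintype.piFinset (Fin.cons X' (Fin.cons X C) : Fin (r + 2) → Finset V)).filter fun τ =>
        M ≤ (cn G (univ.image τ)).card).card := by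
  refine card_nbij' (fun y => (Fin.cons y.2.1 (Fin.cons y.1 y.2.2) : Fin (r + 2) → V))
    (fun τ => (τ 1, τ 0, fun i => τ i.succ.succ)) (fun y hy => ?_) (fun τ hτ => ?_)
    (fun y _ => rfl) fun τ _ => ?_
  · obtain ⟨h1, h2⟩ := mem_filter.1 (mem_coe.1 hy)
    obtain ⟨h3, h4⟩ := mem_product.1 h1
    obtain ⟨h5, h6⟩ := mem_product.1 h4
    refine mem_coe.2 (mem_filter.2 ⟨Fintype.mem_piFinset.2 (Fin.forall_fin_succ.2 ⟨h5,
      Fin.forall_fin_succ.2 ⟨h3, Fintype.mem_piFinset.1 h6⟩⟩), ?_⟩)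
    rw [W3_image]
    exact h2
  · obtain ⟨h1, h2⟩ := mem_filter.1 (mem_coe.1 hτ)
    have h3 := Fintype.mem_piFinset.1 h1
    rw [W3_image] at h2
    exact mem_coe.2 (mem_filter.2 ⟨mem_product.2 ⟨h3 1, mem_product.2 ⟨h3 0,
      Fintype.mem_piFinset.2 fun i => h3 i.succ.succ⟩⟩, h2⟩)
  · funext i
    refine Fin.cases rfl (fun i => ?_) i
    exact Fin.cases rfl (fun i => rfl) i

theorem W3tri_swap {M r : ℕ} (X X' : Finset V) (C : Fin r → Finset V) (u : Fin r) :
    W3tri G M X X' (Fintype.piFinset C) ≤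
      W3tri G M (C u) X' (Fintype.piFinset (Function.update C u X)) := by
  refine card_le_card_of_injOn (fun y => (y.2.2 u, y.2.1, Function.update y.2.2 u y.1))
    (fun y hy => ?_) fun y _ y' _ e => ?_
  · obtain ⟨s, s', Y⟩ := y
    obtain ⟨h1, h2⟩ := mem_filter.1 (mem_coe.1 hy)
    obtain ⟨h3, h4⟩ := mem_product.1 h1
    obtain ⟨h5, h6⟩ := mem_product.1 h4
    have h7 := Fintype.mem_piFinset.1 h6
    refine mem_coe.2 (mem_filter.2 ⟨mem_product.2 ⟨h7 u, mem_product.2 ⟨h5,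
      Fintype.mem_piFinset.2 fun i => ?_⟩⟩, le_trans h2 (card_le_card (cn_anti fun v hv => ?_))⟩)
    · by_cases h : i = u
      · subst h
        simpa using h3
      · simpa [h] using h7 i
    · simp only [mem_insert, mem_image, mem_univ, true_and] at hv ⊢
      rcases hv with rfl | rfl | ⟨i, rfl⟩
      · exact Or.inr (Or.inr ⟨u, rfl⟩)
      · exact Or.inr (Or.inl rfl)
      · by_cases h : i = u
        · subst h
          exact Or.inl (by simp)
        · exact Or.inr (Or.inr ⟨i, by simp [h]⟩)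
  · obtain ⟨s, s', Y⟩ := y
    obtain ⟨t, t', Y'⟩ := y'
    simp only [Prod.mk.injEq] at e ⊢
    obtain ⟨e1, e2, e3⟩ := e
    refine ⟨by simpa using congrFun e3 u, e2, funext fun i => ?_⟩
    by_cases h : i = u
    · rw [h, e1]
    · simpa [h] using congrFun e3 i

theorem W3_two {M r : ℕ} {D β : ℝ} (hD : 0 < D) (hβ : 0 < β) {A : Finset V}
    (hA : (A.card : ℝ) ≤ D) {YY : Finset (Fin r → V)} (hY : YY ⊆ Fintype.piFinset fun _ => A)
    (h : β * D ^ (r + 2) ≤ W3tri G M A A YY) : ∃ A₀, Two G M D (β ^ 2 / 8) A A₀ YY := by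
  have hYc : (YY.card : ℝ) ≤ D ^ r := by
    have h2 : YY.card ≤ A.card ^ r := (card_le_card hY).trans (by simp)
    exact le_trans (by exact_mod_cast h2) (pow_le_pow_left₀ (Nat.cast_nonneg _) hA r)
  obtain ⟨Γ, hΓ⟩ : ∃ Γ : V → V → Prop, ∀ s s', Γ s s' ↔
      β / 2 * D ^ r ≤ (YY.filter fun Y => Hv2 G M s s' Y).card := ⟨_, fun _ _ => Iff.rfl⟩
  have e1 : W3tri G M A A YY = ∑ y ∈ A ×ˢ A, (YY.filter fun Y => Hv2 G M y.1 y.2 Y).card := by
    simp only [W3tri, card_filter]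
    rw [sum_product, sum_product]
    exact sum_congr rfl fun s _ => sum_product _ _ _
  have e2 : ∑ y ∈ A ×ˢ A, ((YY.filter fun Y => Hv2 G M y.1 y.2 Y).card : ℝ) ≤
      ∑ y ∈ A ×ˢ A, (β / 2 * D ^ r + if Γ y.1 y.2 then D ^ r else 0) := by
    refine sum_le_sum fun y _ => ?_
    split_ifs with h1
    · have : ((YY.filter fun Y => Hv2 G M y.1 y.2 Y).card : ℝ) ≤ D ^ r :=
        (Nat.cast_le.2 (card_filter_le _ _)).trans hYc
      have : 0 ≤ β / 2 * D ^ r := by positivity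
      linarith
    · have := not_le.1 fun h2 => h1 ((hΓ _ _).2 h2)
      linarith
  rw [sum_add_distrib, ← sum_filter, sum_const, sum_const, nsmul_eq_mul, nsmul_eq_mul,
    card_product, Nat.cast_mul] at e2
  have e3 : β / 2 * D ^ 2 ≤ ((A ×ˢ A).filter fun y => Γ y.1 y.2).card := by
    have h1 : (A.card : ℝ) * A.card * (β / 2 * D ^ r) ≤ D * D * (β / 2 * D ^ r) := by gcongr
    rw [e1, Nat.cast_sum, pow_add] at h
    refine le_of_mul_le_mul_right ?_ (pow_pos hD r)
    nlinarith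
  obtain ⟨U, u1, u2, u3⟩ := core_sub A Γ (fun s s' h1 => (hΓ _ _).2 (((hΓ _ _).1 h1).trans
    (Nat.cast_le.2 (card_le_card fun Y hY =>
      mem_filter.2 ⟨(mem_filter.1 hY).1, (mem_filter.1 hY).2.symm⟩)))) (half_pos hβ) hD hA e3
  refine ⟨U, hA, u1, hY, u2, fun s hs => ?_⟩
  have e4 : ((U ×ˢ YY).filter fun y => Hv2 G M s y.1 y.2).card =
      ∑ s' ∈ U, (YY.filter fun Y => Hv2 G M s s' Y).card := by
    simp only [card_filter]
    rw [sum_product]
  have e5 := card_nsmul_le_sum (U.filter (Γ s))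
    (fun s' => ((YY.filter fun Y => Hv2 G M s s' Y).card : ℝ)) (β / 2 * D ^ r)
    fun s' hs' => (hΓ _ _).1 (mem_filter.1 hs').2
  have e6 := sum_le_sum_of_subset_of_nonneg
    (f := fun s' => ((YY.filter fun Y => Hv2 G M s s' Y).card : ℝ)) (filter_subset (Γ s) U)
    fun _ _ _ => Nat.cast_nonneg _
  rw [nsmul_eq_mul] at e5
  have e7 := mul_le_mul_of_nonneg_right (u3 s hs) (show 0 ≤ β / 2 * D ^ r by positivity)
  rw [e4, Nat.cast_sum]
  calc β ^ 2 / 8 * D ^ (r + 1) = β / 2 / 2 * D * (β / 2 * D ^ r) := by ring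
    _ ≤ _ := e7.trans (e5.trans e6)

theorem robust2 {L r M : ℕ} {d D ε : ℝ} (hH : Host G d D) (hD : 0 < D) (hL : L ≤ r)
    (g : ℝ → ℝ) (hg : ∀ u, 0 < g^[u] ε) {A : Finset V} (hA : (A.card : ℝ) ≤ D)
    (hd : ε * D ^ (r + 2) ≤ hx G (r + 2) M A) :
    ∃ u ≤ r, ∃ (A₀ : Finset V) (YY : Finset (Fin r → V)),
      Two G M D (g^[u] ε ^ 2 / 8) A A₀ YY ∧ ∀ A' ⊆ A₀, ∀ a : ℝ,
        g (g^[u] ε) ≤ a * (g^[u] ε ^ 2 / 8) → a * D ≤ A'.card →
          FS G L D (M * g^[r + 1] ε / (2 * ((r + 1 : ℕ) + 1))) A' := by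
  by_contra hn
  have step : ∀ u ≤ r, ∀ C : Fin r → Finset V, (∀ i, C i ⊆ A) →
      g^[u] ε * D ^ (r + 2) ≤ W3tri G M A A (Fintype.piFinset C) → ∃ A' ⊆ A,
        ¬ FS G L D (M * g^[r + 1] ε / (2 * ((r + 1 : ℕ) + 1))) A' ∧
          g^[u + 1] ε * D ^ (r + 2) ≤ W3tri G M A' A (Fintype.piFinset C) := by
    intro u hu C c1 c4
    obtain ⟨A₀, H⟩ := W3_two hD (hg u) hA (Fintype.piFinset_subset _ _ c1) c4
    by_contra hc
    refine hn ⟨u, hu, A₀, _, H, fun A' hA' a h1 h2 => ?_⟩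
    by_contra hF
    refine hc ⟨A', hA'.trans H.sub₀, hF, ?_⟩
    rw [W3tri_eq, Function.iterate_succ_apply', Nat.cast_sum]
    refine le_trans ?_ (card_nsmul_le_sum A' _ (g^[u] ε ^ 2 / 8 * D ^ (r + 1)) fun s hs =>
      (H.link s (hA' hs)).trans (Nat.cast_le.2 (card_le_card
        (filter_subset_filter _ (product_subset_product_left H.sub₀)))))
    rw [nsmul_eq_mul]
    calc _ ≤ a * (g^[u] ε ^ 2 / 8) * D ^ (r + 2) := by gcongr
      _ = a * D * (g^[u] ε ^ 2 / 8 * D ^ (r + 1)) := by ring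
      _ ≤ _ := by gcongr
  have key : ∀ u ≤ r, ∃ C : Fin r → Finset V, (∀ i, C i ⊆ A) ∧ (∀ i : Fin r, u ≤ i → C i = A) ∧
      (∀ i : Fin r, i < u → ¬ FS G L D (M * g^[r + 1] ε / (2 * ((r + 1 : ℕ) + 1))) (C i)) ∧
      g^[u] ε * D ^ (r + 2) ≤ W3tri G M A A (Fintype.piFinset C) := by
    intro u
    induction u with
    | zero =>
      refine fun _ => ⟨fun _ => A, fun _ => Subset.rfl, fun _ _ => rfl, by simp, hd.trans ?_⟩
      rw [W3tri_box]
      refine Nat.cast_le.2 (card_le_card (filter_subset_filter _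
        (Fintype.piFinset_subset _ _ fun i => ?_)))
      refine Fin.cases Subset.rfl (fun i => ?_) i
      exact Fin.cases Subset.rfl (fun i => Subset.rfl) i
    | succ u ih =>
      intro hu
      obtain ⟨C, c1, c2, c3, c4⟩ := ih (by omega)
      obtain ⟨A', a1, a2, a3⟩ := step u (by omega) C c1 c4
      obtain ⟨i, rfl⟩ : ∃ i : Fin r, i.val = u := ⟨⟨u, hu⟩, rfl⟩
      have a4 := W3tri_swap (G := G) (M := M) A' A C i
      rw [c2 i le_rfl] at a4
      refine ⟨Function.update C i A', fun j => ?_, fun j hj => ?_, fun j hj => ?_,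
        a3.trans (Nat.cast_le.2 a4)⟩
      · by_cases hj : j = i
        · simpa [hj] using a1
        · simpa [hj] using c1 j
      · rw [Function.update_of_ne (by rintro rfl; omega)]
        exact c2 j (by omega)
      · by_cases hj' : j = i
        · simpa [hj'] using a2
        · rw [Function.update_of_ne hj']
          exact c3 j (by have := Fin.val_ne_of_ne hj'; omega)
  obtain ⟨C, c1, -, c3, c4⟩ := key r le_rfl
  obtain ⟨A', a1, a2, a3⟩ := step r le_rfl C c1 c4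
  rw [W3tri_box] at a3
  obtain ⟨i, hi⟩ := box2 (L := L) (h := r + 1) hH hD (by omega) (hg _).le _ (fun i => by
    refine Fin.cases hA (fun i => ?_) i
    exact Fin.cases ((Nat.cast_le.2 (card_le_card a1)).trans hA)
      (fun i => (Nat.cast_le.2 (card_le_card (c1 i))).trans hA) i) a3
  revert hi
  exact Fin.cases a2 (fun i => c3 i i.2) i

end Pool.Agent.Lib.MP_befe0b_co.BC
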