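import Pool.Agent.Lib.MP_befe0b_co.BC.TPeel
import Pool.Agent.Lib.MP_befe0b_co.BC.TLight
import Pool.Agent.Lib.MP_befe0b_co.BC.THeavy
import Pool.Agent.Lib.MP_befe0b_co.BC.W3c
import Pool.Agent.Lib.MP_befe0b_co.BC.RegA

/-! The upper bound for powers of trees given by parent maps. -/

open Finset
open scoped Classical

noncomputable section

namespace Pool.Agent.Lib.MP_befe0b_co.BC

section

variable {V : Type} [Fintype V] {G : SimpleGraph V}

theorem TCore_fs {L m : ℕ} {D μ : ℝ} {W Z : Finset V} (hD : 0 < D) (hWD : (W.card : ℝ) ≤ D)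
    (h : FS G L D μ W) (hμ : (m + L + 1) * 2 ^ (L + 1) < μ) (hZ : Z.card ≤ m) :
    Goal G 1 (fun _ => L + 1) (fun c => c 0 ∈ W) m Z := by
  obtain ⟨B, hB, hE⟩ := h
  have h2 : (2 : ℝ) ≤ 2 ^ (L + 1) := le_self_pow₀ one_le_two (by omega)
  have hm : (0 : ℝ) ≤ m := Nat.cast_nonneg m
  have hL : (0 : ℝ) ≤ L := Nat.cast_nonneg L
  have hμ1 : 2 * ((m : ℝ) + L + 1) < μ := by nlinarith
  have hμ2 : (m : ℝ) * 2 ^ (L + 1) < μ := by nlinarith
  have hE0 : 0 < ∑ z ∈ B, (dg G W z : ℝ) := (mul_pos (by linarith) hD).trans_le hE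
  have hBn : B.Nonempty := nonempty_of_sum_ne_zero hE0.ne'
  obtain ⟨z, hz, hmin⟩ := exists_min_image B (dg G W) hBn
  have hEz : (B.card : ℝ) * dg G W z ≤ ∑ z ∈ B, (dg G W z : ℝ) := by
    rw [← nsmul_eq_mul]
    exact card_nsmul_le_sum _ _ _ fun y hy => Nat.cast_le.2 (hmin y hy)
  have hBp : (0 : ℝ) < B.card := Nat.cast_pos.2 hBn.card_pos
  exact kst (G := G) W B Z (L + 1) m (by omega) (E := ∑ z ∈ B, (dg G W z : ℝ))
    (by rw [← Nat.cast_sum, ← Nat.cast_sum, sum_dg_comm]) (by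
      have hZ' : (Z.card : ℝ) ≤ m := Nat.cast_le.2 hZ
      push_cast
      calc 2 * ((Z.card : ℝ) + (L + 1)) * W.card ≤ 2 * ((m : ℝ) + L + 1) * D :=
            mul_le_mul (by linarith) hWD (Nat.cast_nonneg _) (by linarith)
        _ ≤ μ * D := by gcongr
        _ ≤ _ := hE) (by
      rw [Nat.add_sub_cancel]
      calc (m : ℝ) * 2 ^ (L + 1) * (W.card : ℝ) ^ L * (B.card : ℝ) ^ (L + 1)
          ≤ (m : ℝ) * 2 ^ (L + 1) * D ^ L * (B.card : ℝ) ^ (L + 1) := by gcongr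
        _ < μ * D ^ L * (B.card : ℝ) ^ (L + 1) := by gcongr
        _ ≤ (dg G W z : ℝ) ^ (L + 1) * (B.card : ℝ) ^ (L + 1) := by gcongr; exact hB z hz
        _ = ((B.card : ℝ) * dg G W z) ^ (L + 1) := by rw [mul_pow, mul_comm]
        _ ≤ _ := by gcongr) hE0

theorem TCore_sup1 {L m : ℕ} {D μ γ : ℝ} {A₀ : Finset V} (hD : 0 < D) (hA : (A₀.card : ℝ) ≤ D)
    (fs : ∀ A' ⊆ A₀, γ * D ≤ A'.card → FS G L D μ A') (hμ : (m + L + 1) * 2 ^ (L + 1) < μ) :
    Sup G 1 (fun _ => L + 1) D γ m A₀ := fun S hS h1 _ hZ =>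
  (TCore_fs hD ((Nat.cast_le.2 (card_le_card hS)).trans hA) (fs S hS h1) hμ hZ).mono le_rfl
    fun _ hc => ⟨hc, hS hc⟩

theorem TCore_pick (hV : Nonempty V) {q M : ℕ} {b : ℝ} (h : Fintype.card V * b ≤ hs G q M) :
    ∃ x, b ≤ hx G q M (nb G x) := by
  have h1 : ∑ _x : V, b ≤ ∑ x : V, (hx G q M (nb G x) : ℝ) := by
    simpa [hs] using h
  obtain ⟨x, -, hx⟩ := Finset.exists_le_of_sum_le univ_nonempty h1
  exact ⟨x, hx⟩

theorem TCore_hi (f : ℕ → ℝ) (N : ℕ) : ∃ e, ∀ u ≤ N, f u ≤ e := by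
  obtain ⟨u, -, hu⟩ := exists_max_image (range (N + 1)) f ⟨0, by simp⟩
  exact ⟨_, fun v hv => hu v (mem_range.2 (by omega))⟩

theorem TCore_num {ρ C n d D : ℝ} (hρ : 2 ≤ ρ) (hC : 1 ≤ C) (hn : 1 ≤ n) (hdn : d ≤ n)
    (hdD : d ≤ D) (hd : C * n ^ (1 - 1 / ρ) ≤ d) {j tp : ℕ} (hj : 1 ≤ j)
    (h : (j + tp : ℝ) ≤ ρ * j + 1) : C * n ^ tp ≤ n * D ^ (j + tp - 1) := by
  have hρ0 : 0 < ρ := by linarith
  have hα : 0 ≤ 1 - 1 / ρ := by
    have : 1 / ρ ≤ 1 / 2 := one_div_le_one_div_of_le (by norm_num) hρ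
    linarith
  have h1 : 1 ≤ n ^ (1 - 1 / ρ) := Real.one_le_rpow hn hα
  have hn0 : 0 < n := by linarith
  obtain ⟨a, ha⟩ : ∃ a, j + tp = a + 1 := ⟨j + tp - 1, by omega⟩
  rw [ha, Nat.add_sub_cancel]
  rcases Nat.eq_zero_or_pos a with rfl | ha0
  · obtain rfl : tp = 0 := by omega
    simp only [pow_zero, mul_one]
    nlinarith
  have ha' : (j : ℝ) + tp = a + 1 := by exact_mod_cast ha
  have h2 : (tp : ℝ) ≤ 1 + (1 - 1 / ρ) * a := by
    have : (a : ℝ) / ρ ≤ j := by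
      rw [div_le_iff₀ hρ0]
      linarith
    have e : (1 - 1 / ρ) * a = a - a / ρ := by ring
    linarith
  calc C * n ^ tp ≤ C ^ a * n ^ (1 + (1 - 1 / ρ) * a) := by
        refine mul_le_mul (le_self_pow₀ hC ha0.ne') ?_ (by positivity) (by positivity)
        rw [← Real.rpow_natCast]
        exact Real.rpow_le_rpow_of_exponent_le hn h2
    _ = n * (C * n ^ (1 - 1 / ρ)) ^ a := by
        rw [Real.rpow_add hn0, Real.rpow_one, Real.rpow_mul hn0.le, Real.rpow_natCast, mul_pow]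
        ring
    _ ≤ n * D ^ a := by
        have := hd.trans hdD
        gcongr

end

variable {W : Type} [Fintype W] {T : SimpleGraph W} {R : Finset W} {o : W} {par tg : W → W}
  {rk : W → ℕ} {V : Type} [Fintype V] {G : SimpleGraph V}

theorem TCore_dense {L : ℕ} {X : W → Prop} (hT : Tr T R o par rk) (hC : Cut R o par L X) (m : ℕ)
    {ε : ℝ} (hε : 0 < ε) : ∃ (M : ℕ) (C : ℝ), ∀ (V : Type) [Fintype V] (G : SimpleGraph V)
      (d D : ℝ) (A : Finset V), Host G d D → 0 < D → C ≤ d → (A.card : ℝ) ≤ D →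
        ε * D ^ (L + 2) ≤ hx G (L + 2) M A → Gl T R G m := by
  choose! γ hγ m' hE using fun (b : ℝ) (hb : 0 < b) => heavyT hT hC hb m
  let g : ℝ → ℝ := fun x => γ (x ^ 2 / 8) * (x ^ 2 / 8)
  have hi : ∀ u, 0 < g^[u] ε := fun u => by
    induction u with
    | zero => exact hε
    | succ u ih =>
      rw [Function.iterate_succ_apply']
      have := hγ (g^[u] ε ^ 2 / 8) (by positivity)
      exact mul_pos (by positivity) (by positivity)
  have hβ : ∀ u, 0 < g^[u] ε ^ 2 / 8 := fun u => by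
    have := hi u
    positivity
  obtain ⟨Q, hQ⟩ := TCore_hi (fun u => (m' (g^[u] ε ^ 2 / 8) + L + 1) * 2 ^ (L + 1)) L
  have ha : 0 < g^[L + 1] ε / (2 * ((L + 1 : ℕ) + 1)) := by
    have := hi (L + 1)
    positivity
  obtain ⟨M₁, hM₁⟩ := exists_nat_gt (Q / (g^[L + 1] ε / (2 * ((L + 1 : ℕ) + 1))))
  obtain ⟨M₂, hM₂⟩ := exists_nat_gt Q
  have hμ : Q < (M₁ + M₂ : ℕ) * g^[L + 1] ε / (2 * ((L + 1 : ℕ) + 1)) := by
    rw [mul_div_assoc, ← div_lt_iff₀ ha]
    exact hM₁.trans_le (by exact_mod_cast (by omega : M₁ ≤ M₁ + M₂))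
  refine ⟨M₁ + M₂, Q, fun V _ G d D A hH hD0 hd hA hx => ?_⟩
  obtain ⟨u, hu, A₀, YY, H, fs⟩ := robust2 (L := L) (r := L) hH hD0 le_rfl g hi hA hx
  have hm : (m' (g^[u] ε ^ 2 / 8) : ℝ) < Q := by
    have h1 := hQ u hu
    have h2 : (0 : ℝ) ≤ m' (g^[u] ε ^ 2 / 8) := Nat.cast_nonneg _
    have h3 : (0 : ℝ) ≤ L := Nat.cast_nonneg _
    have h4 : (1 : ℝ) ≤ 2 ^ (L + 1) := one_le_pow₀ one_le_two
    nlinarith
  exact hE _ (hβ u) V G (M₁ + M₂) D A A₀ YY ((Nat.cast_lt.1 (hm.trans hM₂)).le.trans (by omega))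
    (hm.trans_le (hd.trans hH.le)) H
    (TCore_sup1 hD0 H.card₀ (fun A' hA' h1 => fs A' hA' _ le_rfl h1) ((hQ u hu).trans_lt hμ))

theorem TCore_core {L : ℕ} {X : W → Prop} {ρ : ℝ} (hT : Tr T R o par rk) (hF : Fold T R par L tg)
    (hC : Cut R o par L X)
    (hb : ∀ A : Finset W, (∀ x ∈ A, x ∉ R) → (eA R o par A : ℝ) ≤ ρ * A.card) (m : ℕ) {K : ℝ}
    (hK : 1 ≤ K) : ∃ C : ℝ, 1 ≤ C ∧ ∀ (V : Type) [Fintype V] (G : SimpleGraph V) (d : ℝ),
      Host G d (K * d) → C ≤ d → (∀ j tp : ℕ, 1 ≤ j → (j + tp : ℝ) ≤ ρ * j + 1 →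
        C * (Fintype.card V : ℝ) ^ tp ≤ Fintype.card V * (K * d) ^ (j + tp - 1)) →
      Gl T R G m := by
  have hk : (0 : ℝ) < Fintype.card W := by
    exact_mod_cast Fintype.card_pos_iff.2 ⟨o⟩
  have hK0 : 0 < K := by linarith
  obtain ⟨η, hη⟩ : ∃ η : ℝ, η = 1 / (4 * (2 * K) ^ (Fintype.card W - 1)) := ⟨_, rfl⟩
  have hη0 : 0 < η := by rw [hη]; positivity
  have hε : 0 < η / (Fintype.card W : ℝ) ^ (L + 3) := by positivity
  obtain ⟨M, C₁, hC₁⟩ := TCore_dense hT hC m hε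
  refine ⟨max (max 1 C₁) (max (2 * Fintype.card W) (Cp (Fintype.card W) (m + M) / η)),
    (le_max_left _ _).trans (le_max_left _ _), fun V _ G d hH hd hn => ?_⟩
  have hd0 : 0 < d := one_pos.trans_le (((le_max_left _ _).trans (le_max_left _ _)).trans hd)
  have hD0 : 0 < K * d := mul_pos hK0 hd0
  have hn0 : (0 : ℝ) < Fintype.card V := one_pos.trans_le hH.one_le
  rcases le_total (hs G (L + 2) M : ℝ)
    (η / (Fintype.card W : ℝ) ^ (L + 3) * Fintype.card V * (K * d) ^ (L + 2)) with c1 | c1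
  · obtain ⟨F, f1, f2⟩ := lightT_family (m := m + M) hT hH (by omega)
      (((le_max_left _ _).trans (le_max_right _ _)).trans hd) hε.le c1
    have f3 : η * Fintype.card V * (K * d) ^ (Fintype.card W - 1) ≤ F.card := by
      refine le_trans (le_of_eq ?_) f2
      have e : (d / 2) ^ (Fintype.card W - 1) = 4 * η * (K * d) ^ (Fintype.card W - 1) := by
        rw [hη, show d / 2 = K * d / (2 * K) by field_simp, div_pow]
        field_simp
      rw [e]
      field_simp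
      ring
    have hne : F.Nonempty := by
      rw [← card_pos, ← Nat.cast_pos (α := ℝ)]
      exact lt_of_lt_of_le (by positivity) f3
    refine (peelT hT hF hb F f1 hD0.le hH.hi hne fun j tp hj hjk hρ => ?_).mono (by omega)
    refine le_trans ?_ f3
    have h1 : Cp (Fintype.card W) (m + M) / η * (Fintype.card V : ℝ) ^ tp ≤
        Fintype.card V * (K * d) ^ (j + tp - 1) :=
      (mul_le_mul_of_nonneg_right ((le_max_right _ _).trans (le_max_right _ _))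
        (by positivity)).trans (hn j tp hj hρ)
    rw [div_mul_eq_mul_div, div_le_iff₀ hη0] at h1
    refine (mul_le_mul_of_nonneg_right h1 (by positivity)).trans (le_of_eq ?_)
    rw [show Fintype.card W - 1 = j + tp - 1 + (Fintype.card W - j - tp) by omega, pow_add]
    ring
  · obtain ⟨x, x1⟩ := TCore_pick
      (b := η / (Fintype.card W : ℝ) ^ (L + 3) * (K * d) ^ (L + 2)) hH.ne
      (le_of_eq_of_le (by ring) c1)
    exact hC₁ V G d _ _ hH hD0 (((le_max_right _ _).trans (le_max_left _ _)).trans hd) (hH.hi x) x1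


theorem upperT {L : ℕ} {X : W → Prop} {ρ : ℝ} (hT : Tr T R o par rk) (hF : Fold T R par L tg)
    (hC : Cut R o par L X) (hρ : 2 ≤ ρ)
    (hb : ∀ A : Finset W, (∀ x ∈ A, x ∉ R) → (eA R o par A : ℝ) ≤ ρ * A.card)
    {W' : Type} (H : SimpleGraph W') (m : ℕ)
    (hH : ∀ (V : Type) [Fintype V] (G : SimpleGraph V), Gl T R G m → H.IsContained G) :
    ∃ C : ℝ, ∀ n : ℕ, (SimpleGraph.extremalNumber n H : ℝ) ≤ C * (n : ℝ) ^ (2 - 1 / ρ) := by
  have hα : 1 / 2 ≤ 1 - 1 / ρ := by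
    have : 1 / ρ ≤ 1 / 2 := one_div_le_one_div_of_le (by norm_num) hρ
    linarith
  obtain ⟨C₀, hC₀, hcore⟩ := TCore_core hT hF hC hb m (K := 3456) (by norm_num)
  refine ⟨216 * C₀, fun n => ?_⟩
  conv_lhs => rw [← Fintype.card_fin n]
  rw [SimpleGraph.extremalNumber_le_iff_of_nonneg _ (by positivity)]
  intro G _ hfree
  by_contra hc
  rw [not_le] at hc
  rcases Nat.eq_zero_or_pos n with rfl | hn
  · have h1 := G.card_edgeFinset_le_card_choose_two
    simp only [Fintype.card_fin, Nat.choose_zero_succ, nonpos_iff_eq_zero] at h1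
    rw [h1] at hc
    exact absurd hc (not_lt.2 (by push_cast; positivity))
  have : Nonempty (Fin n) := ⟨⟨0, hn⟩⟩
  have hsg : (sg G univ : ℝ) = 2 * G.edgeFinset.card := by
    have h1 : ∀ (i1 i2 : Fintype G.edgeSet),
        (@SimpleGraph.edgeFinset _ G i1).card = (@SimpleGraph.edgeFinset _ G i2).card := by
      intro i1 i2
      rw [Subsingleton.elim i1 i2]
    have : sg G univ = 2 * G.edgeFinset.card := (sg_univ G).trans (congrArg (2 * ·) (h1 _ _))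
    exact_mod_cast this
  have hG : 432 * C₀ * (Fintype.card (Fin n) : ℝ) ^ (1 + (1 - 1 / ρ)) ≤ sg G univ := by
    rw [Fintype.card_fin, hsg, show 1 + (1 - 1 / ρ) = 2 - 1 / ρ by ring]
    linarith
  obtain ⟨S, d, hS, hd⟩ := reg G hα (D₀ := 432 * C₀) (by linarith) hG
  have hn1 := hS.one_le
  rw [← Fintype.card_coe S] at hd
  have hpos : 0 < (Fintype.card S : ℝ) ^ (1 - 1 / ρ) := Real.rpow_pos_of_pos (by linarith) _
  have hd' : C₀ * (Fintype.card S : ℝ) ^ (1 - 1 / ρ) ≤ d := by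
    have := mul_pos (show 0 < C₀ by linarith) hpos
    linarith
  have h1 : 1 ≤ (Fintype.card S : ℝ) ^ (1 - 1 / ρ) := Real.one_le_rpow hn1 (by linarith)
  have hgoal := hcore _ _ d hS (by nlinarith) fun j tp hj h =>
    TCore_num hρ hC₀ hn1 hS.le_card hS.le hd' hj h
  exact hfree ((hH _ _ hgoal).trans ⟨(SimpleGraph.Embedding.comap _ G).toCopy⟩)

end Pool.Agent.Lib.MP_befe0b_co.BC
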