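import Pool.Agent.Lib.MP_befe0b_co.BC.TStat
import Pool.Agent.Lib.MP_befe0b_co.BC.W3a

/-! Powers of rooted trees: definitions. -/

open Finset
open scoped Classical

noncomputable section

namespace Pool.Agent.Lib.MP_befe0b_co.BC

variable {W : Type} [Fintype W]

/-- A tree given by a parent map, with the leaves `R` as roots. -/
structure Tr (T : SimpleGraph W) (R : Finset W) (o : W) (par : W → W) (rk : W → ℕ) : Prop where
  adj : ∀ x y, T.Adj x y ↔ (x ≠ o ∧ par x = y) ∨ (y ≠ o ∧ par y = x)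
  lt : ∀ x, x ≠ o → rk (par x) < rk x
  oR : o ∉ R
  leaf : ∀ x, x ≠ o → par x ∉ R

/-- The roots at `s`. -/
def lgs (R : Finset W) (par : W → W) (s : W) : Finset W := R.filter fun r => par r = s

/-- The number of edges spanned by `A` and its roots. -/
def eA (R : Finset W) (o : W) (par : W → W) (A : Finset W) : ℕ :=
  (univ.filter fun y => y ≠ o ∧ (y ∈ A ∨ y ∈ R) ∧ par y ∈ A).card

/-- The data for folding: the root `r` may be replaced by the vertex `tg r`. -/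
structure Fold (T : SimpleGraph W) (R : Finset W) (par : W → W) (L : ℕ) (tg : W → W) : Prop where
  low : ∀ u s s', s ∉ R → s' ∉ R → s ≠ s' → T.Adj u s → T.Adj u s' → L ≤ (lgs R par u).card
  adj : ∀ r ∈ R, tg r ∉ R → T.Adj (par r) (tg r)
  inj : ∀ r ∈ R, ∀ r' ∈ R, par r = par r' → tg r = tg r' → tg r ∉ R → r = r'
  ex : ∀ s u, s ∉ R → u ∉ R → T.Adj s u → (lgs R par u).card ≤ L → ∃ r ∈ R, par r = s ∧ tg r = u

/-- The class `X` of vertices that are found as common neighbours. -/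
structure Cut (R : Finset W) (o : W) (par : W → W) (L : ℕ) (X : W → Prop) : Prop where
  oX : ¬ X o
  col : ∀ x, x ∉ R → x ≠ o → (X x ↔ ¬ X (par x))
  top : ∀ s, (lgs R par s).card ≤ L + 1
  mid : ∀ y, y ∉ R → y ≠ o → X (par y) → (lgs R par (par y)).card ≤ L
  uni : ∀ y y', y ∉ R → y' ∉ R → y ≠ o → y' ≠ o → X (par y) → par y = par y' → y = y'

variable {V : Type} [Fintype V]

/-- `ψ` preserves adjacency. -/
def Hm (T : SimpleGraph W) (G : SimpleGraph V) (ψ : W → V) : Prop :=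
  ∀ x y, T.Adj x y → G.Adj (ψ x) (ψ y)

/-- `ψ₀` can be changed outside `R ∪ A` to a copy that avoids any `m` vertices. -/
def GoodT (T : SimpleGraph W) (R : Finset W) (G : SimpleGraph V) (m : ℕ) (A : Finset W)
    (ψ₀ : W → V) : Prop :=
  ∀ Q : Finset V, Q.card ≤ m → ∃ ψ : W → V, (∀ x, x ∈ R ∨ x ∈ A → ψ x = ψ₀ x) ∧ Hm T G ψ ∧
    (∀ x y, x ∉ R → y ∉ R → ψ x = ψ y → x = y) ∧ ∀ x, x ∉ R → x ∉ A → ψ x ∉ Q

/-- Distinct roots whose copies cannot be hit by `m` vertices. -/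
def Gl (T : SimpleGraph W) (R : Finset W) (G : SimpleGraph V) (m : ℕ) : Prop :=
  ∃ ψ₀ : W → V, (∀ r ∈ R, ∀ r' ∈ R, ψ₀ r = ψ₀ r' → r = r') ∧ GoodT T R G m ∅ ψ₀

/-- `ψ₀` can be changed on `S` so as to avoid any `m` vertices. -/
def RichT (T : SimpleGraph W) (R : Finset W) (G : SimpleGraph V) (m : ℕ) (A S : Finset W)
    (ψ₀ : W → V) : Prop :=
  ∀ Q : Finset V, Q.card ≤ m → ∃ ψ₁ : W → V, (∀ x, x ∉ S → ψ₁ x = ψ₀ x) ∧ GoodT T R G m A ψ₁ ∧
    ∀ x ∈ S, ψ₁ x ∉ Q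

/-- Light copies of `T`. -/
structure MemT (T : SimpleGraph W) (G : SimpleGraph V) (L m : ℕ) (φ : W → V) : Prop where
  hom : Hm T G φ
  inj : Function.Injective φ
  light : ∀ (u : W) (N : Finset W), N.card = L + 2 → (∀ x ∈ N, T.Adj u x) →
    (cn G (N.image φ)).card ≤ m

/-- Active vertices `A` and the folding `π`. -/
structure StT (T : SimpleGraph W) (R : Finset W) (par tg : W → W) (A : Finset W) (π : W → W) :
    Prop where
  dis : ∀ x ∈ A, x ∉ R
  fix : ∀ x, x ∉ R → π x = x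
  val : ∀ r ∈ R, π r = r ∨ (π r = tg r ∧ tg r ∉ R ∧ tg r ∉ A)
  inj : ∀ r ∈ R, ∀ r' ∈ R, π r = π r' → r = r'
  bd : ∀ s ∈ A, ∀ u, u ∉ R → u ∉ A → T.Adj s u → ∃ r ∈ R, par r = s ∧ π r = u

omit [Fintype W] in
theorem mem_lgs {R : Finset W} {par : W → W} {s r : W} : r ∈ lgs R par s ↔ r ∈ R ∧ par r = s :=
  mem_filter

omit [Fintype W] in
theorem Tr.ne {T : SimpleGraph W} {R : Finset W} {o : W} {par : W → W} {rk : W → ℕ}
    (h : Tr T R o par rk) {r : W} (hr : r ∈ R) : r ≠ o := fun e => h.oR (e ▸ hr)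

omit [Fintype W] in
theorem Tr.adj_par {T : SimpleGraph W} {R : Finset W} {o : W} {par : W → W} {rk : W → ℕ}
    (h : Tr T R o par rk) {x : W} (hx : x ≠ o) : T.Adj x (par x) :=
  (h.adj _ _).2 (Or.inl ⟨hx, rfl⟩)

omit [Fintype W] in
theorem Tr.root_adj {T : SimpleGraph W} {R : Finset W} {o : W} {par : W → W} {rk : W → ℕ}
    (h : Tr T R o par rk) {r x : W} (hr : r ∈ R) (hx : T.Adj r x) : x = par r := by
  rcases (h.adj _ _).1 hx with h1 | h1
  · exact h1.2.symm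
  · exact absurd (h1.2 ▸ hr) (h.leaf x h1.1)

omit [Fintype W] [Fintype V] in
theorem Gl.mono {T : SimpleGraph W} {R : Finset W} {G : SimpleGraph V} {m m' : ℕ}
    (h : Gl T R G m) (hm : m' ≤ m) : Gl T R G m' := by
  obtain ⟨ψ, h1, h2⟩ := h
  exact ⟨ψ, h1, fun Q hQ => h2 Q (hQ.trans hm)⟩

end Pool.Agent.Lib.MP_befe0b_co.BC
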