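import Pool.Agent.Lib.MP_befe0b_co.BC.TConv
import Pool.Agent.Lib.MP_befe0b_co.BC.Lower

/-! The power is found, and the lower bound. -/

open Finset
open scoped Classical

noncomputable section

namespace Pool.Agent.Lib.MP_befe0b_co.BC

theorem TLow_greedy {W V : Type} [Fintype W] {T : SimpleGraph W} {R : Finset W}
    {G : SimpleGraph V} {p : ℕ} {ψ₀ : W → V}
    (h : GoodT T R G ((p + 1) * Fintype.card W) ∅ ψ₀) (t : ℕ) (ht : t ≤ p) :
    ∃ ψ : Fin t → W → V, (∀ i, ∀ r ∈ R, ψ i r = ψ₀ r) ∧ (∀ i, Hm T G (ψ i)) ∧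
      (∀ i j x y, x ∉ R → y ∉ R → ψ i x = ψ j y → i = j ∧ x = y) ∧
      ∀ i x, x ∉ R → ∀ r, ψ i x ≠ ψ₀ r := by
  induction t with
  | zero => exact ⟨Fin.elim0, fun i => i.elim0, fun i => i.elim0, fun i => i.elim0,
      fun i => i.elim0⟩
  | succ t ih =>
    obtain ⟨ψ, h1, h2, h3, h4⟩ := ih (by omega)
    obtain ⟨χ, k1, k2, k3, k4⟩ := h (univ.image ψ₀ ∪ univ.image fun q : Fin t × W => ψ q.1 q.2)
      (by
        refine (card_union_le _ _).trans ((add_le_add card_image_le card_image_le).trans ?_)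
        rw [card_univ, card_univ, Fintype.card_prod, Fintype.card_fin, add_comm, ← add_one_mul]
        exact Nat.mul_le_mul_right _ (by omega))
    have k5 : ∀ x, x ∉ R → ∀ i y, χ x ≠ ψ i y := fun x hx i y e =>
      k4 x hx (notMem_empty x) (mem_union_right _ (mem_image.2 ⟨(i, y), mem_univ _, e.symm⟩))
    have k6 : ∀ x, x ∉ R → ∀ r, χ x ≠ ψ₀ r := fun x hx r e =>
      k4 x hx (notMem_empty x) (mem_union_left _ (mem_image.2 ⟨r, mem_univ _, e.symm⟩))
    refine ⟨Fin.cons χ ψ, fun i => ?_, fun i => ?_, fun i j => ?_, fun i => ?_⟩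
    · refine Fin.cases (fun r hr => k1 r (Or.inl hr)) (fun i => h1 i) i
    · refine Fin.cases k2 (fun i => h2 i) i
    · refine Fin.cases (Fin.cases (fun x y hx hy e => ⟨rfl, k3 x y hx hy e⟩)
        (fun j x y hx _ e => absurd e (k5 x hx j y)) j)
        (fun i => Fin.cases (fun x y _ hy e => absurd e.symm (k5 y hy i x))
          (fun j x y hx hy e => ?_) j) i
      obtain ⟨e1, e2⟩ := h3 i j x y hx hy e
      exact ⟨congrArg Fin.succ e1, e2⟩
    · refine Fin.cases k6 (fun i => h4 i) i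

theorem Gl.contained {ι : Type} [Fintype ι] {U : SimpleGraph ι} {κ : ι → ℕ} (p : ℕ)
    {V : Type} [Fintype V] {G : SimpleGraph V}
    (h : Gl (tw U κ) (rts κ) G ((p + 1) * Fintype.card (ι ⊕ (Σ s : ι, Fin (κ s))))) :
    (tpw U κ p).IsContained G := by
  obtain ⟨ψ₀, h0, h⟩ := h
  obtain ⟨ψ, h1, h2, h3, h4⟩ := TLow_greedy h p le_rfl
  have hl : ∀ s : ι, (Sum.inl s : ι ⊕ (Σ s : ι, Fin (κ s))) ∉ rts κ := fun s hs => by
    obtain ⟨r, hr⟩ := mem_rts.1 hs
    exact Sum.inl_ne_inr hr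
  have hr : ∀ r : (Σ s : ι, Fin (κ s)), (Sum.inr r : ι ⊕ (Σ s : ι, Fin (κ s))) ∈ rts κ :=
    fun r => mem_rts.2 ⟨r, rfl⟩
  let f : (Fin p × ι) ⊕ (Σ s : ι, Fin (κ s)) → V :=
    Sum.elim (fun q => ψ q.1 (.inl q.2)) fun r => ψ₀ (.inr r)
  have key : ∀ x y : (Fin p × ι) ⊕ (Σ s : ι, Fin (κ s)),
      ((∃ t s s', x = .inl (t, s) ∧ y = .inl (t, s') ∧ U.Adj s s') ∨
        ∃ t s l, x = .inl (t, s) ∧ y = .inr ⟨s, l⟩) → G.Adj (f x) (f y) := by
    rintro _ _ (⟨t, s, s', rfl, rfl, ha⟩ | ⟨t, s, l, rfl, rfl⟩)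
    · exact h2 t _ _ ((SimpleGraph.fromRel_adj _ _ _).2
        ⟨fun e => ha.ne (Sum.inl.inj e), Or.inl (Or.inl ⟨s, s', rfl, rfl, ha⟩)⟩)
    · have := h2 t (.inl s) (.inr ⟨s, l⟩) ((SimpleGraph.fromRel_adj _ _ _).2
        ⟨Sum.inl_ne_inr, Or.inl (Or.inr ⟨s, l, rfl, rfl⟩)⟩)
      rwa [h1 t _ (hr _)] at this
  refine ⟨⟨⟨f, fun {x y} hxy => ?_⟩, ?_⟩⟩
  · exact ((SimpleGraph.fromRel_adj _ _ _).1 hxy).2.elim (key x y) fun h => (key y x h).symm
  · rintro (⟨t, s⟩ | r) (⟨t', s'⟩ | r') e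
    · obtain ⟨e1, e2⟩ := h3 t t' _ _ (hl s) (hl s') e
      rw [e1, Sum.inl.inj e2]
    · exact absurd e (h4 t _ (hl s) _)
    · exact absurd (Eq.symm e) (h4 t' _ (hl s') _)
    · rw [Sum.inr.inj (h0 _ (hr r) _ (hr r') e)]

theorem TLow_mem {W : Type} [Fintype W] {T : SimpleGraph W} {col : W → Bool} {S : Finset W}
    {e : W × W} : e ∈ Ed T col S ↔ T.Adj e.1 e.2 ∧ col e.1 = false ∧ (e.1 ∈ S ∨ e.2 ∈ S) := by
  rw [Ed, mem_filter]
  exact and_iff_right (mem_univ _)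

theorem TLow_card {W : Type} [Fintype W] {T : SimpleGraph W} {R : Finset W} {o : W}
    {par : W → W} {rk : W → ℕ} (hT : Tr T R o par rk) (col : W → Bool)
    (hc : ∀ u v, T.Adj u v → col u ≠ col v) (S : Finset W) :
    (univ.filter fun w => w ≠ o ∧ (w ∈ S ∨ par w ∈ S)).card ≤ (Ed T col S).card := by
  refine card_le_card_of_injOn
    (fun w => if col w = false then (w, par w) else (par w, w)) ?_ ?_
  · intro w hw
    obtain ⟨h1, h2⟩ := (mem_filter.1 (mem_coe.1 hw)).2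
    have ha := hT.adj_par h1
    refine mem_coe.2 (TLow_mem.2 ?_)
    by_cases h : col w = false
    · simp only [if_pos h]
      exact ⟨ha, h, h2⟩
    · simp only [if_neg h]
      refine ⟨ha.symm, ?_, h2.symm⟩
      have := hc _ _ ha
      revert this h
      cases col w <;> cases col (par w) <;> simp
  · intro w hw w' hw' he
    have h1 := hT.lt w (mem_filter.1 (mem_coe.1 hw)).2.1
    have h2 := hT.lt w' (mem_filter.1 (mem_coe.1 hw')).2.1
    by_cases h : col w = false <;> by_cases h' : col w' = false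
    · simp only [if_pos h, if_pos h'] at he
      exact (Prod.mk.inj he).1
    · simp only [if_pos h, if_neg h'] at he
      obtain ⟨e1, e2⟩ := Prod.mk.inj he
      rw [e2] at h1
      rw [← e1] at h2
      omega
    · simp only [if_neg h, if_pos h'] at he
      obtain ⟨e1, e2⟩ := Prod.mk.inj he
      rw [e1] at h1
      rw [← e2] at h2
      omega
    · simp only [if_neg h, if_neg h'] at he
      exact (Prod.mk.inj he).2

theorem TLow_bal {W : Type} [Fintype W] {T : SimpleGraph W} {R : Finset W} {o : W} {par : W → W}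
    {rk : W → ℕ} {ρ : ℝ} (hT : Tr T R o par rk)
    (hb : ∀ A : Finset W, (∀ x ∈ A, x ∉ R) → (eA R o par A : ℝ) ≤ ρ * A.card)
    (he : ρ * (Fintype.card W - R.card : ℕ) = (Fintype.card W - 1 : ℕ)) :
    Bal T (fun w => w ∈ R) (Fintype.card W - R.card) (Fintype.card W - 1) := by
  intro col hc S hS
  have h1 := TLow_card hT col hc S
  have h2 := hb ((univ \ R) \ S) fun x hx => (mem_sdiff.1 (mem_sdiff.1 hx).1).2
  have h3 : ((univ \ R) \ S).card + S.card = Fintype.card W - R.card := by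
    rw [card_sdiff_add_card_eq_card fun x hx => mem_sdiff.2 ⟨mem_univ _, hS x hx⟩, card_univ_sdiff]
  have h4 : Fintype.card W - 1 ≤ (univ.filter fun w => w ≠ o ∧ (w ∈ S ∨ par w ∈ S)).card +
      eA R o par ((univ \ R) \ S) := by
    rw [← card_univ, ← card_erase_of_mem (mem_univ o), eA]
    refine (card_le_card fun y hy => ?_).trans (card_union_le _ _)
    have hy := ne_of_mem_erase hy
    by_cases h5 : y ∈ S ∨ par y ∈ S
    · exact mem_union_left _ (mem_filter.2 ⟨mem_univ _, hy, h5⟩)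
    · rw [not_or] at h5
      refine mem_union_right _ (mem_filter.2 ⟨mem_univ _, hy, ?_,
        mem_sdiff.2 ⟨mem_sdiff.2 ⟨mem_univ _, hT.leaf y hy⟩, h5.2⟩⟩)
      by_cases h6 : y ∈ R
      · exact Or.inr h6
      · exact Or.inl (mem_sdiff.2 ⟨mem_sdiff.2 ⟨mem_univ _, h6⟩, h5.1⟩)
  have h5 : ρ * S.card ≤ (Ed T col S).card := by
    have k1 : ((Fintype.card W - 1 : ℕ) : ℝ) ≤ (Ed T col S).card + eA R o par ((univ \ R) \ S) := by
      exact_mod_cast h4.trans (Nat.add_le_add_right h1 _)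
    rw [← h3, Nat.cast_add, mul_add] at he
    linarith
  have h6 : ((Fintype.card W - 1 : ℕ) : ℝ) * S.card ≤
      (Fintype.card W - R.card : ℕ) * (Ed T col S).card := by
    rw [← he, mul_comm ρ, mul_assoc]
    exact mul_le_mul_of_nonneg_left h5 (Nat.cast_nonneg _)
  exact_mod_cast h6

open Filter in
theorem lowerT {W : Type} [Fintype W] {T : SimpleGraph W} {R : Finset W} {o : W} {par : W → W}
    {rk : W → ℕ} {ρ : ℝ} (hT : Tr T R o par rk) (hρ : 2 ≤ ρ)
    (hb : ∀ A : Finset W, (∀ x ∈ A, x ∉ R) → (eA R o par A : ℝ) ≤ ρ * A.card)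
    (he : ρ * (Fintype.card W - R.card : ℕ) = (Fintype.card W - 1 : ℕ)) :
    ∃ (p : ℕ) (c : ℝ), 0 < c ∧ ∀ᶠ n : ℕ in atTop,
      ∃ G : SimpleGraph (Fin n), c * (n : ℝ) ^ (2 - 1 / ρ) ≤ G.edgeSet.ncard ∧
        ∀ φ : Fin p → T.Copy G, (∀ i j, ∀ w ∈ R, φ i w = φ j w) → ¬ Function.Injective φ := by
  have ha : 0 < Fintype.card W - R.card := by
    have := card_lt_card (ssubset_univ_iff.2 fun e : R = univ => hT.oR (e.symm ▸ mem_univ o))
    rw [card_univ] at this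
    omega
  have ha' : (0 : ℝ) < (Fintype.card W - R.card : ℕ) := by exact_mod_cast ha
  have hab : 2 * (Fintype.card W - R.card) ≤ Fintype.card W - 1 := by
    have : (2 : ℝ) * (Fintype.card W - R.card : ℕ) ≤ (Fintype.card W - 1 : ℕ) := by
      rw [← he]
      exact mul_le_mul_of_nonneg_right hρ ha'.le
    exact_mod_cast this
  have hiso : ∀ w, ∃ w', T.Adj w w' := fun w => by
    by_cases hw : w = o
    · have hne : (univ.erase o).Nonempty := by
        rw [← card_pos, card_erase_of_mem (mem_univ o), card_univ]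
        omega
      obtain ⟨x, hx, hm⟩ := exists_min_image _ rk hne
      have hx := ne_of_mem_erase hx
      refine ⟨x, (hT.adj _ _).2 (Or.inr ⟨hx, ?_⟩)⟩
      by_contra h
      exact absurd (hm (par x) (mem_erase.2 ⟨fun e => h (e.trans hw.symm), mem_univ _⟩))
        (not_le.2 (hT.lt x hx))
    · exact ⟨_, hT.adj_par hw⟩
  obtain ⟨p, c, hc, h⟩ := lower T (fun w => w ∈ R) _ _ ha (by omega) (by omega) ⟨o⟩ hiso
    (TLow_bal hT hb he)
  have h2 : 1 / ρ = ((Fintype.card W - R.card : ℕ) : ℝ) / (Fintype.card W - 1 : ℕ) := by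
    rw [← he, mul_comm, div_mul_cancel_left₀ ha'.ne', one_div]
  exact ⟨p, c, hc, h.mono fun n ⟨G, h3, h4⟩ => ⟨G, h2 ▸ h3, h4⟩⟩

end Pool.Agent.Lib.MP_befe0b_co.BC
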