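import Pool.Agent.Lib.MP_befe0b_co.BC.TCore
import Pool.Agent.Lib.MP_befe0b_co.BC.TLow
import Pool.Agent.Lib.MP_befe0b_co.BC.TComb

/-! Both bounds for tame trees, and the exponents of their families. -/

open Finset Filter Topology
open scoped Classical

noncomputable section

namespace Pool.Agent.Lib.MP_befe0b_co.BC

theorem TLit_ge {a : ℕ → ℝ} {α r c c' : ℝ} (h : Tendsto (fun n : ℕ => a n / (n : ℝ) ^ α) atTop (𝓝 c))
    (hc : 0 < c') (h1 : ∀ᶠ n : ℕ in atTop, c' * (n : ℝ) ^ r ≤ a n) : r ≤ α := by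
  by_contra hr
  have h2 : Tendsto (fun n : ℕ => c' * (n : ℝ) ^ (r - α)) atTop atTop :=
    ((tendsto_rpow_atTop (by linarith)).comp tendsto_natCast_atTop_atTop).const_mul_atTop hc
  refine not_tendsto_atTop_of_tendsto_nhds h (tendsto_atTop_mono' _ ?_ h2)
  filter_upwards [h1, eventually_gt_atTop 0] with n h3 h4
  have h5 : (0 : ℝ) < n := by exact_mod_cast h4
  rw [Real.rpow_sub h5, ← mul_div_assoc]
  exact div_le_div_of_nonneg_right h3 (Real.rpow_nonneg h5.le _)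

theorem TLit_le {a : ℕ → ℝ} {α r c C : ℝ} (h : Tendsto (fun n : ℕ => a n / (n : ℝ) ^ α) atTop (𝓝 c))
    (hc : 0 < c) (h1 : ∀ n : ℕ, a n ≤ C * (n : ℝ) ^ r) : α ≤ r := by
  by_contra hr
  have h2 : Tendsto (fun n : ℕ => C * (n : ℝ) ^ (-(α - r))) atTop (𝓝 (C * 0)) :=
    ((tendsto_rpow_neg_atTop (by linarith)).comp tendsto_natCast_atTop_atTop).const_mul C
  have h3 : c ≤ C * 0 := by
    refine le_of_tendsto_of_tendsto h h2 ?_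
    filter_upwards [eventually_gt_atTop 0] with n h4
    have h5 : (0 : ℝ) < n := by exact_mod_cast h4
    rw [neg_sub, Real.rpow_sub h5, ← mul_div_assoc]
    exact div_le_div_of_nonneg_right (h1 n) (Real.rpow_nonneg h5.le _)
  linarith

theorem TLit_ex {W : Type} {H : SimpleGraph W} {n : ℕ} {G : SimpleGraph (Fin n)} (h : H.Free G) :
    G.edgeSet.ncard ≤ SimpleGraph.extremalNumber n H := by
  have h1 := SimpleGraph.card_edgeFinset_le_extremalNumber h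
  rwa [Fintype.card_fin, SimpleGraph.edgeFinset, ← Set.ncard_eq_toFinset_card'] at h1

theorem TLit_free {W W' V : Type} {T : SimpleGraph W} {H : SimpleGraph W'} {G : SimpleGraph V}
    {p : ℕ} {ϱ : Type} (rt : ϱ → W)
    (hG : ∀ φ : Fin p → T.Copy G, (∀ i j r, φ i (rt r) = φ j (rt r)) → ¬ Function.Injective φ)
    (hH : ∃ φ : Fin p → T.Copy H, (∀ i j r, φ i (rt r) = φ j (rt r)) ∧ Function.Injective φ) :
    H.Free G := by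
  rintro ⟨ψ⟩
  obtain ⟨φ, h1, h2⟩ := hH
  refine hG (fun i => ψ.comp (φ i)) (fun i j r => congrArg ψ (h1 i j r)) fun i j e => h2 ?_
  ext w
  exact ψ.injective (congrArg (fun χ : T.Copy G => χ w) e)

variable {ι : Type} [Fintype ι] {U : SimpleGraph ι} {κ : ι → ℕ} {L : ℕ} {X : Set ι} {ρ : ℝ}

omit [Fintype ι] in
theorem TLit_self (s₀ : ι) (p : ℕ) : ∃ φ : Fin p → (tw U κ).Copy (tpw U κ p),
    (∀ i j r, φ i (.inr r) = φ j (.inr r)) ∧ Function.Injective φ := by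
  refine ⟨fun t => ⟨⟨Sum.map (Prod.mk t) id, fun {x y} h => ?_⟩,
    Sum.map_injective.2 ⟨Prod.mk_right_injective t, Function.injective_id⟩⟩, fun _ _ _ => rfl,
    fun i j e => ?_⟩
  · obtain ⟨h1, h2⟩ := (SimpleGraph.fromRel_adj _ _ _).1 h
    refine (SimpleGraph.fromRel_adj _ _ _).2 ⟨fun e => h1 ((Sum.map_injective.2
      ⟨Prod.mk_right_injective t, Function.injective_id⟩) e), ?_⟩
    rcases h2 with (⟨s, s', rfl, rfl, a⟩ | ⟨s, l, rfl, rfl⟩) | ⟨s, s', rfl, rfl, a⟩ | ⟨s, l, rfl, rfl⟩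
    · exact Or.inl (Or.inl ⟨t, s, s', rfl, rfl, a⟩)
    · exact Or.inl (Or.inr ⟨t, s, l, rfl, rfl⟩)
    · exact Or.inr (Or.inl ⟨t, s, s', rfl, rfl, a⟩)
    · exact Or.inr (Or.inr ⟨t, s, l, rfl, rfl⟩)
  · have := congrArg (fun χ : (tw U κ).Copy (tpw U κ p) => χ (.inl s₀)) e
    exact (Prod.mk.inj (Sum.inl.inj this)).1

theorem Tame.upper (h : Tame U κ L X) (hρ : 2 ≤ ρ) (hb : Thin U κ ρ) (p : ℕ) :
    ∃ C : ℝ, ∀ n : ℕ,
      (SimpleGraph.extremalNumber n (tpw U κ p) : ℝ) ≤ C * (n : ℝ) ^ (2 - 1 / ρ) := by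
  obtain ⟨o, par, tg, rk, X', hT, hF, hC, hE⟩ := h.conv
  exact upperT hT hF hC hρ (hE ρ hb) _ _ fun V _ G hG => hG.contained p

theorem Tame.lower (h : Tame U κ L X) (hρ : 2 ≤ ρ) (hb : Thin U κ ρ)
    (he : ρ * Fintype.card ι = ((Fintype.card ι - 1 + ∑ v, κ v : ℕ) : ℝ)) :
    ∃ (p : ℕ) (c : ℝ), 0 < c ∧ ∀ᶠ n : ℕ in atTop, ∃ G : SimpleGraph (Fin n),
      c * (n : ℝ) ^ (2 - 1 / ρ) ≤ G.edgeSet.ncard ∧ ∀ φ : Fin p → (tw U κ).Copy G,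
        (∀ i j r, φ i (.inr r) = φ j (.inr r)) → ¬ Function.Injective φ := by
  obtain ⟨o, par, tg, rk, X', hT, hF, hC, hE⟩ := h.conv
  have h1 : (rts κ).card = ∑ v, κ v := by
    have : rts κ = Finset.univ.map Function.Embedding.inr := by
      ext x
      simp [rts, eq_comm]
    rw [this]
    simp
  have h2 : 0 < Fintype.card ι := Fintype.card_pos_iff.2 h.tree.1.nonempty
  obtain ⟨p, c, hc, h3⟩ := lowerT hT hρ (hE ρ hb) (by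
    rw [h1, Fintype.card_sum, Fintype.card_sigma]
    simp only [Fintype.card_fin]
    rw [Nat.add_sub_cancel, he]
    congr 1
    omega)
  refine ⟨p, c, hc, h3.mono fun n ⟨G, h4, h5⟩ => ⟨G, h4, fun φ hφ => h5 φ fun i j w hw => ?_⟩⟩
  obtain ⟨r, rfl⟩ := mem_rts.1 hw
  exact hφ i j r

theorem Tame.family (h : Tame U κ L X) (hρ : 2 ≤ ρ) (hb : Thin U κ ρ) {p : ℕ} {c : ℝ} (hc : 0 < c)
    (hl : ∀ᶠ n : ℕ in atTop, ∃ G : SimpleGraph (Fin n),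
      c * (n : ℝ) ^ (2 - 1 / ρ) ≤ G.edgeSet.ncard ∧ ∀ φ : Fin p → (tw U κ).Copy G,
        (∀ i j r, φ i (.inr r) = φ j (.inr r)) → ¬ Function.Injective φ)
    (m : ℕ) (w : Fin m → ℕ) (H : ∀ i, SimpleGraph (Fin (w i))) (a b : Fin m → ℝ) (α β : ℝ)
    (h1 : ∀ i, ∃ φ : Fin p → (tw U κ).Copy (H i),
      (∀ s t r, φ s (.inr r) = φ t (.inr r)) ∧ Function.Injective φ)
    (h2 : ∃ i q, (H i).IsContained (tpw U κ q))
    (h3 : ∀ i, 0 < b i ∧ Tendsto (fun n : ℕ =>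
      (SimpleGraph.extremalNumber n (H i) : ℝ) / (n : ℝ) ^ a i) atTop (𝓝 (b i)))
    (h4 : 0 < β) (h5 : Tendsto (fun n : ℕ => ((sSup {e : ℕ | ∃ G : SimpleGraph (Fin n),
      (∀ i, (H i).Free G) ∧ G.edgeSet.ncard = e} : ℕ) : ℝ) / (n : ℝ) ^ α) atTop (𝓝 β)) :
    IsLeast (Set.range a) α ∧ α = 2 - 1 / ρ := by
  obtain ⟨i₀, q, hq⟩ := h2
  obtain ⟨C, hC⟩ := h.upper hρ hb q
  have up : ∀ n : ℕ, (SimpleGraph.extremalNumber n (H i₀) : ℝ) ≤ C * (n : ℝ) ^ (2 - 1 / ρ) :=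
    fun n => (Nat.cast_le.2 hq.extremalNumber_le).trans (hC n)
  have bd : ∀ (n : ℕ) (i : Fin m), ∀ e ∈ {e : ℕ | ∃ G : SimpleGraph (Fin n),
      (∀ i, (H i).Free G) ∧ G.edgeSet.ncard = e}, e ≤ SimpleGraph.extremalNumber n (H i) := by
    rintro n i e ⟨G, g1, rfl⟩
    exact TLit_ex (g1 i)
  have lo : ∀ᶠ n : ℕ in atTop, c * (n : ℝ) ^ (2 - 1 / ρ) ≤ ((sSup {e : ℕ |
      ∃ G : SimpleGraph (Fin n), (∀ i, (H i).Free G) ∧ G.edgeSet.ncard = e} : ℕ) : ℝ) :=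
    hl.mono fun n ⟨G, g1, g2⟩ => g1.trans (Nat.cast_le.2 (le_csSup ⟨_, bd n i₀⟩
      ⟨G, fun i => TLit_free Sum.inr g2 (h1 i), rfl⟩))
  have e1 : α = 2 - 1 / ρ := le_antisymm
    (TLit_le h5 h4 fun n => (Nat.cast_le.2 (csSup_le' (bd n i₀))).trans (up n)) (TLit_ge h5 hc lo)
  have e2 : ∀ i, 2 - 1 / ρ ≤ a i := fun i => TLit_ge (h3 i).2 hc
    (lo.mono fun n g => g.trans (Nat.cast_le.2 (csSup_le' (bd n i))))
  refine ⟨⟨⟨i₀, le_antisymm (e1 ▸ TLit_le (h3 i₀).2 (h3 i₀).1 up) (e1 ▸ e2 i₀)⟩, ?_⟩, e1⟩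
  rintro _ ⟨i, rfl⟩
  exact e1 ▸ e2 i

theorem all_rat (r : ℚ) (h1 : 8 / 5 ≤ r) (h2 : r < 2) :
    ∃ (ι : Type) (_ : Fintype ι) (U : SimpleGraph ι) (κ : ι → ℕ) (L : ℕ) (X : Set ι) (ρ : ℝ),
      2 ≤ ρ ∧ Tame U κ L X ∧ Thin U κ ρ ∧
      ρ * Fintype.card ι = ((Fintype.card ι - 1 + ∑ v, κ v : ℕ) : ℝ) ∧ 2 - 1 / ρ = r ∧
      ∃ (p : ℕ) (c C : ℝ), 0 < c ∧ ∀ᶠ n : ℕ in atTop,
        c * (n : ℝ) ^ (r : ℝ) ≤ SimpleGraph.extremalNumber n (tpw U κ p) ∧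
        (SimpleGraph.extremalNumber n (tpw U κ p) : ℝ) ≤ C * (n : ℝ) ^ (r : ℝ) := by
  have h3 : (5 / 2 : ℚ) ≤ 1 / (2 - r) := by
    rw [le_div_iff₀ (by linarith)]
    linarith
  obtain ⟨ι, _, U, κ, L, X, a, b, e⟩ := comb_exists _ h3
  have h4 : (2 : ℝ) ≤ ((1 / (2 - r) : ℚ) : ℝ) := by
    exact_mod_cast le_trans (by norm_num) h3
  have h5 : 2 - 1 / ((1 / (2 - r) : ℚ) : ℝ) = r := by
    push_cast
    rw [one_div_one_div]
    ring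
  obtain ⟨p, c, hc, hl⟩ := a.lower h4 b e
  obtain ⟨C, hC⟩ := a.upper h4 b p
  obtain ⟨s₀⟩ := a.tree.1.nonempty
  rw [h5] at hl hC
  exact ⟨ι, _, U, κ, L, X, _, h4, a, b, e, h5, p, c, C, hc, hl.mono fun n ⟨G, g1, g2⟩ =>
    ⟨g1.trans (Nat.cast_le.2 (TLit_ex (TLit_free Sum.inr g2 (TLit_self s₀ p)))), hC n⟩⟩

end Pool.Agent.Lib.MP_befe0b_co.BC
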