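import Pool.Agent.Lib.MP_befe0b_co.BC.TDefs

/-! Peeling a tree: the count of tame copies. -/

open Finset
open scoped Classical

noncomputable section

namespace Pool.Agent.Lib.MP_befe0b_co.BC

variable {W : Type} [Fintype W] {T : SimpleGraph W} {R : Finset W} {o : W} {par tg : W → W}
  {rk : W → ℕ} {V : Type} [Fintype V] {G : SimpleGraph V}

theorem TPeelB_mf {α : Type} {p : α → Prop} {i : DecidablePred p} {s : Finset α} {a : α}
    (h : a ∈ @filter α p i s) : a ∈ s ∧ p a := mem_filter.1 h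

theorem TPeelB_mi {α β : Type} {i : DecidableEq β} {f : α → β} {s : Finset α} {b : β}
    (h : b ∈ @image α β i f s) : ∃ a ∈ s, f a = b := mem_image.1 h

omit [Fintype V] in
theorem TPeelB_tame {ι : Type} (𝒜 : (ι → V) → Prop) (m k : ℕ) (J : Finset ι) (hJ : J.card ≤ k)
    (T : Finset (ι → V)) (hT : ∀ c ∈ T, 𝒜 c) (hag : ∀ c ∈ T, ∀ c' ∈ T, ∀ s, s ∉ J → c s = c' s)
    (hit : ∀ c ∈ T, ∀ S ⊆ J, S.Nonempty → ∃ Q : Finset V, Q.card ≤ m ∧
      ∀ c', (∀ s, s ∉ S → c' s = c s) → 𝒜 c' → ∃ s ∈ S, c' s ∈ Q) :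
    T.card ≤ (m * k + 1) ^ J.card := by
  induction hn : J.card generalizing J T with
  | zero =>
    obtain rfl := card_eq_zero.1 hn
    simpa using card_le_one.2 fun c hc c' hc' => funext fun s => hag c hc c' hc' s (by simp)
  | succ n ih =>
    rcases T.eq_empty_or_nonempty with rfl | ⟨c₀, h₀⟩
    · simp
    obtain ⟨Q, hQ, hq⟩ := hit c₀ h₀ J subset_rfl (card_pos.1 (by omega))
    have cov : T ⊆ (J ×ˢ Q).biUnion fun x => T.filter fun c => c x.1 = x.2 := fun c hc => by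
      obtain ⟨s, hs, h⟩ := hq c (hag c hc c₀ h₀) (hT c hc)
      exact mem_biUnion.2 ⟨(s, c s), mem_product.2 ⟨hs, h⟩, mem_filter.2 ⟨hc, rfl⟩⟩
    have h1 : ∀ x ∈ J ×ˢ Q, (T.filter fun c => c x.1 = x.2).card ≤ (m * k + 1) ^ n := by
      intro x hx
      have hs := (mem_product.1 hx).1
      refine ih (J.erase x.1) ((card_erase_le).trans hJ) _ (fun c hc => hT c (mem_filter.1 hc).1)
        (fun c hc c' hc' s h => ?_)
        (fun c hc S hS => hit c (mem_filter.1 hc).1 S (hS.trans (erase_subset _ _)))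
        (by rw [card_erase_of_mem hs, hn]; rfl)
      by_cases e : s = x.1
      · rw [e, (mem_filter.1 hc).2, (mem_filter.1 hc').2]
      · exact hag c (mem_filter.1 hc).1 c' (mem_filter.1 hc').1 s fun h' => h (mem_erase.2 ⟨e, h'⟩)
    refine (card_le_card cov).trans ((card_biUnion_le_card_mul _ _ _ h1).trans ?_)
    rw [pow_succ', card_product, mul_comm J.card]
    exact Nat.mul_le_mul_right _ ((Nat.mul_le_mul hQ hJ).trans (Nat.le_succ _))

theorem TPeelB_top {A : Finset W} {π : W → W} (hT : Tr T R o par rk) (h : StT T R par tg A π)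
    (Jk K Top : Finset W) (hJk : ∀ x, x ∈ Jk ↔ x ∈ R ∧ par x ∈ A ∧ π x ≠ x)
    (hK : ∀ x, x ∈ K ↔ x ∉ A ∧ x ∉ Jk) (hTop : ∀ x, x ∈ Top ↔ x ∈ K ∧ (x = o ∨ par x ∉ K)) :
    A.card + Top.card ≤ eA R o par A + 1 := by
  have hdis : Disjoint A Top := disjoint_left.2 fun x hx hx' => ((hK x).1 ((hTop x).1 hx').1).1 hx
  rw [← card_union_of_disjoint hdis, eA]
  refine le_trans ?_ (card_insert_le o _)
  refine card_le_card_of_forall_subsingleton (fun y z => (z = y ∧ z ∉ Jk) ∨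
    (z ∈ Jk ∧ y ≠ o ∧ ((par z = y ∧ π z = par y) ∨ (par z = par y ∧ π z = y)))) ?_ ?_
  · intro y hy
    by_cases ho : y = o
    · exact ⟨y, ho ▸ mem_insert_self _ _, Or.inl ⟨rfl, fun hj => hT.ne ((hJk y).1 hj).1 ho⟩⟩
    have hin : ∀ z, z ≠ o → (z ∈ A ∨ z ∈ R) → par z ∈ A →
        z ∈ insert o (univ.filter fun y => y ≠ o ∧ (y ∈ A ∨ y ∈ R) ∧ par y ∈ A) :=
      fun z a b c => mem_insert_of_mem (mem_filter.2 ⟨mem_univ _, a, b, c⟩)
    rcases mem_union.1 hy with hA | hA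
    · by_cases hp : par y ∈ A
      · exact ⟨y, hin y ho (Or.inl hA) hp, Or.inl ⟨rfl, fun hj => h.dis y hA ((hJk y).1 hj).1⟩⟩
      · obtain ⟨r, hr, h1, h2⟩ := h.bd y hA (par y) (hT.leaf y ho) hp (hT.adj_par ho)
        refine ⟨r, hin r (hT.ne hr) (Or.inr hr) (h1 ▸ hA), Or.inr ⟨(hJk r).2 ⟨hr, h1 ▸ hA, ?_⟩,
          ho, Or.inl ⟨h1, h2⟩⟩⟩
        intro e
        exact hT.leaf y ho (by rw [← h2, e]; exact hr)
    · obtain ⟨hyK, hy2⟩ := (hTop y).1 hA
      have hp : par y ∈ A := by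
        by_contra hp
        exact hy2.resolve_left ho ((hK _).2 ⟨hp, fun hj => hT.leaf y ho ((hJk _).1 hj).1⟩)
      by_cases hR : y ∈ R
      · exact ⟨y, hin y ho (Or.inr hR) hp, Or.inl ⟨rfl, ((hK y).1 hyK).2⟩⟩
      · obtain ⟨r, hr, h1, h2⟩ := h.bd (par y) hp y hR ((hK y).1 hyK).1 (hT.adj_par ho).symm
        refine ⟨r, hin r (hT.ne hr) (Or.inr hr) (h1 ▸ hp), Or.inr ⟨(hJk r).2 ⟨hr, h1 ▸ hp, ?_⟩,
          ho, Or.inr ⟨h1, h2⟩⟩⟩
        intro e
        exact hR (by rw [← h2, e]; exact hr)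
  · rintro z - y ⟨-, hy⟩ y' ⟨-, hy'⟩
    rcases hy with ⟨a, b⟩ | ⟨a, b, c⟩ <;> rcases hy' with ⟨a', b'⟩ | ⟨a', b', c'⟩
    · exact a.symm.trans a'
    · exact absurd a' b
    · exact absurd a b'
    · have l1 := hT.lt y b
      have l2 := hT.lt y' b'
      rcases c with ⟨c1, c2⟩ | ⟨c1, c2⟩ <;> rcases c' with ⟨d1, d2⟩ | ⟨d1, d2⟩
      · exact c1.symm.trans d1
      · rw [← c2, d2] at l1
        rw [← d1, c1] at l2
        omega
      · rw [← c1, d1] at l1
        rw [← d2, c2] at l2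
        omega
      · exact c2.symm.trans d2

theorem TPeelB_group {m : ℕ} {A : Finset W} {π : W → W} (hT : Tr T R o par rk)
    (h : StT T R par tg A π) (Jk K : Finset W) (hJk : ∀ x, x ∈ Jk ↔ x ∈ R ∧ par x ∈ A ∧ π x ≠ x)
    (hK : ∀ x, x ∈ K ↔ x ∉ A ∧ x ∉ Jk)
    (F : Finset (W → V)) (hF : ∀ φ ∈ F, Hm T G φ) {D : ℝ} (hD0 : 0 ≤ D)
    (hD : ∀ v, ((nb G v).card : ℝ) ≤ D) (hg : ∀ φ ∈ F, GoodT T R G m A fun x => φ (π x))
    (ht : ∀ φ ∈ F, ∀ S ⊆ A, S.Nonempty → ¬ RichT T R G m A S fun x => φ (π x))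
    (hag : ∀ φ ∈ F, ∀ ψ ∈ F, ∀ x ∈ K, φ x = ψ x) :
    (F.card : ℝ) ≤ D ^ Jk.card * ((m * Fintype.card W + 1 : ℕ) : ℝ) ^ Fintype.card W := by
  have hπ : ∀ x, x ∉ A → π x ∈ K := by
    intro x hx
    by_cases hR : x ∈ R
    · rcases h.val x hR with e | ⟨e, e1, e2⟩
      · rw [e]
        exact (hK x).2 ⟨hx, fun hj => ((hJk x).1 hj).2.2 e⟩
      · rw [e]
        exact (hK _).2 ⟨e2, fun hj => e1 ((hJk _).1 hj).1⟩
    · rw [h.fix x hR]
      exact (hK x).2 ⟨hx, fun hj => hR ((hJk x).1 hj).1⟩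
  refine (card_le_mul_image F (fun ψ x => ψ (π x)) (b := D ^ Jk.card) fun ψ hψ => ?_).trans
    (mul_le_mul_of_nonneg_left ?_ (pow_nonneg hD0 _))
  · refine (ext_upper Jk par rk ?_ (fun _ v => nb G v) (fun _ => D) (fun _ _ => hD0)
      (fun _ _ v => hD v) _ ?_ ?_).trans_eq (prod_const D)
    · intro y hy _
      exact hT.lt y (hT.ne ((hJk y).1 hy).1)
    · intro χ hχ y hy
      exact mem_nb.2 (hF χ (TPeelB_mf hχ).1 _ _ (hT.adj_par (hT.ne ((hJk y).1 hy).1)).symm)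
    · intro χ hχ χ' hχ' x hx
      obtain ⟨a1, a2⟩ := TPeelB_mf hχ
      obtain ⟨a3, a4⟩ := TPeelB_mf hχ'
      by_cases hA : x ∈ A
      · have e := (congrFun a2 x).trans (congrFun a4 x).symm
        simpa only [h.fix x (h.dis x hA)] using e
      · exact hag χ a1 χ' a3 x ((hK x).2 ⟨hA, hx⟩)
  · have hc : A.card ≤ Fintype.card W := card_le_univ _
    refine le_trans (Nat.cast_le.2 ((TPeelB_tame (GoodT T R G m A) m (Fintype.card W) A hc _
      ?_ ?_ ?_).trans (Nat.pow_le_pow_right (by omega) hc))) (le_of_eq (Nat.cast_pow _ _))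
    · intro c hc
      obtain ⟨ψ, hψ, rfl⟩ := TPeelB_mi hc
      exact hg ψ hψ
    · intro c hc c' hc' s hs
      obtain ⟨ψ, hψ, rfl⟩ := TPeelB_mi hc
      obtain ⟨ψ', hψ', rfl⟩ := TPeelB_mi hc'
      exact hag ψ hψ ψ' hψ' _ (hπ s hs)
    · intro c hc S hS hne
      obtain ⟨ψ, hψ, rfl⟩ := TPeelB_mi hc
      have := ht ψ hψ S hS hne
      rw [RichT] at this
      push Not at this
      exact this

theorem tameT_count {m : ℕ} {A : Finset W} {π : W → W} (hT : Tr T R o par rk)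
    (h : StT T R par tg A π) (hA : A.Nonempty)
    (F : Finset (W → V)) (hF : ∀ φ ∈ F, Hm T G φ) {D : ℝ} (hD0 : 0 ≤ D)
    (hD : ∀ v, ((nb G v).card : ℝ) ≤ D) (hg : ∀ φ ∈ F, GoodT T R G m A fun x => φ (π x))
    (ht : ∀ φ ∈ F, ∀ S ⊆ A, S.Nonempty → ¬ RichT T R G m A S fun x => φ (π x)) :
    ∃ tp : ℕ, A.card + tp ≤ Fintype.card W ∧ A.card + tp ≤ eA R o par A + 1 ∧
      (F.card : ℝ) ≤ ((m * Fintype.card W + 1 : ℕ) : ℝ) ^ Fintype.card W *
        (Fintype.card V : ℝ) ^ tp * D ^ (Fintype.card W - A.card - tp) := by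
  obtain ⟨a₀, ha₀⟩ := hA
  obtain ⟨Jk, hJk⟩ : ∃ Jk : Finset W, ∀ x, x ∈ Jk ↔ x ∈ R ∧ par x ∈ A ∧ π x ≠ x :=
    ⟨R.filter fun x => par x ∈ A ∧ π x ≠ x, fun _ => mem_filter⟩
  obtain ⟨K, hK⟩ : ∃ K : Finset W, ∀ x, x ∈ K ↔ x ∉ A ∧ x ∉ Jk :=
    ⟨univ.filter fun x => x ∉ A ∧ x ∉ Jk, fun _ => by simp⟩
  obtain ⟨Top, hTop⟩ : ∃ Top : Finset W, ∀ x, x ∈ Top ↔ x ∈ K ∧ (x = o ∨ par x ∉ K) :=
    ⟨K.filter fun x => x = o ∨ par x ∉ K, fun _ => mem_filter⟩
  have hsub : Top ⊆ K := fun x hx => ((hTop x).1 hx).1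
  have hle : Top.card ≤ K.card := card_le_card hsub
  have hsum : A.card + Jk.card + K.card = Fintype.card W := by
    have d1 : Disjoint A Jk := disjoint_left.2 fun x hx hx' => h.dis x hx ((hJk x).1 hx').1
    have d2 : Disjoint (A ∪ Jk) K := disjoint_left.2 fun x hx hx' =>
      (mem_union.1 hx).elim ((hK x).1 hx').1 ((hK x).1 hx').2
    rw [← card_union_of_disjoint d1, ← card_union_of_disjoint d2, ← card_univ]
    congr 1
    refine eq_univ_of_forall fun x => ?_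
    rw [mem_union, mem_union, hK]
    tauto
  refine ⟨Top.card, by omega, TPeelB_top hT h Jk K Top hJk hK hTop, ?_⟩
  have hprod : ∏ y ∈ K, (if y ∈ Top then (Fintype.card V : ℝ) else D) =
      (Fintype.card V : ℝ) ^ Top.card * D ^ (K.card - Top.card) := by
    rw [← prod_sdiff hsub, prod_congr rfl (s₁ := K \ Top) (g := fun _ => D)
      fun y hy => if_neg (mem_sdiff.1 hy).2, prod_congr rfl (s₁ := Top)
      (g := fun _ => (Fintype.card V : ℝ)) fun y hy => if_pos hy, prod_const, prod_const,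
      card_sdiff_of_subset hsub, mul_comm]
  have c1 := ext_image K (fun y => if y = o then a₀ else par y) rk ?_
    (fun y v => if y ∈ Top then univ else nb G v)
    (fun y => if y ∈ Top then (Fintype.card V : ℝ) else D) ?_ ?_ F ?_ ?_
    (fun φ x => if x ∈ K then some (φ x) else none) ?_
  · have c2 := card_le_mul_image F (fun φ x => if x ∈ K then some (φ x) else none)
      (b := D ^ Jk.card * ((m * Fintype.card W + 1 : ℕ) : ℝ) ^ Fintype.card W) fun φ hφ =>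
      TPeelB_group hT h Jk K hJk hK _ (fun ψ hψ => hF ψ (TPeelB_mf hψ).1) hD0 hD
        (fun ψ hψ => hg ψ (TPeelB_mf hψ).1) (fun ψ hψ => ht ψ (TPeelB_mf hψ).1)
        fun ψ hψ χ hχ x hx => by
          have e := (congrFun (TPeelB_mf hψ).2 x).trans (congrFun (TPeelB_mf hχ).2 x).symm
          simpa only [if_pos hx, Option.some.injEq] using e
    rw [hprod] at c1
    refine c2.trans ((mul_le_mul_of_nonneg_left c1 (by positivity)).trans_eq ?_)
    rw [show Fintype.card W - A.card - Top.card = Jk.card + (K.card - Top.card) by omega, pow_add]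
    ring
  · intro y _ hp
    by_cases ho : y = o
    · rw [if_pos ho] at hp
      exact absurd ha₀ ((hK _).1 hp).1
    · simp only [if_neg ho]
      exact hT.lt y ho
  · intro y _
    split_ifs
    · exact Nat.cast_nonneg _
    · exact hD0
  · intro y _ v
    split_ifs
    · exact le_of_eq (by rw [card_univ])
    · exact hD v
  · intro φ hφ y hy
    by_cases ht' : y ∈ Top
    · simp only [if_pos ht']
      exact mem_univ _
    · have ho : y ≠ o := fun e => ht' ((hTop y).2 ⟨hy, Or.inl e⟩)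
      simp only [if_neg ht', if_neg ho]
      exact mem_nb.2 (hF φ hφ _ _ (hT.adj_par ho).symm)
  · intro y hy hp φ _ ψ _
    have ht' : y ∈ Top := by
      refine (hTop y).2 ⟨hy, ?_⟩
      by_cases ho : y = o
      · exact Or.inl ho
      · rw [if_neg ho] at hp
        exact Or.inr hp
    simp only [if_pos ht']
  · intro φ _ ψ _ e
    funext x
    split_ifs with hx
    · rw [e x hx]
    · rfl

end Pool.Agent.Lib.MP_befe0b_co.BC
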