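import Pool.Agent.Lib.MP_befe0b_co.BC.TPeelA
import Pool.Agent.Lib.MP_befe0b_co.BC.TPeelB

/-! The peeling lemma for trees. -/

open Finset
open scoped Classical

noncomputable section

namespace Pool.Agent.Lib.MP_befe0b_co.BC

variable {W : Type} [Fintype W] {T : SimpleGraph W} {R : Finset W} {o : W} {par tg : W → W}
  {rk : W → ℕ} {V : Type} [Fintype V] {G : SimpleGraph V}

theorem TPeel_fibre {α γ : Type} [i : DecidableEq γ] (F : Finset α) (f : α → γ) (hF : F.Nonempty) :
    ∃ x ∈ F, F.card ≤ (F.image f).card * (F.filter fun y => f y = f x).card := by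
  obtain rfl : i = fun a b => Classical.propDecidable (a = b) := Subsingleton.elim _ _
  exact exists_fibre F f hF

theorem peelT {L m : ℕ} {ρ : ℝ} (hT : Tr T R o par rk) (hF : Fold T R par L tg)
    (hb : ∀ A : Finset W, (∀ x ∈ A, x ∉ R) → (eA R o par A : ℝ) ≤ ρ * A.card)
    (F : Finset (W → V)) (hm : ∀ φ ∈ F, MemT T G L m φ) {D : ℝ} (hD0 : 0 ≤ D)
    (hD : ∀ v, ((nb G v).card : ℝ) ≤ D) (hne : F.Nonempty)
    (hc : ∀ j tp : ℕ, 1 ≤ j → j + tp ≤ Fintype.card W → (j + tp : ℝ) ≤ ρ * j + 1 →
      Cp (Fintype.card W) m * (Fintype.card V : ℝ) ^ tp * D ^ (Fintype.card W - j - tp) ≤ F.card) :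
    Gl T R G m := by
  set k := Fintype.card W with hk
  have main : ∀ (n : ℕ) (A : Finset W) (π : W → W) (F' : Finset (W → V)), A.card < n →
      StT T R par tg A π → F' ⊆ F → (∀ φ ∈ F', GoodT T R G m A fun x => φ (π x)) →
      (F.card : ℝ) ≤ 2 ^ ((k + 1) * (k - A.card)) * F'.card → Gl T R G m := by
    intro n
    induction n with
    | zero => intro A π F' h; omega
    | succ n ih =>
      intro A π F' hn hst hsub hg hN
      have hp : (0 : ℝ) < F.card := by exact_mod_cast hne.card_pos
      have hne' : F'.Nonempty := by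
        rw [nonempty_iff_ne_empty]
        rintro rfl
        simp only [card_empty, Nat.cast_zero, mul_zero] at hN
        linarith
      obtain ⟨φ₀, hφ₀⟩ := id hne'
      rcases A.eq_empty_or_nonempty with rfl | hA
      · exact hst.gl (hm φ₀ (hsub hφ₀)) (hg φ₀ hφ₀)
      have hAk : A.card ≤ k := card_le_univ A
      obtain ⟨p, hpd⟩ : ∃ p : (W → V) → Prop, ∀ φ, p φ ↔ ∃ S ⊆ A, S.Nonempty ∧
        RichT T R G m A S fun x => φ (π x) := ⟨_, fun _ => Iff.rfl⟩
      have s1 : F'.filter (fun φ => ¬ p φ) ⊆ F' := filter_subset _ _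
      obtain ⟨tp, t0, t0', t1⟩ := tameT_count (G := G) (m := m) hT hst hA
        (F'.filter fun φ => ¬ p φ) (fun φ h => (hm φ (hsub (s1 h))).hom) hD0 hD
        (fun φ h => hg φ (s1 h))
        fun φ h S h1 h2 h3 => (mem_filter.1 h).2 ((hpd φ).2 ⟨S, h1, h2, h3⟩)
      have t2 : 2 * ((F'.filter fun φ => ¬ p φ).card : ℝ) ≤ F'.card := by
        have e1 : (2 : ℝ) ^ ((k + 1) * (k - A.card)) * 2 ≤ 2 ^ ((k + 1) * (k + 1)) := by
          rw [← pow_succ]
          refine pow_le_pow_right₀ (by norm_num) ?_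
          have := Nat.mul_le_mul_left (k + 1) (Nat.sub_le k A.card)
          rw [Nat.mul_succ]
          omega
        have e2 := (hc A.card tp hA.card_pos t0 (by
          have h1 := hb A hst.dis
          have h2 : (A.card + tp : ℝ) ≤ eA R o par A + 1 := by exact_mod_cast t0'
          linarith)).trans hN
        have e3 := mul_le_mul_of_nonneg_left t1
          (show (0 : ℝ) ≤ 2 ^ ((k + 1) * (k + 1)) by positivity)
        have e4 := mul_le_mul_of_nonneg_right e1
          (Nat.cast_nonneg (α := ℝ) (F'.filter fun φ => ¬ p φ).card)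
        refine le_of_mul_le_mul_left (a := 2 ^ ((k + 1) * (k - A.card))) ?_ (by positivity)
        unfold Cp at e2
        rw [← hk] at e3
        linarith [e2, e3, e4]
      have t3 : (F'.card : ℝ) ≤ 2 * (F'.filter p).card := by
        have : ((F'.filter p).card : ℝ) + (F'.filter fun φ => ¬ p φ).card = F'.card := by
          exact_mod_cast card_filter_add_card_filter_not p
        linarith
      have t4 : (F'.filter p).Nonempty := by
        have : (0 : ℝ) < F'.card := by exact_mod_cast hne'.card_pos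
        have : (0 : ℝ) < (F'.filter p).card := by linarith
        exact card_pos.1 (by exact_mod_cast this)
      have ch : ∀ φ, ∃ S, p φ → S ⊆ A ∧ S.Nonempty ∧ RichT T R G m A S fun x => φ (π x) :=
        fun φ => by
          by_cases h : p φ
          · obtain ⟨S, h⟩ := (hpd φ).1 h
            exact ⟨S, fun _ => h⟩
          · exact ⟨∅, fun h' => absurd h' h⟩
      choose f hf using ch
      obtain ⟨φ₁, h1, h2⟩ := TPeel_fibre (F'.filter p) f t4
      obtain ⟨hS, b2, b3⟩ := hf φ₁ (mem_filter.1 h1).2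
      have hcard : (A \ f φ₁).card < A.card := by
        have := card_sdiff_add_card_eq_card hS
        have := b2.card_pos
        omega
      have s2 : ∀ φ ∈ (F'.filter p).filter fun ψ => f ψ = f φ₁, φ ∈ F' ∧
          RichT T R G m A (f φ₁) fun x => φ (π x) :=
        fun φ h => ⟨(mem_filter.1 (mem_filter.1 h).1).1,
          (mem_filter.1 h).2 ▸ (hf φ (mem_filter.1 (mem_filter.1 h).1).2).2.2⟩
      refine ih (A \ f φ₁) _ ((F'.filter p).filter fun ψ => f ψ = f φ₁) (by omega)
        (hst.peel hT hF hS (hm φ₁ (hsub (mem_filter.1 h1).1)) b3) (fun φ h => hsub (s2 φ h).1)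
        (fun φ h => hst.good hT hF hS (hm φ (hsub (s2 φ h).1)) (s2 φ h).2) ?_
      have e1 : ((F'.filter p).image f).card ≤ 2 ^ k := by
        simpa using card_le_univ ((F'.filter p).image f)
      have e2 : ((F'.filter p).card : ℝ) ≤
          2 ^ k * ((F'.filter p).filter fun ψ => f ψ = f φ₁).card := by
        exact_mod_cast h2.trans (Nat.mul_le_mul_right _ e1)
      have e3 : (2 : ℝ) ^ ((k + 1) * (k - A.card)) * (2 * 2 ^ k) ≤
          2 ^ ((k + 1) * (k - (A \ f φ₁).card)) := by
        rw [← pow_succ', ← pow_add]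
        refine pow_le_pow_right₀ (by norm_num) ?_
        rw [← Nat.mul_succ]
        exact Nat.mul_le_mul_left _ (by omega)
      calc (F.card : ℝ) ≤ _ := hN
        _ ≤ 2 ^ ((k + 1) * (k - A.card)) * (2 * (2 ^ k *
            ((F'.filter p).filter fun ψ => f ψ = f φ₁).card)) :=
          mul_le_mul_of_nonneg_left (by linarith) (by positivity)
        _ = 2 ^ ((k + 1) * (k - A.card)) * (2 * 2 ^ k) *
            ((F'.filter p).filter fun ψ => f ψ = f φ₁).card := by ring
        _ ≤ _ := mul_le_mul_of_nonneg_right e3 (Nat.cast_nonneg _)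
  exact main _ (univ \ R) id F (Nat.lt_succ_self _) StT.init Subset.rfl
    (fun φ h => (hm φ h).good)
    (le_mul_of_one_le_left (Nat.cast_nonneg _) (one_le_pow₀ one_le_two))

end Pool.Agent.Lib.MP_befe0b_co.BC
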