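import Pool.Agent.Lib.MP_befe0b_co.BC.TDefs

/-! Peeling a tree: states and one step. -/

open Finset
open scoped Classical

noncomputable section

namespace Pool.Agent.Lib.MP_befe0b_co.BC

variable {W : Type} [Fintype W] {T : SimpleGraph W} {R : Finset W} {o : W} {par tg : W → W}
  {rk : W → ℕ} {V : Type} [Fintype V] {G : SimpleGraph V}

variable {L m : ℕ} {A S : Finset W} {π : W → W} {φ : W → V}

/-- The folding after `S` has been peeled. -/
def nxt (R : Finset W) (par tg : W → W) (A S : Finset W) (π : W → W) (x : W) : W :=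
  if x ∈ R ∧ par x ∈ A \ S ∧ tg x ∈ S then tg x else π x

theorem StT.init : StT T R par tg (univ \ R) id :=
  ⟨fun _ hx => (mem_sdiff.1 hx).2, fun _ _ => rfl, fun _ _ => Or.inl rfl, fun _ _ _ _ h => h,
    fun _ _ u h1 h2 _ => absurd (mem_sdiff.2 ⟨mem_univ u, h1⟩) h2⟩

theorem MemT.good (hφ : MemT T G L m φ) : GoodT T R G m (univ \ R) fun x => φ (id x) :=
  fun _ _ => ⟨φ, fun _ _ => rfl, hφ.hom, fun _ _ _ _ h => hφ.inj h,
    fun x h1 h2 => absurd (mem_sdiff.2 ⟨mem_univ x, h1⟩) h2⟩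

omit [Fintype W] in
theorem StT.gl (h : StT T R par tg ∅ π) (hφ : MemT T G L m φ)
    (hg : GoodT T R G m ∅ fun x => φ (π x)) : Gl T R G m :=
  ⟨_, fun r hr r' hr' e => h.inj r hr r' hr' (hφ.inj e), hg⟩

omit [Fintype W] in
theorem StT.few (hT : Tr T R o par rk) (hF : Fold T R par L tg) (h : StT T R par tg A π)
    (hS : S ⊆ A) (hφ : MemT T G L m φ) (hr : RichT T R G m A S fun x => φ (π x)) {u : W}
    (hu : u ∈ S) (B : Finset W) (hB : ∀ s ∈ B, s ∈ A \ S ∧ T.Adj u s) (hB2 : B.card ≤ L + 2) :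
    B.card + (lgs R par u).card < L + 2 := by
  by_contra hc
  obtain ⟨Lg, g1, g2⟩ := exists_subset_card_eq (s := lgs R par u) (n := L + 2 - B.card) (by omega)
  have g3 : ∀ r ∈ Lg, r ∈ R ∧ par r = u := fun r hr => mem_lgs.1 (g1 hr)
  have hN : (B ∪ Lg.image π).card = L + 2 := by
    rw [card_union_of_disjoint, card_image_of_injOn fun r hr r' hr' e =>
      h.inj r (g3 r hr).1 r' (g3 r' hr').1 e]
    · omega
    · refine disjoint_left.2 fun s hs hs' => ?_
      obtain ⟨r, h1, rfl⟩ := mem_image.1 hs'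
      have h2 := (mem_sdiff.1 (hB _ hs).1).1
      rcases h.val r (g3 r h1).1 with e | ⟨e, -, h3⟩
      · exact h.dis _ h2 (e.symm ▸ (g3 r h1).1)
      · exact h3 (e ▸ h2)
  have hadj : ∀ x ∈ B ∪ Lg.image π, T.Adj u x := fun x hx => by
    rcases mem_union.1 hx with h1 | h1
    · exact (hB x h1).2
    · obtain ⟨r, h0, rfl⟩ := mem_image.1 h1
      obtain ⟨h2, h4⟩ := g3 r h0
      rcases h.val r h2 with e | ⟨e, h3, -⟩
      · rw [e, ← h4]
        exact (hT.adj_par (hT.ne h2)).symm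
      · rw [e, ← h4]
        exact hF.adj r h2 h3
  obtain ⟨ψ₁, c1, c2, c3⟩ := hr _ (hφ.light u _ hN hadj)
  simp only at c1
  obtain ⟨ψ, d1, d2, -⟩ := c2 ∅ (by simp)
  refine c3 u hu (mem_cn.2 fun v hv => ?_)
  rw [← d1 u (Or.inr (hS hu))]
  obtain ⟨x, hx, rfl⟩ := mem_image.1 hv
  rcases mem_union.1 hx with h1 | h1
  · obtain ⟨h2, h3⟩ := mem_sdiff.1 (hB x h1).1
    have := d2 _ _ (hB x h1).2.symm
    rwa [d1 x (Or.inr h2), c1 x h3, h.fix x (h.dis x h2)] at this
  · obtain ⟨r, h0, rfl⟩ := mem_image.1 h1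
    obtain ⟨h2, h4⟩ := g3 r h0
    have := d2 _ _ (hT.adj_par (hT.ne h2))
    rwa [d1 r (Or.inl h2), c1 r fun h3 => h.dis r (hS h3) h2, h4] at this

omit [Fintype W] in
theorem StT.peel (hT : Tr T R o par rk) (hF : Fold T R par L tg) (h : StT T R par tg A π)
    (hS : S ⊆ A) (hφ : MemT T G L m φ) (hr : RichT T R G m A S fun x => φ (π x)) :
    StT T R par tg (A \ S) (nxt R par tg A S π) := by
  have nw : ∀ r, r ∈ R ∧ par r ∈ A \ S ∧ tg r ∈ S → ∀ r' ∈ R, tg r ≠ π r' := by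
    intro r a r' hr' e
    rcases h.val r' hr' with e' | ⟨e', -, h3⟩
    · exact h.dis _ (hS a.2.2) (e ▸ e'.symm ▸ hr')
    · exact h3 (e' ▸ e ▸ hS a.2.2)
  refine ⟨fun x hx => h.dis x (mem_sdiff.1 hx).1, fun x hx => ?_, fun r hr' => ?_,
    fun r h1 r' h2 e => ?_, fun s hs u h1 h2 h3 => ?_⟩
  · rw [nxt, if_neg fun a => hx a.1, h.fix x hx]
  · unfold nxt
    split_ifs with a
    · exact Or.inr ⟨rfl, h.dis _ (hS a.2.2), fun b => (mem_sdiff.1 b).2 a.2.2⟩
    · exact (h.val r hr').imp_right fun b => ⟨b.1, b.2.1, fun c => b.2.2 (mem_sdiff.1 c).1⟩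
  · unfold nxt at e
    split_ifs at e with a b b
    · have t1 := h.dis _ (hS a.2.2)
      by_cases c : par r = par r'
      · exact hF.inj r h1 r' h2 c e t1
      have a1 := (hF.adj r h1 t1).symm
      have a2 := (hF.adj r' h2 (e ▸ t1)).symm
      rw [← e] at a2
      have a3 := hF.low _ _ _ (h.dis _ (mem_sdiff.1 a.2.1).1) (h.dis _ (mem_sdiff.1 b.2.1).1) c a1 a2
      have a4 := h.few hT hF hS hφ hr a.2.2 {par r, par r'} (fun s hs => by
        rcases mem_insert.1 hs with rfl | hs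
        · exact ⟨a.2.1, a1⟩
        · rw [mem_singleton.1 hs]
          exact ⟨b.2.1, a2⟩) (card_le_two.trans (by omega))
      rw [card_pair c] at a4
      omega
    · exact absurd e (nw r a r' h2)
    · exact absurd e.symm (nw r' b r h1)
    · exact h.inj r h1 r' h2 e
  · obtain ⟨s1, s2⟩ := mem_sdiff.1 hs
    by_cases a : u ∈ A
    · have b : u ∈ S := by
        by_contra b
        exact h2 (mem_sdiff.2 ⟨a, b⟩)
      have a4 := h.few hT hF hS hφ hr b {s} (fun s' hs' => by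
        rw [mem_singleton.1 hs']
        exact ⟨hs, h3.symm⟩) (by simp)
      rw [card_singleton] at a4
      obtain ⟨r, r1, r2, r3⟩ := hF.ex s u (h.dis s s1) h1 h3 (by omega)
      exact ⟨r, r1, r2, by rw [nxt, if_pos ⟨r1, r2 ▸ hs, r3 ▸ b⟩, r3]⟩
    · obtain ⟨r, r1, r2, r3⟩ := h.bd s s1 u h1 a h3
      refine ⟨r, r1, r2, ?_⟩
      unfold nxt
      split_ifs with c
      · rcases h.val r r1 with e | ⟨e, -, -⟩
        · exact absurd (r3 ▸ e.symm ▸ r1) h1
        · rw [← e, r3]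
      · exact r3

omit [Fintype W] [Fintype V] in
theorem StT.good [Fintype V] (hT : Tr T R o par rk) (hF : Fold T R par L tg)
    (h : StT T R par tg A π) (hS : S ⊆ A) (hφ : MemT T G L m φ)
    (hr : RichT T R G m A S fun x => φ (π x)) :
    GoodT T R G m (A \ S) fun x => φ (nxt R par tg A S π x) := by
  intro Q hQ
  obtain ⟨ψ₁, c1, c2, c3⟩ := hr Q hQ
  simp only at c1
  obtain ⟨ψ, d1, d2, d3, d4⟩ := c2 Q hQ
  have e : ∀ s ∈ A \ S, ψ s = φ s := fun s hs => by
    obtain ⟨h1, h2⟩ := mem_sdiff.1 hs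
    rw [d1 s (Or.inr h1), c1 s h2, h.fix s (h.dis s h1)]
  have key : ∀ r ∈ R, G.Adj (φ (nxt R par tg A S π r)) (ψ (par r)) := fun r hr' => by
    unfold nxt
    split_ifs with a
    · rw [e _ a.2.1]
      exact hφ.hom _ _ (hF.adj r hr' (h.dis _ (hS a.2.2))).symm
    · have := d2 _ _ (hT.adj_par (hT.ne hr'))
      rwa [d1 r (Or.inl hr'), c1 r fun h3 => h.dis r (hS h3) hr'] at this
  refine ⟨fun x => if x ∈ R then φ (nxt R par tg A S π x) else ψ x, fun x hx => ?_,
    fun x y hxy => ?_, fun x y hx hy => ?_, fun x hx h1 => ?_⟩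
  · by_cases a : x ∈ R
    · simp only [if_pos a]
    · simp only [if_neg a]
      rw [nxt, if_neg fun b => a b.1, h.fix x a]
      exact e x (hx.resolve_left a)
  · by_cases a : x ∈ R
    · obtain rfl := hT.root_adj a hxy
      simp only [if_pos a, if_neg (hT.leaf x (hT.ne a))]
      exact key x a
    by_cases b : y ∈ R
    · obtain rfl := hT.root_adj b hxy.symm
      simp only [if_pos b, if_neg a]
      exact (key y b).symm
    simp only [if_neg a, if_neg b]
    exact d2 x y hxy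
  · simp only [if_neg hx, if_neg hy]
    exact d3 x y hx hy
  · simp only [if_neg hx]
    by_cases a : x ∈ A
    · have b : x ∈ S := by
        by_contra b
        exact h1 (mem_sdiff.2 ⟨a, b⟩)
      rw [d1 x (Or.inr a)]
      exact c3 x b
    · exact d4 x hx a

end Pool.Agent.Lib.MP_befe0b_co.BC
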