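import Pool.Agent.Lib.MP_befe0b_co.BC.TDefs

/-! Trees from parent maps, and fractional orientations. -/

open Finset
open scoped Classical

noncomputable section

namespace Pool.Agent.Lib.MP_befe0b_co.BC

theorem tshare_edge {ι : Type} (o : ι) (pr : ι → ι) {u v : ι}
    (h : (SimpleGraph.fromRel fun u v => u ≠ o ∧ pr u = v).Adj u v) :
    ∃ w, (w = u ∨ w = v) ∧ (pr w = u ∨ pr w = v) ∧ w ≠ o ∧ s(w, pr w) = s(u, v) := by
  rcases ((SimpleGraph.fromRel_adj _ _ _).1 h).2 with h | h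
  · exact ⟨u, Or.inl rfl, Or.inr h.2, h.1, by rw [h.2]⟩
  · exact ⟨v, Or.inr rfl, Or.inl h.2, h.1, by rw [h.2, Sym2.eq_swap]⟩

theorem tshare_ind {ι : Type} (o : ι) (pr : ι → ι) (J : Finset ι) :
    ((SimpleGraph.fromRel fun u v => u ≠ o ∧ pr u = v).induce (J : Set ι)).edgeSet.ncard ≤
      (J.filter fun u => u ≠ o ∧ pr u ∈ J).card := by
  rw [← Set.ncard_image_of_injective _ (Sym2.map.injective Subtype.val_injective)]
  refine le_trans (Set.ncard_le_ncard (t := (((J.filter fun u => u ≠ o ∧ pr u ∈ J).image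
    fun u => s(u, pr u) : Finset (Sym2 ι)) : Set (Sym2 ι))) ?_ (Finset.finite_toSet _)) ?_
  · rintro _ ⟨e, he, rfl⟩
    induction e using Sym2.ind with
    | _ u v =>
    obtain ⟨w, h1, h2, h3, h4⟩ := tshare_edge o pr (u := u.1) (v := v.1) he
    refine mem_coe.2 (mem_image.2 ⟨w, mem_filter.2 ⟨?_, h3, ?_⟩, h4⟩)
    · rcases h1 with h | h
      · exact h ▸ u.2
      · exact h ▸ v.2
    · rcases h2 with h | h
      · exact h ▸ u.2
      · exact h ▸ v.2
  · rw [Set.ncard_coe_finset]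
    exact card_image_le

theorem tree_of_par {ι : Type} [Fintype ι] (o : ι) (pr : ι → ι) (rn : ι → ℕ)
    (hrn : ∀ v, v ≠ o → rn (pr v) < rn v) :
    (SimpleGraph.fromRel fun u v => u ≠ o ∧ pr u = v).IsTree := by
  have hreach : ∀ (n : ℕ) (v : ι), rn v = n →
      (SimpleGraph.fromRel fun u v => u ≠ o ∧ pr u = v).Reachable v o := by
    intro n
    induction n using Nat.strong_induction_on with
    | _ n ih =>
    intro v hv
    by_cases e : v = o
    · rw [e]
    · have h1 := hrn v e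
      have h2 : (SimpleGraph.fromRel fun u v => u ≠ o ∧ pr u = v).Adj v (pr v) :=
        (SimpleGraph.fromRel_adj _ _ _).2 ⟨fun e' => by rw [← e'] at h1; omega, Or.inl ⟨e, rfl⟩⟩
      exact h2.reachable.trans (ih _ (hv ▸ h1) _ rfl)
  have hconn : (SimpleGraph.fromRel fun u v => u ≠ o ∧ pr u = v).Connected :=
    haveI : Nonempty ι := ⟨o⟩
    ⟨fun u v => (hreach _ u rfl).trans (hreach _ v rfl).symm⟩
  refine SimpleGraph.isTree_iff_connected_and_card.2 ⟨hconn, le_antisymm ?_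
    hconn.card_vert_le_card_edgeSet_add_one⟩
  have h1 : (SimpleGraph.fromRel fun u v => u ≠ o ∧ pr u = v).edgeSet.ncard ≤
      (univ.erase o).card := by
    refine le_trans (Set.ncard_le_ncard (t := (((univ.erase o).image
      fun u => s(u, pr u) : Finset (Sym2 ι)) : Set (Sym2 ι))) ?_ (Finset.finite_toSet _)) ?_
    · intro e he
      induction e using Sym2.ind with
      | _ u v =>
      obtain ⟨w, -, -, h3, h4⟩ := tshare_edge o pr he
      exact mem_coe.2 (mem_image.2 ⟨w, mem_erase.2 ⟨h3, mem_univ _⟩, h4⟩)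
    · rw [Set.ncard_coe_finset]
      exact card_image_le
  have h2 := card_erase_add_one (mem_univ o)
  rw [Nat.card_coe_set_eq, Nat.card_eq_fintype_card, ← card_univ]
  omega

theorem thin_of_share {ι : Type} [Fintype ι] (o : ι) (pr : ι → ι) (rn : ι → ℕ)
    (hrn : ∀ v, v ≠ o → rn (pr v) < rn v) (κ : ι → ℕ) (ρ : ℝ) (sh : ι → ℝ)
    (h0 : ∀ v, 0 ≤ sh v ∧ sh v ≤ 1)
    (h1 : ∀ v, κ v + (if v = o then 0 else sh v) +
      ∑ u ∈ univ.filter fun u => u ≠ o ∧ pr u = v, (1 - sh u) = ρ) :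
    Thin (SimpleGraph.fromRel fun u v => u ≠ o ∧ pr u = v) κ ρ ∧
      ρ * Fintype.card ι = (Fintype.card ι - 1 + ∑ v, κ v : ℕ) := by
  have key : ∀ J : Finset ι, ρ * J.card = ∑ v ∈ J, (κ v : ℝ) + ∑ v ∈ J.erase o, sh v +
      ∑ u ∈ (univ.erase o).filter fun u => pr u ∈ J, (1 - sh u) := by
    intro J
    have e1 : ∑ v ∈ J.erase o, sh v = ∑ v ∈ J, if v = o then 0 else sh v := by
      rw [← sum_erase J (a := o) (f := fun v => if v = o then 0 else sh v) (if_pos rfl)]
      exact sum_congr rfl fun v hv => (if_neg (mem_erase.1 hv).1).symm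
    have e2 : ∀ v, (univ.filter fun u => u ≠ o ∧ pr u = v) =
        (univ.erase o).filter fun u => pr u = v := fun v => by
      ext u
      simp
    rw [e1, ← sum_fiberwise_eq_sum_filter, ← sum_add_distrib, ← sum_add_distrib, mul_comm,
      ← nsmul_eq_mul, ← sum_const]
    exact sum_congr rfl fun v _ => by rw [← e2 v, h1 v]
  refine ⟨fun J => ?_, ?_⟩
  · have h2 := tshare_ind o pr J
    have h3 : ∑ u ∈ J.filter fun u => u ≠ o ∧ pr u ∈ J, sh u ≤ ∑ v ∈ J.erase o, sh v :=
      sum_le_sum_of_subset_of_nonneg (fun u hu => mem_erase.2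
        ⟨(mem_filter.1 hu).2.1, (mem_filter.1 hu).1⟩) fun u _ _ => (h0 u).1
    have h4 : ∑ u ∈ J.filter fun u => u ≠ o ∧ pr u ∈ J, (1 - sh u) ≤
        ∑ u ∈ (univ.erase o).filter fun u => pr u ∈ J, (1 - sh u) :=
      sum_le_sum_of_subset_of_nonneg (fun u hu => mem_filter.2
        ⟨mem_erase.2 ⟨(mem_filter.1 hu).2.1, mem_univ _⟩, (mem_filter.1 hu).2.2⟩)
        fun u _ _ => sub_nonneg.2 (h0 u).2
    rw [sum_sub_distrib, sum_const, nsmul_eq_mul, mul_one] at h4
    have h5 := (Nat.cast_le (α := ℝ)).2 h2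
    rw [key J, Nat.cast_add, Nat.cast_sum]
    linarith
  · have h2 := key univ
    have h3 := card_erase_add_one (mem_univ o)
    rw [filter_true_of_mem fun u _ => mem_univ _, sum_sub_distrib, sum_const, nsmul_eq_mul,
      mul_one] at h2
    rw [← card_univ, h2, show (univ : Finset ι).card - 1 = (univ.erase o).card by omega,
      Nat.cast_add, Nat.cast_sum]
    ring

end Pool.Agent.Lib.MP_befe0b_co.BC
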