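import Mathlib

/-! Rooted trees with pendant roots and their powers. -/

namespace Pool.Agent.Lib.MP_befe0b_co.BC

/-- The tree `U` with `κ s` pendant roots at `s`. -/
def tw {ι : Type} (U : SimpleGraph ι) (κ : ι → ℕ) : SimpleGraph (ι ⊕ (Σ s : ι, Fin (κ s))) :=
  SimpleGraph.fromRel fun x y =>
    (∃ s s', x = .inl s ∧ y = .inl s' ∧ U.Adj s s') ∨ ∃ s l, x = .inl s ∧ y = .inr ⟨s, l⟩

/-- `p` disjoint copies of `U` on common roots. -/
def tpw {ι : Type} (U : SimpleGraph ι) (κ : ι → ℕ) (p : ℕ) :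
    SimpleGraph ((Fin p × ι) ⊕ (Σ s : ι, Fin (κ s))) :=
  SimpleGraph.fromRel fun x y =>
    (∃ t s s', x = .inl (t, s) ∧ y = .inl (t, s') ∧ U.Adj s s') ∨
      ∃ t s l, x = .inl (t, s) ∧ y = .inr ⟨s, l⟩

/-- The class of rooted trees, with parameter `L` and colour class `X`. -/
structure Tame {ι : Type} (U : SimpleGraph ι) (κ : ι → ℕ) (L : ℕ) (X : Set ι) : Prop where
  tree : U.IsTree
  col : ∀ u v, U.Adj u v → (u ∈ X ↔ v ∉ X)
  top : ∀ v, κ v ≤ L + 1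
  cut : ∀ v ∈ X, κ v + (U.neighborSet v).ncard ≤ L + 2
  low : ∀ v, 2 ≤ (U.neighborSet v).ncard → L ≤ κ v
  fold : ∀ v, {u | U.Adj v u ∧ κ u ≤ L}.ncard ≤ κ v

/-- Every set `J` of unrooted vertices spans with its roots at most `ρ |J|` edges. -/
def Thin {ι : Type} (U : SimpleGraph ι) (κ : ι → ℕ) (ρ : ℝ) : Prop :=
  ∀ J : Finset ι,
    (((U.induce (J : Set ι)).edgeSet.ncard + ∑ v ∈ J, κ v : ℕ) : ℝ) ≤ ρ * J.card

end Pool.Agent.Lib.MP_befe0b_co.BC
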